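import Pool.Agent.Lib.MP_711ea9_lc.LangLemmas

set_option autoImplicit false

/-!
# Closed terms and their programs
-/

namespace Pool.Agent.Lib.MP_711ea9_lc.FH

open Finset

/-- Terms with `k` free variables. -/
inductive Tm : ℕ → Type
  | var {k : ℕ} (i : Fin k) : Tm k
  | const {k : ℕ} (c : ℕ) : Tm k
  | arr {k : ℕ} (t : Tm k) : Tm k
  | add {k : ℕ} (s t : Tm k) : Tm k
  | sub {k : ℕ} (s t : Tm k) : Tm k
  | mul {k : ℕ} (s t : Tm k) : Tm k
  | div {k : ℕ} (s t : Tm k) : Tm k
  | mod {k : ℕ} (s t : Tm k) : Tm k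
  | cond {k : ℕ} (c s t : Tm k) : Tm k
  | sum {k : ℕ} (n : Tm k) (b : Tm (k + 1)) : Tm k

/-- Extend an environment by one value. -/
def ext {k : ℕ} (e : Fin k → ℕ) (i : ℕ) : Fin (k + 1) → ℕ := Fin.snoc (α := fun _ => ℕ) e i

namespace Tm

/-- The value of a term. -/
def eval (A : ℕ → ℕ) : {k : ℕ} → Tm k → (Fin k → ℕ) → ℕ
  | _, var i, e => e i
  | _, const c, _ => c
  | _, arr t, e => A (t.eval A e)
  | _, add s t, e => s.eval A e + t.eval A e
  | _, sub s t, e => s.eval A e - t.eval A e
  | _, mul s t, e => s.eval A e * t.eval A e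
  | _, div s t, e => s.eval A e / t.eval A e
  | _, mod s t, e => s.eval A e % t.eval A e
  | _, cond c s t, e => if c.eval A e ≠ 0 then s.eval A e else t.eval A e
  | _, sum n b, e => ∑ i ∈ range (n.eval A e), b.eval A (ext e i)

/-- Renaming of variables. -/
def ren : {k m : ℕ} → (Fin k → Fin m) → Tm k → Tm m
  | _, _, ρ, var i => var (ρ i)
  | _, _, _, const c => const c
  | _, _, ρ, arr t => arr (t.ren ρ)
  | _, _, ρ, add s t => add (s.ren ρ) (t.ren ρ)
  | _, _, ρ, sub s t => sub (s.ren ρ) (t.ren ρ)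
  | _, _, ρ, mul s t => mul (s.ren ρ) (t.ren ρ)
  | _, _, ρ, div s t => div (s.ren ρ) (t.ren ρ)
  | _, _, ρ, mod s t => mod (s.ren ρ) (t.ren ρ)
  | _, _, ρ, cond c s t => cond (c.ren ρ) (s.ren ρ) (t.ren ρ)
  | _, m, ρ, sum n b => sum (n.ren ρ)
      (b.ren (Fin.snoc (α := fun _ => Fin (m + 1)) (fun i => (ρ i).castSucc) (Fin.last m)))

/-- The program of a term: the variable `i` is read from the register `ρ i`, the result is put
into the register `r`, only registers from `r` on are used. -/
def comp : {k : ℕ} → Tm k → (Fin k → ℕ) → ℕ → Cmd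
  | _, var i, ρ, r => .set r (.var (ρ i))
  | _, const c, _, r => .set r (.const c)
  | _, arr t, ρ, r => .seq (t.comp ρ r) (.set r (.get 0 (.var r)))
  | _, add s t, ρ, r => .seq (s.comp ρ r) (.seq (t.comp ρ (r + 1))
      (.set r (.add (.var r) (.var (r + 1)))))
  | _, sub s t, ρ, r => .seq (s.comp ρ r) (.seq (t.comp ρ (r + 1))
      (.set r (.sub (.var r) (.var (r + 1)))))
  | _, mul s t, ρ, r => .seq (s.comp ρ r) (.seq (t.comp ρ (r + 1)) (.seq (.set (r + 2) (.const 0))
      (.seq (.loop (.var r) (.set (r + 2) (.add (.var (r + 2)) (.var (r + 1)))))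
        (.set r (.var (r + 2))))))
  | _, div s t, ρ, r => .seq (s.comp ρ r) (.seq (t.comp ρ (r + 1))
      (.set r (.div (.var r) (.var (r + 1)))))
  | _, mod s t, ρ, r => .seq (s.comp ρ r) (.seq (t.comp ρ (r + 1))
      (.set r (.mod (.var r) (.var (r + 1)))))
  | _, cond c s t, ρ, r => .seq (c.comp ρ r) (.ite (.var r) (s.comp ρ r) (t.comp ρ r))
  | _, sum n b, ρ, r => .seq (n.comp ρ r) (.seq (.set (r + 1) (.const 0))
      (.seq (.set (r + 2) (.const 0))
        (.seq (.loop (.var r)
          (.seq (b.comp (ext ρ (r + 1)) (r + 3))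
            (.seq (.set (r + 2) (.add (.var (r + 2)) (.var (r + 3))))
              (.set (r + 1) (.add (.var (r + 1)) (.const 1))))))
          (.set r (.var (r + 2))))))

/-- The number of registers used by the program of a term. -/
def width : {k : ℕ} → Tm k → ℕ
  | _, var _ => 1
  | _, const _ => 1
  | _, arr t => t.width
  | _, add s t => max s.width (t.width + 1)
  | _, sub s t => max s.width (t.width + 1)
  | _, mul s t => max 3 (max s.width (t.width + 1))
  | _, div s t => max s.width (t.width + 1)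
  | _, mod s t => max s.width (t.width + 1)
  | _, cond c s t => max c.width (max s.width t.width)
  | _, sum n b => max n.width (b.width + 3)

/-- A bound for the number of steps of the program of a term. -/
def stp (A : ℕ → ℕ) : {k : ℕ} → Tm k → (Fin k → ℕ) → ℕ
  | _, var _, _ => 2
  | _, const c, _ => 2 + Nat.size c
  | _, arr t, e => t.stp A e + 3
  | _, add s t, e => s.stp A e + t.stp A e + 4
  | _, sub s t, e => s.stp A e + t.stp A e + 4
  | _, mul s t, e => s.stp A e + t.stp A e + 10 + 5 * s.eval A e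
  | _, div s t, e => s.stp A e + t.stp A e + 4
  | _, mod s t, e => s.stp A e + t.stp A e + 4
  | _, cond c s t, e => c.stp A e + s.stp A e + t.stp A e + 2
  | _, sum n b, e => n.stp A e + 10 + ∑ i ∈ range (n.eval A e), (11 + b.stp A (ext e i))

end Tm

/-- Functions which are given by terms. -/
def Cp {k : ℕ} (f : (ℕ → ℕ) → (Fin k → ℕ) → ℕ) : Prop := ∃ t : Tm k, ∀ A e, t.eval A e = f A e

open scoped Classical in
/-- Predicates which are given by terms. -/
def Pp {k : ℕ} (p : (ℕ → ℕ) → (Fin k → ℕ) → Prop) : Prop :=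
  Cp (fun A e => if p A e then 1 else 0)

end Pool.Agent.Lib.MP_711ea9_lc.FH
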