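import Pool.Agent.Lib.MP_711ea9_lc.FH.Tm

set_option autoImplicit false

namespace Pool.Agent.Lib.MP_711ea9_lc.FH

open Finset

/-- TASK J1a. Proof: induction on the term, generalizing `m ρ e`. In the case `sum`: `(ext e i) ∘ (snoc ..) = ext (e ∘ ρ) i` (`funext`, `Fin.lastCases`, `Fin.snoc_castSucc`, `Fin.snoc_last`, unfold `ext`). -/
theorem Tm.eval_ren (A : ℕ → ℕ) {k : ℕ} (t : Tm k) : ∀ {m : ℕ} (ρ : Fin k → Fin m) (e : Fin m → ℕ),
    (t.ren ρ).eval A e = t.eval A (fun i => e (ρ i)) := by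
  induction t with
  | var i => intro m ρ e; rfl
  | const c => intro m ρ e; rfl
  | arr t ih => intro m ρ e; simp only [ren, eval, ih]
  | add s t ihs iht => intro m ρ e; simp only [ren, eval, ihs, iht]
  | sub s t ihs iht => intro m ρ e; simp only [ren, eval, ihs, iht]
  | mul s t ihs iht => intro m ρ e; simp only [ren, eval, ihs, iht]
  | div s t ihs iht => intro m ρ e; simp only [ren, eval, ihs, iht]
  | mod s t ihs iht => intro m ρ e; simp only [ren, eval, ihs, iht]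
  | cond c s t ihc ihs iht => intro m ρ e; simp only [ren, eval, ihc, ihs, iht]
  | sum n b ihn ihb =>
    intro m ρ e
    simp only [ren, eval, ihn, ihb]
    apply Finset.sum_congr rfl
    intro i _
    congr 1
    funext j
    refine Fin.lastCases ?_ (fun j => ?_) j
    · simp [ext]
    · simp [ext]

namespace Cp

variable {k : ℕ} {f g h : (ℕ → ℕ) → (Fin k → ℕ) → ℕ}

/-- TASK J1b (all the following lemmas: give the term and use the definition of `eval`). -/
theorem var (i : Fin k) : Cp (fun _ (e : Fin k → ℕ) => e i) := by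
  exact ⟨.var i, fun _ _ => rfl⟩

theorem const (c : ℕ) : Cp (fun _ (_ : Fin k → ℕ) => c) := by
  exact ⟨.const c, fun _ _ => rfl⟩

theorem arr (hf : Cp f) : Cp (fun A e => A (f A e)) := by
  obtain ⟨t, ht⟩ := hf
  exact ⟨.arr t, fun A e => by simp only [Tm.eval, ht]⟩

theorem add (hf : Cp f) (hg : Cp g) : Cp (fun A e => f A e + g A e) := by
  obtain ⟨s, hs⟩ := hf
  obtain ⟨t, ht⟩ := hg
  exact ⟨.add s t, fun A e => by simp only [Tm.eval, hs, ht]⟩

theorem sub (hf : Cp f) (hg : Cp g) : Cp (fun A e => f A e - g A e) := by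
  obtain ⟨s, hs⟩ := hf
  obtain ⟨t, ht⟩ := hg
  exact ⟨.sub s t, fun A e => by simp only [Tm.eval, hs, ht]⟩

theorem mul (hf : Cp f) (hg : Cp g) : Cp (fun A e => f A e * g A e) := by
  obtain ⟨s, hs⟩ := hf
  obtain ⟨t, ht⟩ := hg
  exact ⟨.mul s t, fun A e => by simp only [Tm.eval, hs, ht]⟩

theorem div (hf : Cp f) (hg : Cp g) : Cp (fun A e => f A e / g A e) := by
  obtain ⟨s, hs⟩ := hf
  obtain ⟨t, ht⟩ := hg
  exact ⟨.div s t, fun A e => by simp only [Tm.eval, hs, ht]⟩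

theorem mod (hf : Cp f) (hg : Cp g) : Cp (fun A e => f A e % g A e) := by
  obtain ⟨s, hs⟩ := hf
  obtain ⟨t, ht⟩ := hg
  exact ⟨.mod s t, fun A e => by simp only [Tm.eval, hs, ht]⟩

/-- Bounded sums. The goal `Cp (fun A e => ∑ i ∈ range (f A e), F A e i)` is reduced to the body
with one more variable. Proof: term `sum`, `Fin.init (ext e i) = e`, `ext e i (Fin.last k) = i`. -/
theorem sum {F : (ℕ → ℕ) → (Fin k → ℕ) → ℕ → ℕ} (hf : Cp f)
    (hF : Cp (fun A (e : Fin (k + 1) → ℕ) => F A (fun i => e i.castSucc) (e (Fin.last k)))) :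
    Cp (fun A e => ∑ i ∈ range (f A e), F A e i) := by
  obtain ⟨s, hs⟩ := hf
  obtain ⟨t, ht⟩ := hF
  refine ⟨.sum s t, fun A e => ?_⟩
  simp only [Tm.eval, hs, ht]
  apply Finset.sum_congr rfl
  intro i _
  simp [ext]

/-- Weakening. Proof: `Tm.eval_ren` with `Fin.castSucc`. -/
theorem weak (hf : Cp f) : Cp (fun A (e : Fin (k + 1) → ℕ) => f A (fun i => e i.castSucc)) := by
  obtain ⟨t, ht⟩ := hf
  exact ⟨t.ren Fin.castSucc, fun A e => by rw [Tm.eval_ren, ht]⟩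

/-- Case distinction. Proof: term `cond` with the term of `p`. -/
theorem ite {p : (ℕ → ℕ) → (Fin k → ℕ) → Prop} [∀ A e, Decidable (p A e)] (hp : Pp p)
    (hf : Cp f) (hg : Cp g) : Cp (fun A e => if p A e then f A e else g A e) := by
  obtain ⟨c, hc⟩ := hp
  obtain ⟨s, hs⟩ := hf
  obtain ⟨t, ht⟩ := hg
  refine ⟨.cond c s t, fun A e => ?_⟩
  simp only [Tm.eval, hs, ht, hc]
  by_cases h1 : p A e
  · simp [h1]
  · simp [h1]

end Cp

namespace Pp

variable {k : ℕ} {f g : (ℕ → ℕ) → (Fin k → ℕ) → ℕ} {p q : (ℕ → ℕ) → (Fin k → ℕ) → Prop}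

/-- `f ≤ g` iff `f - g = 0`: term `cond (f - g) 0 1`. -/
theorem le (hf : Cp f) (hg : Cp g) : Pp (fun A e => f A e ≤ g A e) := by
  obtain ⟨s, hs⟩ := hf
  obtain ⟨t, ht⟩ := hg
  refine ⟨.cond (.sub s t) (.const 0) (.const 1), fun A e => ?_⟩
  simp only [Tm.eval, hs, ht]
  by_cases h1 : f A e ≤ g A e
  · simp [h1, Nat.sub_eq_zero_of_le h1]
  · have h2 : f A e - g A e ≠ 0 := by omega
    simp [h1, h2]

theorem lt (hf : Cp f) (hg : Cp g) : Pp (fun A e => f A e < g A e) := by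
  obtain ⟨s, hs⟩ := hf
  obtain ⟨t, ht⟩ := hg
  refine ⟨.cond (.sub t s) (.const 1) (.const 0), fun A e => ?_⟩
  simp only [Tm.eval, hs, ht]
  by_cases h1 : f A e < g A e
  · have h2 : g A e - f A e ≠ 0 := by omega
    simp [h1, h2]
  · have h2 : g A e - f A e = 0 := by omega
    simp [h1, h2]

theorem eq (hf : Cp f) (hg : Cp g) : Pp (fun A e => f A e = g A e) := by
  obtain ⟨s, hs⟩ := hf
  obtain ⟨t, ht⟩ := hg
  refine ⟨.cond (.add (.sub s t) (.sub t s)) (.const 0) (.const 1), fun A e => ?_⟩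
  simp only [Tm.eval, hs, ht]
  by_cases h1 : f A e = g A e
  · simp [h1]
  · have h2 : f A e - g A e + (g A e - f A e) ≠ 0 := by omega
    rw [if_pos h2, if_neg h1]

theorem ne (hf : Cp f) (hg : Cp g) : Pp (fun A e => f A e ≠ g A e) := by
  obtain ⟨s, hs⟩ := hf
  obtain ⟨t, ht⟩ := hg
  refine ⟨.cond (.add (.sub s t) (.sub t s)) (.const 1) (.const 0), fun A e => ?_⟩
  simp only [Tm.eval, hs, ht]
  by_cases h1 : f A e = g A e
  · simp [h1]
  · have h2 : f A e - g A e + (g A e - f A e) ≠ 0 := by omega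
    rw [if_pos h2, if_pos h1]

theorem and (hp : Pp p) (hq : Pp q) : Pp (fun A e => p A e ∧ q A e) := by
  obtain ⟨s, hs⟩ := hp
  obtain ⟨t, ht⟩ := hq
  refine ⟨.mul s t, fun A e => ?_⟩
  simp only [Tm.eval, hs, ht]
  by_cases h1 : p A e <;> by_cases h2 : q A e <;> simp [h1, h2]

theorem or (hp : Pp p) (hq : Pp q) : Pp (fun A e => p A e ∨ q A e) := by
  obtain ⟨s, hs⟩ := hp
  obtain ⟨t, ht⟩ := hq
  refine ⟨.cond s (.const 1) t, fun A e => ?_⟩
  simp only [Tm.eval, hs, ht]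
  by_cases h1 : p A e <;> by_cases h2 : q A e <;> simp [h1, h2]

theorem not (hp : Pp p) : Pp (fun A e => ¬ p A e) := by
  obtain ⟨s, hs⟩ := hp
  refine ⟨.sub (.const 1) s, fun A e => ?_⟩
  simp only [Tm.eval, hs]
  by_cases h1 : p A e <;> simp [h1]

theorem weak (hp : Pp p) : Pp (fun A (e : Fin (k + 1) → ℕ) => p A (fun i => e i.castSucc)) := by
  exact Cp.weak hp

theorem iff_of {p q : (ℕ → ℕ) → (Fin k → ℕ) → Prop} (hp : Pp p) (h : ∀ A e, p A e ↔ q A e) :
    Pp q := by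
  obtain ⟨s, hs⟩ := hp
  refine ⟨s, fun A e => ?_⟩
  rw [hs]
  beta_reduce
  by_cases h1 : p A e
  · rw [if_pos h1, if_pos ((h A e).1 h1)]
  · rw [if_neg h1, if_neg (fun h2 => h1 ((h A e).2 h2))]

end Pp

/-- A function equal to a computable one is computable. -/
theorem Cp.congr {k : ℕ} {f g : (ℕ → ℕ) → (Fin k → ℕ) → ℕ} (hf : Cp f)
    (h : ∀ A e, f A e = g A e) : Cp g := by
  obtain ⟨s, hs⟩ := hf
  exact ⟨s, fun A e => (hs A e).trans (h A e)⟩

end Pool.Agent.Lib.MP_711ea9_lc.FH
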