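import Pool.Agent.Lib.MP_711ea9_lc.FH.J2

set_option autoImplicit false

namespace Pool.Agent.Lib.MP_711ea9_lc.FH

open Finset Cmd

private lemma j3_ext {k : ℕ} (ρ : Fin k → ℕ) (y : ℕ) (f : ℕ → ℕ) :
    (fun i => f (ext ρ y i)) = ext (fun i => f (ρ i)) (f y) := by
  funext i
  refine Fin.lastCases ?_ (fun j => ?_) i
  · simp [ext]
  · simp [ext]

private lemma j3_ext_lt {k : ℕ} (ρ : Fin k → ℕ) (y z : ℕ) (h : ∀ i, ρ i < z) (hy : y < z) :
    ∀ i, ext ρ y i < z := by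
  intro i
  refine Fin.lastCases ?_ (fun j => ?_) i
  · simpa [ext] using hy
  · simpa [ext] using h j

private def J3Steps {k : ℕ} (t : Tm k) : Prop := ∀ (ρ : Fin k → ℕ) (r : ℕ) (σ : Store),
    (∀ i, ρ i < r) → (t.comp ρ r).steps σ ≤ t.stp (σ.arr 0) (fun i => σ.var (ρ i))

private lemma j3_two {k : ℕ} {s t : Tm k} (hs : J3Steps s) (ht : J3Steps t) (ρ : Fin k → ℕ) (r : ℕ)
    (σ : Store) (hρ : ∀ i, ρ i < r) (d : Cmd) :
    (Cmd.seq (s.comp ρ r) (Cmd.seq (t.comp ρ (r + 1)) d)).steps σ ≤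
      s.stp (σ.arr 0) (fun i => σ.var (ρ i)) + t.stp (σ.arr 0) (fun i => σ.var (ρ i)) +
        d.steps ((t.comp ρ (r + 1)).exec ((s.comp ρ r).exec σ)) := by
  obtain ⟨h1, h2, h3⟩ := comp_spec s ρ r σ hρ
  have e1 : (fun i => ((s.comp ρ r).exec σ).var (ρ i)) = fun i => σ.var (ρ i) := by
    funext i; exact h2 _ (Or.inl (hρ i))
  have g1 := hs ρ r σ hρ
  have g2 := ht ρ (r + 1) ((s.comp ρ r).exec σ) (fun i => (hρ i).trans (by omega))
  rw [h3, e1] at g2
  simp only [Cmd.steps]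
  omega

private lemma j3_mul {k : ℕ} {s t : Tm k} (hs : J3Steps s) (ht : J3Steps t) :
    J3Steps (s.mul t) := by
  intro ρ r σ hρ
  obtain ⟨h1, h2, h3⟩ := comp_spec s ρ r σ hρ
  obtain ⟨g1, g2, g3⟩ := comp_spec t ρ (r + 1) ((s.comp ρ r).exec σ)
    (fun i => (hρ i).trans (by omega))
  simp only [Tm.comp, Tm.stp]
  refine (j3_two hs ht ρ r σ hρ _).trans ?_
  have hN : ((Cmd.set (r + 2) (Expr.const 0)).exec
      ((t.comp ρ (r + 1)).exec ((s.comp ρ r).exec σ))).var r =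
      s.eval (σ.arr 0) (fun i => σ.var (ρ i)) := by
    rw [exec_set]
    dsimp only
    rw [Function.update_of_ne (by omega), g2 r (Or.inl (by omega)), h1]
  simp only [Cmd.steps, Expr.size, Expr.eval, hN, Finset.sum_const, Finset.card_range,
    smul_eq_mul, Nat.size_zero]
  omega

private lemma j3_iter {k : ℕ} (b : Tm (k + 1)) (ρ : Fin k → ℕ) (r : ℕ) (σ : Store)
    (hρ : ∀ i, ρ i < r) (h0 : σ.var (r + 1) = 0) (i : ℕ) :
    (((Cmd.seq (b.comp (ext ρ (r + 1)) (r + 3))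
            (Cmd.seq (Cmd.set (r + 2) (Expr.add (Expr.var (r + 2)) (Expr.var (r + 3))))
              (Cmd.set (r + 1) (Expr.add (Expr.var (r + 1)) (Expr.const 1))))).exec)^[i] σ).var
                (r + 1) = i ∧
    (∀ x, x ≤ r → (((Cmd.seq (b.comp (ext ρ (r + 1)) (r + 3))
            (Cmd.seq (Cmd.set (r + 2) (Expr.add (Expr.var (r + 2)) (Expr.var (r + 3))))
              (Cmd.set (r + 1) (Expr.add (Expr.var (r + 1)) (Expr.const 1))))).exec)^[i] σ).var x =
                σ.var x) ∧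
    (((Cmd.seq (b.comp (ext ρ (r + 1)) (r + 3))
            (Cmd.seq (Cmd.set (r + 2) (Expr.add (Expr.var (r + 2)) (Expr.var (r + 3))))
              (Cmd.set (r + 1) (Expr.add (Expr.var (r + 1)) (Expr.const 1))))).exec)^[i] σ).arr =
                σ.arr := by
  induction i with
  | zero => exact ⟨h0, fun _ _ => rfl, rfl⟩
  | succ i ih =>
    rw [Function.iterate_succ_apply']
    set τ := ((Cmd.seq (b.comp (ext ρ (r + 1)) (r + 3))
            (Cmd.seq (Cmd.set (r + 2) (Expr.add (Expr.var (r + 2)) (Expr.var (r + 3))))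
              (Cmd.set (r + 1) (Expr.add (Expr.var (r + 1)) (Expr.const 1))))).exec)^[i] σ with hτ
    obtain ⟨i1, i2, i3⟩ := ih
    obtain ⟨c1, c2, c3⟩ := comp_spec b (ext ρ (r + 1)) (r + 3) τ
        (j3_ext_lt ρ (r + 1) (r + 3) (fun i => (hρ i).trans (by omega)) (by omega))
    simp only [exec_seq]
    rw [exec_set, exec_set]
    have n1 : r + 1 ≠ r + 2 := by omega
    refine ⟨?_, ?_, ?_⟩
    · dsimp only [Expr.eval]
      rw [Function.update_self, Function.update_of_ne n1, c2 _ (Or.inl (by omega)), i1]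
    · intro x hx
      have n3 : x ≠ r + 1 := by omega
      have n4 : x ≠ r + 2 := by omega
      dsimp only [Expr.eval]
      rw [Function.update_of_ne n3, Function.update_of_ne n4]
      rw [c2 _ (by omega), i2 x hx]
    · dsimp only
      rw [c3, i3]

private lemma j3_sum {k : ℕ} {n : Tm k} {b : Tm (k + 1)} (hn : J3Steps n) (hb : J3Steps b) :
    J3Steps (n.sum b) := by
  intro ρ r σ hρ
  obtain ⟨h1, h2, h3⟩ := comp_spec n ρ r σ hρ
  have h4 := hn ρ r σ hρ
  simp only [Tm.comp, Tm.stp]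
  set A := σ.arr 0 with hA
  set e : Fin k → ℕ := (fun i => σ.var (ρ i)) with he
  set σ3 := (Cmd.set (r + 2) (Expr.const 0)).exec ((Cmd.set (r + 1) (Expr.const 0)).exec
    ((n.comp ρ r).exec σ)) with hσ3
  have n1 : r + 1 ≠ r + 2 := by omega
  have a1 : σ3.var (r + 1) = 0 := by
    rw [hσ3, exec_set, exec_set]
    dsimp only [Expr.eval]
    rw [Function.update_of_ne n1, Function.update_self]
  have a2 : ∀ x, x ≤ r → σ3.var x = ((n.comp ρ r).exec σ).var x := by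
    intro x hx
    have n3 : x ≠ r + 1 := by omega
    have n4 : x ≠ r + 2 := by omega
    rw [hσ3, exec_set, exec_set]
    dsimp only [Expr.eval]
    rw [Function.update_of_ne n4, Function.update_of_ne n3]
  have a3 : σ3.arr = σ.arr := by rw [← h3]; rfl
  have hN : σ3.var r = n.eval A e := by rw [a2 r le_rfl, h1]
  have hbody : ∀ i, (Cmd.seq (b.comp (ext ρ (r + 1)) (r + 3))
            (Cmd.seq (Cmd.set (r + 2) (Expr.add (Expr.var (r + 2)) (Expr.var (r + 3))))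
              (Cmd.set (r + 1) (Expr.add (Expr.var (r + 1)) (Expr.const 1))))).steps
              (((Cmd.seq (b.comp (ext ρ (r + 1)) (r + 3))
            (Cmd.seq (Cmd.set (r + 2) (Expr.add (Expr.var (r + 2)) (Expr.var (r + 3))))
              (Cmd.set (r + 1) (Expr.add (Expr.var (r + 1)) (Expr.const 1))))).exec)^[i] σ3) ≤
            b.stp A (ext e i) + 10 := by
    intro i
    obtain ⟨i1, i2, i3⟩ := j3_iter b ρ r σ3 hρ a1 i
    set τ := ((Cmd.seq (b.comp (ext ρ (r + 1)) (r + 3))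
            (Cmd.seq (Cmd.set (r + 2) (Expr.add (Expr.var (r + 2)) (Expr.var (r + 3))))
              (Cmd.set (r + 1) (Expr.add (Expr.var (r + 1)) (Expr.const 1))))).exec)^[i] σ3 with hτ
    have c1 := hb (ext ρ (r + 1)) (r + 3) τ
        (j3_ext_lt ρ (r + 1) (r + 3) (fun i => (hρ i).trans (by omega)) (by omega))
    have hev : (fun i => τ.var (ext ρ (r + 1) i)) = ext e i := by
      rw [j3_ext, i1]
      congr 1
      funext j
      rw [he]
      have hj := hρ j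
      rw [i2 _ hj.le, a2 _ hj.le, h2 _ (Or.inl hj)]
    rw [hev, i3, a3, ← hA] at c1
    simp only [Cmd.steps, Expr.size, Nat.size_one]
    omega
  have hsum := Finset.sum_le_sum (s := range (n.eval A e))
    (fun i _ => Nat.add_le_add_left (hbody i) 1)
  have hsum2 : ∑ i ∈ range (n.eval A e), (1 + (b.stp A (ext e i) + 10)) =
      ∑ i ∈ range (n.eval A e), (11 + b.stp A (ext e i)) :=
    Finset.sum_congr rfl (fun i _ => by omega)
  rw [hsum2] at hsum
  show (n.comp ρ r).steps σ + ((1 + (1 + Nat.size 0)) + ((1 + (1 + Nat.size 0)) +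
    ((1 + 1 + ∑ i ∈ range (σ3.var r), (1 + (Cmd.seq (b.comp (ext ρ (r + 1)) (r + 3))
            (Cmd.seq (Cmd.set (r + 2) (Expr.add (Expr.var (r + 2)) (Expr.var (r + 3))))
              (Cmd.set (r + 1) (Expr.add (Expr.var (r + 1)) (Expr.const 1))))).steps
              (((Cmd.seq (b.comp (ext ρ (r + 1)) (r + 3))
            (Cmd.seq (Cmd.set (r + 2) (Expr.add (Expr.var (r + 2)) (Expr.var (r + 3))))
              (Cmd.set (r + 1) (Expr.add (Expr.var (r + 1)) (Expr.const 1))))).exec)^[i] σ3))) +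
              (1 + 1)))) ≤ _
  rw [hN, Nat.size_zero]
  omega

private def J3Dom {k : ℕ} (f : (ℕ → ℕ) → (Fin k → ℕ) → ℕ) : Prop :=
  ∃ c : ℕ, ∀ (V : ℕ) (A : ℕ → ℕ) (e : Fin k → ℕ), (∀ i, A i ≤ V) → (∀ i, e i ≤ V) →
    f A e ≤ (V + 2) ^ c

private lemma j3_pow {V a b : ℕ} (h : a ≤ b) : (V + 2) ^ a ≤ (V + 2) ^ b :=
  Nat.pow_le_pow_right (by omega) h

private lemma J3Dom.mono {k : ℕ} {f g : (ℕ → ℕ) → (Fin k → ℕ) → ℕ} (hg : J3Dom g)
    (h : ∀ A e, f A e ≤ g A e) : J3Dom f := by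
  obtain ⟨c, hc⟩ := hg
  exact ⟨c, fun V A e h1 h2 => (h A e).trans (hc V A e h1 h2)⟩

private lemma J3Dom.const {k : ℕ} (n : ℕ) : J3Dom (k := k) (fun _ _ => n) := by
  refine ⟨n, fun V A e _ _ => ?_⟩
  calc n ≤ 2 ^ n := Nat.lt_two_pow_self.le
    _ ≤ (V + 2) ^ n := Nat.pow_le_pow_left (by omega) n

private lemma j3_add {V a b : ℕ} : (V + 2) ^ a + (V + 2) ^ b ≤ (V + 2) ^ (a + b + 1) := by
  have h1 : (V + 2) ^ a ≤ (V + 2) ^ (a + b) := j3_pow (by omega)
  have h2 : (V + 2) ^ b ≤ (V + 2) ^ (a + b) := j3_pow (by omega)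
  rw [pow_succ]
  nlinarith [Nat.zero_le ((V + 2) ^ (a + b)), Nat.zero_le (V * (V + 2) ^ (a + b))]

private lemma J3Dom.add {k : ℕ} {f g : (ℕ → ℕ) → (Fin k → ℕ) → ℕ} (hf : J3Dom f) (hg : J3Dom g) :
    J3Dom (fun A e => f A e + g A e) := by
  obtain ⟨a, ha⟩ := hf
  obtain ⟨b, hb⟩ := hg
  exact ⟨a + b + 1, fun V A e h1 h2 =>
    (Nat.add_le_add (ha V A e h1 h2) (hb V A e h1 h2)).trans j3_add⟩

private lemma J3Dom.mul {k : ℕ} {f g : (ℕ → ℕ) → (Fin k → ℕ) → ℕ} (hf : J3Dom f) (hg : J3Dom g) :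
    J3Dom (fun A e => f A e * g A e) := by
  obtain ⟨a, ha⟩ := hf
  obtain ⟨b, hb⟩ := hg
  refine ⟨a + b, fun V A e h1 h2 => ?_⟩
  rw [pow_add]
  exact Nat.mul_le_mul (ha V A e h1 h2) (hb V A e h1 h2)

private lemma J3Dom.sum {k : ℕ} {f : (ℕ → ℕ) → (Fin k → ℕ) → ℕ}
    {g : (ℕ → ℕ) → (Fin (k + 1) → ℕ) → ℕ} (hf : J3Dom f) (hg : J3Dom g) :
    J3Dom (fun A e => ∑ i ∈ range (f A e), g A (ext e i)) := by
  obtain ⟨a, ha⟩ := hf
  obtain ⟨b, hb⟩ := hg
  refine ⟨a + (a + 2) * b, fun V A e h1 h2 => ?_⟩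
  have hn := ha V A e h1 h2
  have hV : (V + 2) ^ a + V + 2 ≤ (V + 2) ^ (a + 2) := by
    have := @j3_add V a 1
    rw [pow_one] at this
    exact this
  have key : ∀ i ∈ range (f A e), g A (ext e i) ≤ (V + 2) ^ ((a + 2) * b) := by
    intro i hi
    rw [Finset.mem_range] at hi
    have h3 := hb ((V + 2) ^ a + V) A (ext e i) (fun j => (h1 j).trans (by omega)) (by
      intro j
      refine Fin.lastCases ?_ (fun l => ?_) j
      · simp only [ext, Fin.snoc_last]; omega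
      · simp only [ext, Fin.snoc_castSucc]
        have := h2 l
        omega)
    refine h3.trans ?_
    rw [pow_mul]
    exact Nat.pow_le_pow_left hV b
  calc ∑ i ∈ range (f A e), g A (ext e i) ≤ ∑ _i ∈ range (f A e), (V + 2) ^ ((a + 2) * b) :=
        Finset.sum_le_sum key
    _ = f A e * (V + 2) ^ ((a + 2) * b) := by
        rw [Finset.sum_const, Finset.card_range, smul_eq_mul]
    _ ≤ (V + 2) ^ a * (V + 2) ^ ((a + 2) * b) := Nat.mul_le_mul_right _ hn
    _ = _ := by rw [← pow_add]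

private lemma j3_dom {k : ℕ} (t : Tm k) :
    J3Dom (fun A e => t.eval A e) ∧ J3Dom (fun A e => t.stp A e) := by
  induction t with
  | var i =>
    refine ⟨⟨1, fun V A e _ h2 => ?_⟩, ?_⟩
    · simp only [Tm.eval, pow_one]
      exact (h2 i).trans (by omega)
    · exact J3Dom.const 2
  | const c => exact ⟨J3Dom.const c, J3Dom.const (2 + Nat.size c)⟩
  | arr t ih =>
    refine ⟨⟨1, fun V A e h1 _ => ?_⟩, ?_⟩
    · simp only [Tm.eval, pow_one]
      exact (h1 _).trans (by omega)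
    · exact J3Dom.add ih.2 (J3Dom.const 3)
  | add s t ihs iht =>
    exact ⟨J3Dom.add ihs.1 iht.1, J3Dom.add (J3Dom.add ihs.2 iht.2) (J3Dom.const 4)⟩
  | sub s t ihs iht =>
    exact ⟨J3Dom.mono ihs.1 (fun A e => Nat.sub_le _ _),
      J3Dom.add (J3Dom.add ihs.2 iht.2) (J3Dom.const 4)⟩
  | mul s t ihs iht =>
    exact ⟨J3Dom.mul ihs.1 iht.1,
      J3Dom.add (J3Dom.add (J3Dom.add ihs.2 iht.2) (J3Dom.const 10))
        (J3Dom.mul (J3Dom.const 5) ihs.1)⟩
  | div s t ihs iht =>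
    exact ⟨J3Dom.mono ihs.1 (fun A e => Nat.div_le_self _ _),
      J3Dom.add (J3Dom.add ihs.2 iht.2) (J3Dom.const 4)⟩
  | mod s t ihs iht =>
    exact ⟨J3Dom.mono ihs.1 (fun A e => Nat.mod_le _ _),
      J3Dom.add (J3Dom.add ihs.2 iht.2) (J3Dom.const 4)⟩
  | cond c s t ihc ihs iht =>
    refine ⟨J3Dom.mono (J3Dom.add ihs.1 iht.1) (fun A e => ?_),
      J3Dom.add (J3Dom.add (J3Dom.add ihc.2 ihs.2) iht.2) (J3Dom.const 2)⟩
    simp only [Tm.eval]
    split_ifs <;> omega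
  | sum n b ihn ihb =>
    exact ⟨J3Dom.sum ihn.1 ihb.1,
      J3Dom.add (J3Dom.add ihn.2 (J3Dom.const 10))
        (J3Dom.sum ihn.1 (J3Dom.add (J3Dom.const 11) ihb.2))⟩

/-- TASK J3a. The number of steps.
Proof. Induction on the term with `comp_spec`; unfold `Cmd.steps`, `Expr.size`, `Tm.stp`. `add`: steps = steps s + (steps t + (1 + 3)). `mul`: the loop costs `1 + 1 + ∑ i ∈ range (value of s), (1 + 4) `. `cond`: one branch only, the other one is `≥ 0`. `sum`: the loop `1 + 1 + ∑ i ∈ range (eval n), (1 + steps of the body at iterate i)`; the body costs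
`b.stp A (ext e i) + 4 + 4 +` at most; at iterate `i` the store has `var (r+1) = i` and the registers `< r` as at the start, arrays unchanged (iterate invariant by induction on `i`, as in J2; `Nat.size 1 = 1`). -/
theorem comp_steps {k : ℕ} (t : Tm k) : ∀ (ρ : Fin k → ℕ) (r : ℕ) (σ : Store), (∀ i, ρ i < r) →
    (t.comp ρ r).steps σ ≤ t.stp (σ.arr 0) (fun i => σ.var (ρ i)) := by
  change J3Steps t
  induction t with
  | var i =>
    intro ρ r σ hρ
    simp only [Tm.comp, Tm.stp, Cmd.steps, Expr.size]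
    omega
  | const c =>
    intro ρ r σ hρ
    simp only [Tm.comp, Tm.stp, Cmd.steps, Expr.size]
    omega
  | arr t ih =>
    intro ρ r σ hρ
    have := ih ρ r σ hρ
    simp only [Tm.comp, Tm.stp, Cmd.steps, Expr.size]
    omega
  | add s t ihs iht =>
    intro ρ r σ hρ
    exact j3_two ihs iht ρ r σ hρ _
  | sub s t ihs iht =>
    intro ρ r σ hρ
    exact j3_two ihs iht ρ r σ hρ _
  | mul s t ihs iht => exact j3_mul ihs iht
  | div s t ihs iht =>
    intro ρ r σ hρ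
    exact j3_two ihs iht ρ r σ hρ _
  | mod s t ihs iht =>
    intro ρ r σ hρ
    exact j3_two ihs iht ρ r σ hρ _
  | cond c s t ihc ihs iht =>
    intro ρ r σ hρ
    obtain ⟨h1, h2, h3⟩ := comp_spec c ρ r σ hρ
    have e1 : (fun i => ((c.comp ρ r).exec σ).var (ρ i)) = fun i => σ.var (ρ i) := by
      funext i; exact h2 _ (Or.inl (hρ i))
    have g0 := ihc ρ r σ hρ
    have g1 := ihs ρ r ((c.comp ρ r).exec σ) hρ
    have g2 := iht ρ r ((c.comp ρ r).exec σ) hρ
    rw [h3, e1] at g1 g2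
    simp only [Tm.comp, Tm.stp, Cmd.steps, Expr.size]
    split_ifs <;> omega
  | sum n b ihn ihb => exact j3_sum ihn ihb

/-- TASK J3b. Values and steps of terms are polynomially bounded.
Proof. Induction on the term; `c = ` sum of the exponents plus a constant. For `V + 2 ≥ 2`: `(V+2)^a + (V+2)^b + const ≤ (V+2)^(a+b+const')`, `(V+2)^a * (V+2)^b = (V+2)^(a+b)`. `const c`: `c ≤ 2 ^ c ≤ (V+2)^c`, `Nat.size c ≤ c + 1`. `arr`: `A i ≤ V`. `sum n b`: with `n ≤ (V+2)^a` and the induction hypothesis for `b` with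
`V' = (V+2)^a + V` (the new variable is `< (V+2)^a`; `ext`: `Fin.lastCases`): `V' + 2 ≤ (V+2)^(a+1)`·..., so `b ≤ (V+2)^((a+2) b')`, times the number of terms `(V+2)^a` (`Finset.sum_le_card_nsmul`). -/
theorem Tm.poly {k : ℕ} (t : Tm k) : ∃ c : ℕ, ∀ (V : ℕ) (A : ℕ → ℕ) (e : Fin k → ℕ),
    (∀ i, A i ≤ V) → (∀ i, e i ≤ V) →
    t.eval A e ≤ (V + 2) ^ c ∧ t.stp A e ≤ (V + 2) ^ c := by
  obtain ⟨⟨a, ha⟩, ⟨b, hb⟩⟩ := j3_dom t
  exact ⟨a + b, fun V A e h1 h2 => ⟨(ha V A e h1 h2).trans (j3_pow (by omega)),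
    (hb V A e h1 h2).trans (j3_pow (by omega))⟩⟩

end Pool.Agent.Lib.MP_711ea9_lc.FH
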