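import Pool.Agent.Lib.MP_711ea9_lc.FH.J9
import Pool.Agent.Lib.MP_711ea9_lc.FH.J3

set_option autoImplicit false

namespace Pool.Agent.Lib.MP_711ea9_lc.FH

open Finset Cmd

/-- TASK J10a. The number of steps of the program. Proof. Unfold `prog`, `prHead`, `prFill`, `prCopy`, `prTail`, `Cmd.steps`, `Expr.size`. The three terms in the head: `comp_steps` (register 0 holds `M`, array 0 is `A`: `head_spec` or `comp_spec`). First loop: pass `i` costs `stp + 3 + 4 + 1 + ...`: `comp_steps` at the iterate `i` (`iter_spec`: environment `![M, n, i]`, array 0 is `A`;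
the loop starts after `set 4 0`, where `PSt` still holds). Second loop: a constant for each pass. `clr w`: at most `3 w + 1` steps (`Nat.size 0 = 0`), induction. The constants in the statement are generous. -/
theorem prog_steps {tn tk tq : Tm 1} {tb : Tm 3} {M n k q : ℕ} {A : ℕ → ℕ} {σ : Store}
    (h0 : σ.var 0 = M) (h1 : ∀ x, 1 ≤ x → σ.var x = 0) (ha : σ.arr 0 = A)
    (ha' : ∀ a, 1 ≤ a → σ.arr a = fun _ => 0) (hn : tn.eval A (fun _ => M) = n)
    (hk : tk.eval A (fun _ => M) = k) (hq : tq.eval A (fun _ => M) = q) :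
    (prog tn tk tq tb).steps σ ≤ tn.stp A (fun _ => M) + tk.stp A (fun _ => M) +
      tq.stp A (fun _ => M) + (∑ i ∈ range q, (20 + tb.stp A ![M, n, i])) + 20 * q +
      4 * (tn.width + tk.width + tq.width + tb.width + 5) + 100 := by
  set w := tn.width + tk.width + tq.width + tb.width + 5 with hw
  -- the head
  have e1 := comp_spec tn (fun _ => 0) 3 σ (fun _ => by norm_num)
  have s1 := comp_steps tn (fun _ => 0) 3 σ (fun _ => by norm_num)
  rw [ha, show (fun i : Fin 1 => σ.var ((fun _ => 0) i)) = (fun _ => M) from funext (fun _ => h0)] at s1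
  set σ1 := (Cmd.set 1 (Expr.var 3)).exec ((tn.comp (fun _ => 0) 3).exec σ) with hσ1
  have v1 : σ1.var 0 = M := by
    rw [hσ1, Cmd.exec_set]
    simp only [Function.update]
    rw [dif_neg (by norm_num), e1.2.1 0 (Or.inl (by norm_num)), h0]
  have a1 : σ1.arr 0 = A := by
    rw [hσ1, Cmd.exec_set]
    simp only
    rw [e1.2.2, ha]
  have e2 := comp_spec tk (fun _ => 0) 3 σ1 (fun _ => by norm_num)
  have s2 := comp_steps tk (fun _ => 0) 3 σ1 (fun _ => by norm_num)
  rw [a1, show (fun i : Fin 1 => σ1.var ((fun _ => 0) i)) = (fun _ => M) from funext (fun _ => v1)] at s2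
  set σ2 := (Cmd.set 2 (Expr.var 3)).exec ((tk.comp (fun _ => 0) 3).exec σ1) with hσ2
  have v2 : σ2.var 0 = M := by
    rw [hσ2, Cmd.exec_set]
    simp only [Function.update]
    rw [dif_neg (by norm_num), e2.2.1 0 (Or.inl (by norm_num)), v1]
  have a2 : σ2.arr 0 = A := by
    rw [hσ2, Cmd.exec_set]
    simp only
    rw [e2.2.2, a1]
  have s3 := comp_steps tq (fun _ => 0) 3 σ2 (fun _ => by norm_num)
  rw [a2, show (fun i : Fin 1 => σ2.var ((fun _ => 0) i)) = (fun _ => M) from funext (fun _ => v2)] at s3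
  have hhead : (prHead tn tk tq).steps σ ≤ tn.stp A (fun _ => M) + tk.stp A (fun _ => M) +
      tq.stp A (fun _ => M) + 4 := by
    have hh : (prHead tn tk tq).steps σ = (tn.comp (fun _ => 0) 3).steps σ + ((1 + 1) +
      ((tk.comp (fun _ => 0) 3).steps σ1 + ((1 + 1) + (tq.comp (fun _ => 0) 3).steps σ2))) := rfl
    rw [hh]
    omega
  -- the first loop
  have P1 : PSt ((prHead tn tk tq).exec σ) M n k q w A (fun _ => 0) := by
    have := head_spec (tn := tn) (tk := tk) (tq := tq) (w := w) h0 h1 ha ha' (by omega)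
    rw [hn, hk, hq] at this
    exact this
  set τ1 := (prHead tn tk tq).exec σ with hτ1
  have hfill : (prFill tb).steps τ1 ≤ 4 + ∑ i ∈ range q, (20 + tb.stp A ![M, n, i]) := by
    set τ := (Cmd.set 4 (Expr.const 0)).exec τ1 with hτ
    have hh : (prFill tb).steps τ1 = (1 + (1 + Nat.size 0)) + (1 + 1 +
      ∑ i ∈ Finset.range (τ.var 3), (1 + (prBody tb).steps (((prBody tb).exec)^[i] τ))) := rfl
    have P2 : PSt τ M n k q w A (fun _ => 0) := by
      rw [hτ, Cmd.exec_set]
      refine ⟨?_, ?_, ?_, ?_, ?_, P1.a0, P1.a1, P1.a2⟩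
      · simp only [Function.update]; rw [dif_neg (by norm_num)]; exact P1.v0
      · simp only [Function.update]; rw [dif_neg (by norm_num)]; exact P1.v1
      · simp only [Function.update]; rw [dif_neg (by norm_num)]; exact P1.v2
      · simp only [Function.update]; rw [dif_neg (by norm_num)]; exact P1.v3
      · intro x hx
        simp only [Function.update]; rw [dif_neg (by omega)]; exact P1.vw x hx
    have h4 : τ.var 4 = 0 := by
      rw [hτ, Cmd.exec_set]
      simp only [Function.update]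
      simp [Expr.eval]
    rw [hh, P2.v3]
    have hb : ∀ i ∈ Finset.range q, 1 + (prBody tb).steps (((prBody tb).exec)^[i] τ) ≤
        20 + tb.stp A ![M, n, i] := by
      intro i _
      obtain ⟨Q, Q4⟩ := iter_spec (tb := tb) P2 (by omega) h4 i
      set υ := ((prBody tb).exec)^[i] τ with hυ
      have s4 := comp_steps tb ![0, 1, 4] 5 υ (by
        intro j; fin_cases j <;> simp)
      rw [Q.a0, show (fun j : Fin 3 => υ.var ((![0, 1, 4] : Fin 3 → ℕ) j)) = ![M, n, i] from by
        funext j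
        fin_cases j
        · exact Q.v0
        · exact Q.v1
        · exact Q4] at s4
      have hs : (prBody tb).steps υ = (tb.comp ![0, 1, 4] 5).steps υ + ((1 + 1 + 1) +
        (1 + (1 + (1 + Nat.size 1) + 1))) := rfl
      rw [hs]
      have : Nat.size 1 = 1 := Nat.size_one
      omega
    have := Finset.sum_le_sum hb
    have hz : Nat.size 0 = 0 := Nat.size_zero
    omega
  -- the second loop
  have P3 : PSt ((prFill tb).exec τ1) M n k q w A
      (fun j => if j < q then tb.eval A ![M, n, j] else 0) := fill_spec P1 (by omega)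
  set τ2 := (prFill tb).exec τ1 with hτ2
  have hcopy : prCopy.steps τ2 ≤ 4 + 20 * q := by
    set τ := (Cmd.set 4 (Expr.const 0)).exec τ2 with hτ
    have hh : prCopy.steps τ2 = (1 + (1 + Nat.size 0)) + (1 + 1 +
      ∑ i ∈ Finset.range (τ.var 3), (1 + cpBody.steps ((cpBody.exec)^[i] τ))) := rfl
    have v3 : τ.var 3 = q := by
      rw [hτ, Cmd.exec_set]
      simp only [Function.update]
      rw [dif_neg (by norm_num)]
      exact P3.v3
    rw [hh, v3]
    have hb : ∀ i ∈ Finset.range q, 1 + cpBody.steps ((cpBody.exec)^[i] τ) ≤ 20 := by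
      intro i _
      have hs : cpBody.steps ((cpBody.exec)^[i] τ) = (1 + 1 + (1 + 1)) +
        ((1 + 1 + (1 + Nat.size 0)) + (1 + (1 + (1 + Nat.size 1) + 1))) := rfl
      rw [hs, Nat.size_one, Nat.size_zero]
      norm_num
    have h5 := Finset.sum_le_sum hb
    rw [Finset.sum_const, Finset.card_range, smul_eq_mul] at h5
    have hz : Nat.size 0 = 0 := Nat.size_zero
    omega
  -- the end
  have hclr : ∀ (m : ℕ) (ρ : Store), (clr m).steps ρ = 2 * m + 1 := by
    intro m
    induction m with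
    | zero => intro ρ; rfl
    | succ m ih =>
      intro ρ
      have hs : (clr (m + 1)).steps ρ = (clr m).steps ρ + (1 + (1 + Nat.size 0)) := rfl
      rw [hs, ih, Nat.size_zero]
      ring
  have htail : ∀ ρ : Store, (prTail w).steps ρ = 2 * w + 5 := by
    intro ρ
    have hs : (prTail w).steps ρ = (1 + 1) + ((1 + (1 + Nat.size 0)) +
      (clr w).steps ((Cmd.set 1 (Expr.const 0)).exec ((Cmd.set 0 (Expr.var 1)).exec ρ))) := rfl
    rw [hs, hclr, Nat.size_zero]
    ring
  have hprog : (prog tn tk tq tb).steps σ = (prHead tn tk tq).steps σ +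
    ((prFill tb).steps τ1 + (prCopy.steps τ2 + (prTail w).steps (prCopy.exec τ2))) := rfl
  rw [hprog, htail]
  omega

/-- TASK J10b. Polynomial bound for the steps. Proof: `Tm.poly` for the four terms (with exponents `c1, ..., c4`); with `V + 2 ≥ 2` every summand is at most `(V + 2) ^ (something)`, the number of passes `q ≤ V`; constants `c ≤ 2 ^ c ≤ (V + 2) ^ c`. -/
theorem prog_poly (tn tk tq : Tm 1) (tb : Tm 3) : ∃ c : ℕ, ∀ (V M n k q : ℕ) (A : ℕ → ℕ)
    (σ : Store), (∀ i, A i ≤ V) → M ≤ V → n ≤ V → k ≤ V → q ≤ V →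
    σ.var 0 = M → (∀ x, 1 ≤ x → σ.var x = 0) → σ.arr 0 = A →
    (∀ a, 1 ≤ a → σ.arr a = fun _ => 0) → tn.eval A (fun _ => M) = n →
    tk.eval A (fun _ => M) = k → tq.eval A (fun _ => M) = q →
    (prog tn tk tq tb).steps σ ≤ (V + 2) ^ c := by
  obtain ⟨c1, hc1⟩ := Tm.poly tn
  obtain ⟨c2, hc2⟩ := Tm.poly tk
  obtain ⟨c3, hc3⟩ := Tm.poly tq
  obtain ⟨c4, hc4⟩ := Tm.poly tb
  obtain ⟨W, hW⟩ : ∃ W, W = 4 * (tn.width + tk.width + tq.width + tb.width + 5) + 100 :=
    ⟨_, rfl⟩
  refine ⟨c1 + c2 + c3 + c4 + W + 7, ?_⟩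
  intro V M n k q A σ hA hM hn hk hq h0 h1 ha ha' en ek eq
  have hs := prog_steps (tb := tb) h0 h1 ha ha' en ek eq
  have t1 := (hc1 V A (fun _ => M) hA (fun _ => hM)).2
  have t2 := (hc2 V A (fun _ => M) hA (fun _ => hM)).2
  have t3 := (hc3 V A (fun _ => M) hA (fun _ => hM)).2
  have t4 : ∀ i ∈ range q, 20 + tb.stp A ![M, n, i] ≤ 20 + (V + 2) ^ c4 := by
    intro i hi
    have hi' := Finset.mem_range.1 hi
    have := (hc4 V A ![M, n, i] hA (by
      intro j
      fin_cases j
      · exact hM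
      · exact hn
      · show i ≤ V
        omega)).2
    omega
  have t5 := Finset.sum_le_sum t4
  rw [Finset.sum_const, Finset.card_range, smul_eq_mul] at t5
  have t6 : q * (20 + (V + 2) ^ c4) ≤ (V + 2) * (20 + (V + 2) ^ c4) :=
    Nat.mul_le_mul_right _ (by omega)
  obtain ⟨X, hX⟩ : ∃ X, X = V + 2 := ⟨_, rfl⟩
  rw [← hX] at t1 t2 t3 t5 t6
  rw [← hX]
  have hX2 : 2 ≤ X := by omega
  have pw : ∀ a, a ≤ X ^ a := fun a =>
    (Nat.lt_two_pow_self).le.trans (Nat.pow_le_pow_left hX2 a)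
  have one : ∀ a, 1 ≤ X ^ a := fun a => Nat.one_le_pow _ _ (by omega)
  -- everything is at most `X ^ (c1+c2+c3+c4+W)` times a small power
  have mono : ∀ a b, a ≤ b → X ^ a ≤ X ^ b := fun a b h => Nat.pow_le_pow_right (by omega) h
  obtain ⟨S, hS⟩ : ∃ S, S = c1 + c2 + c3 + c4 + W := ⟨_, rfl⟩
  rw [← hS]
  have u1 := t1.trans (mono c1 S (by omega))
  have u2 := t2.trans (mono c2 S (by omega))
  have u3 := t3.trans (mono c3 S (by omega))
  have u4 : X * (20 + X ^ c4) ≤ X ^ S * (21 * X) := by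
    have h20 : 20 + X ^ c4 ≤ 21 * X ^ S := by
      have := mono c4 S (by omega)
      have := one S
      omega
    calc X * (20 + X ^ c4) ≤ X * (21 * X ^ S) := Nat.mul_le_mul_left _ h20
      _ = X ^ S * (21 * X) := by ring
  have u5 : W ≤ X ^ S := (pw W).trans (mono W S (by omega))
  have u6 : 20 * q ≤ X ^ S * (20 * X) := by
    have h1' := one S
    calc 20 * q ≤ 20 * X := by omega
      _ = 1 * (20 * X) := by ring
      _ ≤ X ^ S * (20 * X) := Nat.mul_le_mul_right _ h1'
  have hsum : (prog tn tk tq tb).steps σ ≤ X ^ S * (41 * X + 4) := by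
    have e : X ^ S * (41 * X + 4) = X ^ S + X ^ S + X ^ S + X ^ S * (21 * X) +
      X ^ S * (20 * X) + X ^ S := by ring
    rw [e]
    omega
  have hlast : 41 * X + 4 ≤ X ^ 7 := by
    have h6 : (64 : ℕ) ≤ X ^ 6 := by
      calc (64 : ℕ) = 2 ^ 6 := by norm_num
        _ ≤ X ^ 6 := Nat.pow_le_pow_left hX2 6
    calc 41 * X + 4 ≤ 64 * X := by omega
      _ ≤ X ^ 6 * X := Nat.mul_le_mul_right _ h6
      _ = X ^ 7 := by ring
  calc (prog tn tk tq tb).steps σ ≤ X ^ S * (41 * X + 4) := hsum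
    _ ≤ X ^ S * X ^ 7 := Nat.mul_le_mul_left _ hlast
    _ = X ^ (S + 7) := (pow_add X S 7).symm

/-- TASK J10c. Polynomial bound for the cost. Proof: `Cmd.bound` with `B = V`: all entries of `σ` are `≤ V < 2 ^ V` (`Nat.lt_two_pow_self`; registers `M`, `0`; arrays `A`, `0`), so `cost ≤ steps * (V + steps + 1)`, and `steps ≤ (V + 2) ^ c`, so `cost ≤ (V+2)^c * (2 (V + 2) ^ (c + 1)) ≤ (V + 2) ^ (2 c + 2)`. -/
theorem prog_cost (tn tk tq : Tm 1) (tb : Tm 3) : ∃ c : ℕ, ∀ (V M n k q : ℕ) (A : ℕ → ℕ)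
    (σ : Store), (∀ i, A i ≤ V) → M ≤ V → n ≤ V → k ≤ V → q ≤ V →
    σ.var 0 = M → (∀ x, 1 ≤ x → σ.var x = 0) → σ.arr 0 = A →
    (∀ a, 1 ≤ a → σ.arr a = fun _ => 0) → tn.eval A (fun _ => M) = n →
    tk.eval A (fun _ => M) = k → tq.eval A (fun _ => M) = q →
    (prog tn tk tq tb).cost σ ≤ (V + 2) ^ c := by
  obtain ⟨c, hc⟩ := prog_poly tn tk tq tb
  refine ⟨2 * c + 2, ?_⟩
  intro V M n k q A σ hA hM hn hk hq h0 h1 ha ha' en ek eq
  have hs := hc V M n k q A σ hA hM hn hk hq h0 h1 ha ha' en ek eq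
  have hB : Bdd σ V := by
    have hpos : 0 < 2 ^ V := Nat.two_pow_pos V
    constructor
    · intro x
      rcases Nat.eq_zero_or_pos x with rfl | hx
      · rw [h0]
        exact hM.trans_lt Nat.lt_two_pow_self
      · rw [h1 x hx]
        exact hpos
    · intro a i
      rcases Nat.eq_zero_or_pos a with rfl | hx
      · rw [ha]
        exact (hA i).trans_lt Nat.lt_two_pow_self
      · rw [ha' a hx]
        exact hpos
  have hb := (Cmd.bound (prog tn tk tq tb) hB).2
  obtain ⟨X, hX⟩ : ∃ X, X = V + 2 := ⟨_, rfl⟩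
  rw [← hX] at hs
  rw [← hX]
  have hX2 : 2 ≤ X := by omega
  have one : 1 ≤ X ^ c := Nat.one_le_pow _ _ (by omega)
  have h3 : V + (prog tn tk tq tb).steps σ + 1 ≤ X ^ c * (X * X) := by
    have h4 : V + (prog tn tk tq tb).steps σ + 1 ≤ X + X ^ c := by omega
    have h5 : X ≤ X ^ c * X := Nat.le_mul_of_pos_left _ (by omega)
    have h6 : X ^ c ≤ X ^ c * X := Nat.le_mul_of_pos_right _ (by omega)
    have h7 : X ^ c * X * 2 ≤ X ^ c * X * X := Nat.mul_le_mul_left _ hX2
    calc V + (prog tn tk tq tb).steps σ + 1 ≤ X ^ c * X * 2 := by omega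
      _ ≤ X ^ c * X * X := h7
      _ = X ^ c * (X * X) := by ring
  calc (prog tn tk tq tb).cost σ ≤
      (prog tn tk tq tb).steps σ * (V + (prog tn tk tq tb).steps σ + 1) := hb
    _ ≤ X ^ c * (X ^ c * (X * X)) := Nat.mul_le_mul hs h3
    _ = X ^ (2 * c + 2) := by ring

end Pool.Agent.Lib.MP_711ea9_lc.FH
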