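import Pool.Agent.Lib.MP_711ea9_lc.FH.Defs

set_option autoImplicit false

/-!
# Adjacency
-/

namespace Pool.Agent.Lib.MP_711ea9_lc.FH

open Finset

namespace Net

variable {N : Net}

lemma E_ne {u v : Vtx} (h : N.E u v) : u ≠ v := by
  rintro rfl
  cases u <;> simp [E] at h <;> omega

lemma adj_iff {u v : Vtx} : N.G.Adj u v ↔ N.E u v ∨ N.E v u := by
  constructor
  · intro h
    exact ((SimpleGraph.fromRel_adj _ _ _).1 h).2
  · intro h
    refine (SimpleGraph.fromRel_adj _ _ _).2 ⟨?_, h⟩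
    rcases h with h | h
    · exact E_ne h
    · exact (E_ne h).symm

lemma adj_of_E {u v : Vtx} (h : N.E u v) : N.G.Adj u v := adj_iff.2 (Or.inl h)

lemma adj_of_E' {u v : Vtx} (h : N.E v u) : N.G.Adj u v := adj_iff.2 (Or.inr h)

lemma mem_F_succ {S : Set Vtx} {i : ℕ} {w : Vtx} :
    w ∈ N.F S (i + 1) ↔ w ∈ N.F S i ∨ (w ∉ S ∧ ∃ u ∈ N.F S i, N.G.Adj u w) := Iff.rfl

lemma mem_H_succ {S : Set Vtx} {i : ℕ} {w : Vtx} :
    w ∈ N.H S (i + 1) ↔ w ∈ S ∧ ∃ u ∈ N.F S i, N.G.Adj u w := Iff.rfl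

lemma F_mono {S : Set Vtx} : Monotone (N.F S) := Fr_mono

lemma H_mono {S : Set Vtx} : Monotone (N.H S) := Th_mono

lemma H_subset {S : Set Vtx} (i : ℕ) : N.H S i ⊆ S := Th_subset i

lemma src_mem_F {S : Set Vtx} (i : ℕ) : Vtx.src 0 ∈ N.F S i := source_mem_Fr i

lemma not_mem_of_F {S : Set Vtx} (hs : Vtx.src 0 ∉ S) {i : ℕ} {w : Vtx} (h : w ∈ N.F S i) :
    w ∉ S := Fr_disj hs i w h

lemma burn_or_due {S : Set Vtx} {i : ℕ} {u w : Vtx} (hu : u ∈ N.F S i) (h : N.G.Adj u w) :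
    (w ∉ S ∧ w ∈ N.F S (i + 1)) ∨ (w ∈ S ∧ w ∈ N.H S (i + 1)) := FH.burn_or_due hu h

/-- A vertex outside `S` next to a burnt vertex burns in the next round. -/
lemma burns {S : Set Vtx} {i : ℕ} {u w : Vtx} (hu : u ∈ N.F S i) (h : N.G.Adj u w)
    (hw : w ∉ S) : w ∈ N.F S (i + 1) := Or.inr ⟨hw, u, hu, h⟩

/-- A vertex of `S` next to a burnt vertex is due in the next round. -/
lemma dues {S : Set Vtx} {i : ℕ} {u w : Vtx} (hu : u ∈ N.F S i) (h : N.G.Adj u w)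
    (hw : w ∈ S) : w ∈ N.H S (i + 1) := ⟨hw, u, hu, h⟩

/-- A door which burns exists. -/
lemma isDoor_of_mem {S : Set Vtx} {i σ t : ℕ} (h : Vtx.door σ t ∈ N.F S i) : N.isDoor σ t := by
  induction i with
  | zero => exact absurd h (by simp [F, Fr])
  | succ i ih =>
    rcases mem_F_succ.1 h with h | ⟨-, u, -, hu⟩
    · exact ih h
    · rcases adj_iff.1 hu with h | h
      · cases u <;> simp [E] at h
        obtain ⟨h1, h2, h3⟩ := h
        rw [h1]; exact h3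
      · cases u <;> simp [E] at h
        obtain ⟨h1, h2, h3⟩ := h
        exact h2

lemma own_lt (t : ℕ) (hK : 0 < N.K) : N.own t < 16 + N.K := by
  unfold own
  split_ifs with h
  · omega
  · have := Nat.mod_lt t hK
    omega

lemma rho_lt {w w' : ℕ} (h : w < w') : N.rho w + N.Lam ≤ N.rho w' := by
  have : N.Lam * (w + 1) ≤ N.Lam * w' := Nat.mul_le_mul_left _ h
  unfold rho
  rw [Nat.mul_succ] at this
  omega

lemma rho_mono {w w' : ℕ} (h : w ≤ w') : N.rho w ≤ N.rho w' := by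
  have : N.Lam * w ≤ N.Lam * w' := Nat.mul_le_mul_left _ h
  unfold rho
  omega

lemma rt_le (b w : ℕ) : N.rt b w ≤ N.rho w + 1 := by
  unfold rt; split_ifs <;> omega

lemma rho_le_rt (b w : ℕ) : N.rho w ≤ N.rt b w := Nat.le_add_right _ _

end Net

end Pool.Agent.Lib.MP_711ea9_lc.FH
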