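import Pool.Agent.Lib.MP_711ea9_lc.Process
import Pool.Agent.Lib.MP_711ea9_lc.Statement

set_option autoImplicit false

/-!
# The static form of the Firefighter problem on arbitrary vertex types
-/

namespace Pool.Agent.Lib.MP_711ea9_lc.FH

section

variable {V : Type*} (G : SimpleGraph V) (s : V) (S : Set V)

/-- The vertices burnt by time `i` if exactly the vertices of `S` are protected. -/
def Fr : ℕ → Set V
  | 0 => {s}
  | i + 1 => Fr i ∪ {w | w ∉ S ∧ ∃ u ∈ Fr i, G.Adj u w}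

/-- The vertices of `S` which have to be protected in the first `i` rounds. -/
def Th : ℕ → Set V
  | 0 => ∅
  | i + 1 => {w | w ∈ S ∧ ∃ u ∈ Fr G s S i, G.Adj u w}

/-- The static form of the Firefighter problem. -/
def FF (k : ℕ) : Prop :=
  ∃ S : Set V, s ∉ S ∧ (∀ i : ℕ, (Th G s S i).encard ≤ i) ∧ ∀ i : ℕ, (Fr G s S i).encard ≤ k

variable {G s S}

lemma mem_Fr_succ {i : ℕ} {w : V} :
    w ∈ Fr G s S (i + 1) ↔ w ∈ Fr G s S i ∨ (w ∉ S ∧ ∃ u ∈ Fr G s S i, G.Adj u w) := Iff.rfl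

lemma mem_Th_succ {i : ℕ} {w : V} :
    w ∈ Th G s S (i + 1) ↔ w ∈ S ∧ ∃ u ∈ Fr G s S i, G.Adj u w := Iff.rfl

lemma Fr_mono_succ (i : ℕ) : Fr G s S i ⊆ Fr G s S (i + 1) := fun _ hw => Or.inl hw

lemma Fr_mono : Monotone (Fr G s S) := monotone_nat_of_le_succ Fr_mono_succ

lemma Th_mono_succ (i : ℕ) : Th G s S i ⊆ Th G s S (i + 1) := by
  cases i with
  | zero => intro w hw; exact hw.elim
  | succ i =>
    rintro w ⟨h1, u, hu, h2⟩
    exact ⟨h1, u, Fr_mono_succ i hu, h2⟩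

lemma Th_mono : Monotone (Th G s S) := monotone_nat_of_le_succ Th_mono_succ

lemma Th_subset (i : ℕ) : Th G s S i ⊆ S := by
  cases i with
  | zero => intro w hw; exact hw.elim
  | succ i => intro w hw; exact hw.1

lemma source_mem_Fr (i : ℕ) : s ∈ Fr G s S i := Fr_mono (Nat.zero_le i) (by simp [Fr])

lemma Fr_disj (hs : s ∉ S) (i : ℕ) : ∀ w ∈ Fr G s S i, w ∉ S := by
  induction i with
  | zero => intro w hw; rw [show w = s from hw]; exact hs
  | succ i ih =>
    rintro w (hw | hw)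
    · exact ih w hw
    · exact hw.1

/-- A vertex next to a burnt vertex burns or is due in the next round. -/
lemma burn_or_due {i : ℕ} {u w : V} (hu : u ∈ Fr G s S i) (h : G.Adj u w) :
    (w ∉ S ∧ w ∈ Fr G s S (i + 1)) ∨ (w ∈ S ∧ w ∈ Th G s S (i + 1)) := by
  by_cases hw : w ∈ S
  · exact Or.inr ⟨hw, hw, u, hu, h⟩
  · exact Or.inl ⟨hw, Or.inr ⟨hw, u, hu, h⟩⟩

end

end Pool.Agent.Lib.MP_711ea9_lc.FH
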