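import Mathlib

set_option autoImplicit false

/-!
# Plane drawings of graphs
-/

namespace Pool.Agent.Lib.MP_711ea9_lc

/-- `G` is planar: there is a drawing in the plane in which the vertices are different points
`pos v`, every edge `u v` is a simple arc `arc u v : [0, 1] → ℝ × ℝ` from `pos u` to `pos v`
(continuous and injective; the arc from `v` to `u` is the reversed arc), no arc passes through a
vertex other than its two ends, and the arcs of two different edges meet only in vertices. -/
def Planar {V : Type*} (G : SimpleGraph V) : Prop :=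
  ∃ (pos : V → ℝ × ℝ) (arc : V → V → ℝ → ℝ × ℝ), Function.Injective pos ∧
    (∀ u v, G.Adj u v → ContinuousOn (arc u v) (Set.Icc 0 1) ∧
      Set.InjOn (arc u v) (Set.Icc 0 1) ∧ arc u v 0 = pos u ∧ arc u v 1 = pos v ∧
      ∀ t ∈ Set.Icc (0 : ℝ) 1, arc v u t = arc u v (1 - t)) ∧
    (∀ u v w, G.Adj u v → ∀ t ∈ Set.Icc (0 : ℝ) 1, arc u v t = pos w → w = u ∨ w = v) ∧
    ∀ u v u' v', G.Adj u v → G.Adj u' v' → s(u, v) ≠ s(u', v') →
      ∀ t ∈ Set.Icc (0 : ℝ) 1, ∀ t' ∈ Set.Icc (0 : ℝ) 1, arc u v t = arc u' v' t' →
        ∃ w, arc u v t = pos w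

namespace FH

/-- `v` is not isolated. -/
def Liv {V : Type*} (G : SimpleGraph V) (v : V) : Prop := ∃ a, G.Adj v a

/-- A layout in rows: every edge joins two vertices of row 0, or neighbours in a row, or vertices
in consecutive rows (in monotone order); the edges in row 0 are laminar. -/
structure Layout {V : Type*} (G : SimpleGraph V) (row col : V → ℕ) (R : ℕ) : Prop where
  inj : ∀ u v, Liv G u → Liv G v → row u = row v → col u = col v → u = v
  bound : ∀ u, Liv G u → row u < R
  edge : ∀ u v, G.Adj u v →
    (row u = row v ∧ (row u = 0 ∨ ∀ w, Liv G w → row w = row u →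
      ¬ (min (col u) (col v) < col w ∧ col w < max (col u) (col v)))) ∨
    row v = row u + 1 ∨ row u = row v + 1
  ver : ∀ u v u' v', G.Adj u v → G.Adj u' v' → row v = row u + 1 → row v' = row u' + 1 →
    row u = row u' → col u < col u' → col v ≤ col v'
  lam : ∀ u v u' v', G.Adj u v → G.Adj u' v' → row u = 0 → row v = 0 → row u' = 0 → row v' = 0 →
    ¬ (col u < col u' ∧ col u' < col v ∧ col v < col v')

end FH

end Pool.Agent.Lib.MP_711ea9_lc
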