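import Pool.Agent.Lib.MP_711ea9_lc.Statement
import Pool.Agent.Lib.MP_711ea9_lc.FH.Plane

set_option autoImplicit false

/-!
# 3CNF formulas, and instances of the Firefighter problem in memory
-/

namespace Pool.Agent.Lib.MP_711ea9_lc

/-- A formula which is a conjunction of `m` clauses, every clause being the disjunction of three
literals. As there are at most `3 m` variables, the variables are numbered `0, …, 3 m - 1`. The
literal `i` of the clause `c` is given by `φ c i = (v, b)`: it is the variable `v` if `b = true`,
and the negation of the variable `v` if `b = false`. -/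
abbrev CNF3 (m : ℕ) : Type := Fin m → Fin 3 → Fin (3 * m) × Bool

namespace CNF3

variable {m : ℕ} (φ : CNF3 m)

/-- The formula is satisfiable. -/
def Sat : Prop := ∃ x : Fin (3 * m) → Bool, ∀ c, ∃ i, x (φ c i).1 = (φ c i).2

/-- The code of the literal `j % 3` of the clause `j / 3`: it is `2 v + 1` for the variable `v`,
and `2 v` for its negation. -/
def code (j : ℕ) : ℕ :=
  if h : j < 3 * m then
    2 * ((φ ⟨j / 3, by omega⟩ ⟨j % 3, by omega⟩).1 : ℕ) +
      (if (φ ⟨j / 3, by omega⟩ ⟨j % 3, by omega⟩).2 = true then 1 else 0)
  else 0

/-- The memory at the start of a computation whose input is the formula: variable 0 holds the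
number `m` of clauses, and the first `3 m` entries of array 0 hold the codes of the literals. All
other entries are zero. -/
def input : Store where
  var := fun x => if x = 0 then m else 0
  arr := fun a j => if a = 0 then φ.code j else 0

end CNF3

open scoped Classical in
/-- The memory which holds the instance `(G, s, k)` of the Firefighter problem: the variables 0, 1
and 2 hold `n`, `s` and `k`, and array 0 holds the adjacency matrix, row by row. All other entries
are zero. -/
noncomputable def ffInput {n : ℕ} (G : SimpleGraph (Fin n)) (s : Fin n) (k : ℕ) : Store where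
  var := fun x => if x = 0 then n else if x = 1 then (s : ℕ) else if x = 2 then k else 0
  arr := fun a i => if a = 0 ∧ ∃ u v : Fin n, G.Adj u v ∧ i = u * n + v then 1 else 0

/-- The program `p` decides the Firefighter problem on planar graphs (the answer is yes if
variable 0 is 1 at the end); on graphs with `n` vertices it takes time at most `2 ^ f n`. Only
bounds `k ≤ n` are considered, as for `k ≥ n` the answer is always yes. -/
def DecidesPlanar (p : Cmd) (f : ℕ → ℕ) : Prop :=
  ∀ (n : ℕ) (G : SimpleGraph (Fin n)) (s : Fin n) (k : ℕ), Planar G → k ≤ n →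
    p.cost (ffInput G s k) ≤ 2 ^ f n ∧
      ((p.exec (ffInput G s k)).var 0 = 1 ↔ Firefighter G s k)

/-- The program `q` decides whether a 3CNF formula is satisfiable (the answer is yes if variable 0
is 1 at the end); for formulas with `m` clauses it takes time at most `2 ^ g m`. -/
def DecidesSat (q : Cmd) (g : ℕ → ℕ) : Prop :=
  ∀ (m : ℕ) (φ : CNF3 m), 1 ≤ m →
    q.cost φ.input ≤ 2 ^ g m ∧ ((q.exec φ.input).var 0 = 1 ↔ φ.Sat)

end Pool.Agent.Lib.MP_711ea9_lc
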