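import Pool.Agent.Lib.MP_711ea9_lc.FH.Sat

set_option autoImplicit false

/-!
# Numbers for the vertices
-/

namespace Pool.Agent.Lib.MP_711ea9_lc.FH

namespace Net

variable (N : Net)

/-- The number of columns of a region. -/
def X : ℕ := 600 * 2 ^ N.h

/-- The number of codes of one kind. -/
def Y : ℕ := (22 + N.K) * (N.h + 1) * 300 * N.X

/-- The vertex with the code `u`. -/
def dec (u : ℕ) : Vtx :=
  if u / N.Y = 0 then .src (u % N.Y)
  else if u / N.Y = 1 then .path (u % N.Y / (N.T + 1)) (u % N.Y % (N.T + 1))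
  else if u / N.Y = 2 then .door (u % N.Y / (N.T + 1)) (u % N.Y % (N.T + 1))
  else if u / N.Y = 3 then .reg (u % N.Y / N.X / 300 / (N.h + 1))
    (u % N.Y / N.X / 300 % (N.h + 1)) (u % N.Y / N.X % 300) (u % N.Y % N.X)
  else if u / N.Y = 4 then .stem (u % N.Y / 2 / N.nw) (u % N.Y / 2 % N.nw) (u % N.Y % 2)
  else if u / N.Y = 5 then .root (u % N.Y / N.nw) (u % N.Y % N.nw)
  else if u / N.Y = 6 then .nod (u % N.Y / N.nw) (u % N.Y % N.nw)
  else .chain (u % N.Y / 16 / N.nw) (u % N.Y / 16 % N.nw) (u % N.Y / 8 % 2) (u % N.Y % 8)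

end Net

/-- The graph of a 3CNF. -/
def satG (A : ℕ → ℕ) (M : ℕ) : SimpleGraph (Fin (8 * (satNet A M).Y)) :=
  (satNet A M).G.comap (fun i => (satNet A M).dec i)

end Pool.Agent.Lib.MP_711ea9_lc.FH
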