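import Pool.Agent.Lib.MP_711ea9_lc.FH.Base

set_option autoImplicit false

/-!
# The graph of a net
-/

namespace Pool.Agent.Lib.MP_711ea9_lc.FH

open Finset

/-- The vertices. -/
inductive Vtx
  | src (q : ℕ)
  | path (σ t : ℕ)
  | door (σ t : ℕ)
  | reg (σ l r x : ℕ)
  | stem (b w j : ℕ)
  | root (b w : ℕ)
  | nod (b w : ℕ)
  | chain (b w c j : ℕ)
  deriving DecidableEq

/-- The data of a net. -/
structure Net where
  /-- number of windows -/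
  nw : ℕ
  /-- number of clock strands -/
  K : ℕ
  /-- length of a window -/
  Lam : ℕ
  /-- number of rounds -/
  T : ℕ
  /-- height of the regions -/
  h : ℕ
  /-- time in which a fire in a region is out of control -/
  tau : ℕ
  /-- number of doublings -/
  k0 : ℕ
  /-- window `w` reads page `p` -/
  rd : ℕ → ℕ → Bool
  /-- window `w` writes page `p` -/
  wr : ℕ → ℕ → Bool
  /-- target of the first link -/
  l1 : ℕ → ℕ → ℕ
  /-- target of the second link; `0` if there is none -/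
  l2 : ℕ → ℕ → ℕ
  /-- the writer whose link ends at the reader `(w, p)` -/
  fr : ℕ → ℕ → ℕ
  /-- length of the chain `c` of the port `(b, w)` -/
  len : ℕ → ℕ → ℕ → ℕ
  /-- number of slots of window `w` -/
  e : ℕ → ℕ

namespace Net

variable (N : Net)

/-- The start of window `w`. -/
def rho (w : ℕ) : ℕ := N.Lam * w + 16

/-- The rounds without a door. -/
def slot (t : ℕ) : Prop :=
  t / N.Lam < N.nw ∧ 17 ≤ t % N.Lam ∧ t % N.Lam ≤ 16 + N.e (t / N.Lam)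

/-- The guard rounds. -/
def guard (t : ℕ) : Prop := 33 ≤ t % N.Lam ∧ t % N.Lam ≤ 96

/-- The rounds of the clock strands and of the starters. -/
def clk (t : ℕ) : Prop := 1 ≤ t ∧ (t ≤ 6 ∨ (¬ N.slot t ∧ ¬ N.guard t))

/-- The strand of a round of a clock strand or a starter. -/
def cs (t : ℕ) : ℕ := if t ≤ 6 then 15 + N.K + t else 16 + t % N.K

/-- The strand of the door of round `t ≥ 7`. -/
def own (t : ℕ) : ℕ :=
  if 33 ≤ t % N.Lam ∧ t % N.Lam ≤ 96 then (t % N.Lam - 33) / 4 else 16 + t % N.K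

/-- There is a door `(σ, t)`. -/
def isDoor (σ t : ℕ) : Prop :=
  (t = 6 ∧ 16 + N.K ≤ σ ∧ σ < 22 + N.K) ∨ (7 ≤ t ∧ t ≤ N.T ∧ ¬ N.slot t ∧ σ = N.own t)

/-- There is a port `(b, w)`. -/
def port (b w : ℕ) : Prop := b < 16 ∧ w < N.nw ∧ (N.rd w (b / 2) = true ∨ N.wr w (b / 2) = true)

/-- The time at which the root of a port burns. -/
def rt (b w : ℕ) : ℕ := N.rho w + (if N.wr w (b / 2) = true then 1 else 0)

/-- The delay of the guard rounds of the chain `(b, c)`. -/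
def dl (b c : ℕ) : ℕ := 16 + 4 * b + 2 * c

/-- The edges, directed. -/
def E : Vtx → Vtx → Prop
  | .src q, .path σ t => q = 0 ∧ t = 1 ∧ σ < 22 + N.K
  | .path σ t, .path σ' t' => σ' = σ ∧ σ < 22 + N.K ∧ 1 ≤ t ∧ t' = t + 1 ∧ t' ≤ N.T
  | .path σ t, .door σ' t' => σ' = σ ∧ t' = t + 1 ∧ N.isDoor σ t'
  | .door σ t, .reg σ' l r x =>
      σ' = σ ∧ N.isDoor σ t ∧ l = 0 ∧ r = 0 ∧ x / 600 = t ∧ x % 600 < 300
  | .reg σ l r x, .reg σ' l' r' x' =>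
      σ' = σ ∧ σ < 22 + N.K ∧ l ≤ N.h ∧ l' ≤ N.h ∧ r < 300 ∧ r' < 300 ∧
      x < 600 * 2 ^ N.h ∧ x' < 600 * 2 ^ N.h ∧
      ((l' = l ∧ r' = r ∧ x' = x + 1) ∨ (l' = l ∧ r' = r + 1 ∧ x' = x) ∨
        (l' = l + 1 ∧ r = 299 ∧ r' = 0 ∧ x % 600 < 300 ∧ x' = 300 * (x / 600) + x % 600))
  | .path σ t, .stem b w j => b = σ ∧ N.port b w ∧ j = 0 ∧ t + 3 = N.rt b w
  | .stem b w j, .stem b' w' j' => b' = b ∧ w' = w ∧ N.port b w ∧ j = 0 ∧ j' = 1
  | .stem b w j, .root b' w' => b' = b ∧ w' = w ∧ N.port b w ∧ j = 1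
  | .root b w, .root b' w' =>
      b' = b ∧ N.port b w ∧ N.wr w (b / 2) = true ∧ w' = N.l1 w (b / 2) ∧ w < w'
  | .root b w, .nod b' w' =>
      b' = b ∧ w' = w ∧ N.port b w ∧ N.wr w (b / 2) = true ∧ N.l2 w (b / 2) ≠ 0
  | .nod b w, .root b' w' =>
      b' = b ∧ N.port b w ∧ N.wr w (b / 2) = true ∧ N.l2 w (b / 2) ≠ 0 ∧ w' = N.l2 w (b / 2)
  | .root b w, .chain b' w' c j => b' = b ∧ w' = w ∧ N.port b w ∧ c < 2 ∧ j = 1
  | .chain b w c j, .chain b' w' c' j' =>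
      b' = b ∧ w' = w ∧ c' = c ∧ N.port b w ∧ c < 2 ∧ 1 ≤ j ∧ j' = j + 1 ∧ j' ≤ N.len b w c
  | .chain b w c j, .path σ t =>
      σ = b ∧ N.port b w ∧ c < 2 ∧ j = N.len b w c ∧
        (t = N.rho w + dl b c ∨ t = N.rho w + dl b c + 1)
  | _, _ => False

/-- The graph of the net. -/
def G : SimpleGraph Vtx := SimpleGraph.fromRel N.E

/-- The vertices burnt by time `i`. -/
def F (S : Set Vtx) (i : ℕ) : Set Vtx := Fr N.G (Vtx.src 0) S i

/-- The vertices of `S` due by time `i`. -/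
def H (S : Set Vtx) (i : ℕ) : Set Vtx := Th N.G (Vtx.src 0) S i

/-- The conditions on a net. -/
structure Valid (k : ℕ) : Prop where
  len_ge : ∀ b w c, N.port b w → c < 2 → 2 ≤ N.len b w c
  len_rd : ∀ b w c, b < 16 → w < N.nw → N.rd w (b / 2) = true → c < 2 → N.len b w c ≤ N.e w
  len_wr : ∀ b w c, b < 16 → w < N.nw → N.wr w (b / 2) = true → c < 2 → N.len b w c + 1 ≤ N.e w
  excl : ∀ w p, w < N.nw → p < 8 → N.rd w p = true → N.wr w p = false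
  one : ∀ w p q, w < N.nw → p < 8 → q < 8 → N.wr w p = true → N.wr w q = true → p = q
  e_eq : ∀ w, w < N.nw → N.e w = ∑ p ∈ range 8, ((if N.rd w p = true then 2 else 0) +
    (if N.wr w p = true then 4 + (if N.l2 w p ≠ 0 then 1 else 0) else 0))
  e_le : ∀ w, N.e w ≤ 7
  link1 : ∀ w p, w < N.nw → p < 8 → N.wr w p = true →
    w < N.l1 w p ∧ N.l1 w p < N.nw ∧ N.rd (N.l1 w p) p = true ∧ N.fr (N.l1 w p) p = w
  link2 : ∀ w p, w < N.nw → p < 8 → N.wr w p = true → N.l2 w p ≠ 0 →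
    N.l1 w p < N.l2 w p ∧ N.l2 w p < N.nw ∧ N.rd (N.l2 w p) p = true ∧ N.fr (N.l2 w p) p = w
  source : ∀ w p, w < N.nw → p < 8 → N.rd w p = true → N.fr w p < N.nw ∧
    N.wr (N.fr w p) p = true ∧
    (N.l1 (N.fr w p) p = w ∨ (N.l2 (N.fr w p) p ≠ 0 ∧ N.l2 (N.fr w p) p = w))
  hnw : 1 ≤ N.nw
  htau : 1800 * (N.h + 1) ≤ N.tau
  hk0 : 22 + N.K < 2 ^ N.k0
  hK : 14 + N.k0 * N.tau ≤ N.K
  hLam : 14 + N.k0 * N.tau ≤ N.Lam
  hLam' : 400 ≤ N.Lam
  hT : N.rho N.nw + 14 + N.k0 * N.tau ≤ N.T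
  hh : N.T < 2 ^ N.h
  hk : k < 2 ^ N.h
  hk' : (N.K + 24) * (N.T + 1) ≤ k

/-- The unit `(b, j)` of window `w` is active in the state `st`. -/
def act (st : ℕ → ℕ → Prop) (w b j : ℕ) : Prop :=
  N.port b w ∧
  ((j < 2 ∧ ¬ st b w) ∨ (j = 2 ∧ N.wr w (b / 2) = true ∧ st b w) ∨
    (j = 3 ∧ N.wr w (b / 2) = true ∧ ¬ st b w) ∨
    (j = 4 ∧ N.wr w (b / 2) = true ∧ ¬ st b w ∧ N.l2 w (b / 2) ≠ 0))

/-- The delay of the unit `(b, j)` of window `w`. -/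
def due (w b j : ℕ) : ℕ :=
  if j < 2 then N.len b w j + (if N.wr w (b / 2) = true then 1 else 0)
  else j - 1

open scoped Classical in
/-- The number of active units of window `w` with delay at most `τ`. -/
noncomputable def cnt (st : ℕ → ℕ → Prop) (w τ : ℕ) : ℕ :=
  ((range 16 ×ˢ range 5).filter (fun x => N.act st w x.1 x.2 ∧ N.due w x.1 x.2 ≤ τ)).card

/-- The timetable of window `w` can be met. -/
def Ok (st : ℕ → ℕ → Prop) (w : ℕ) : Prop := ∀ τ, τ ≤ 7 → N.cnt st w τ ≤ min τ (N.e w)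

/-- The net has a solution. -/
def Sol : Prop :=
  ∃ st : ℕ → ℕ → Prop,
    (∀ w p, w < N.nw → p < 8 → N.wr w p = true → (st (2 * p) w ↔ ¬ st (2 * p + 1) w)) ∧
    (∀ w b, w < N.nw → b < 16 → N.rd w (b / 2) = true → (st b w ↔ ¬ st b (N.fr w (b / 2)))) ∧
    ∀ w, w < N.nw → N.Ok st w

/-- Both chains of every port of window `w` whose root burns meet `S`. -/
def WD (S : Set Vtx) (w : ℕ) : Prop :=
  ∀ b c, N.port b w → Vtx.root b w ∉ S → c < 2 →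
    ∃ j, 1 ≤ j ∧ j ≤ N.len b w c ∧ Vtx.chain b w c j ∈ S

/-- The targets of every writer of window `w` whose root burns are in `S`. -/
def WE (S : Set Vtx) (w : ℕ) : Prop :=
  ∀ b, N.port b w → N.wr w (b / 2) = true → Vtx.root b w ∉ S →
    Vtx.root b (N.l1 w (b / 2)) ∈ S ∧
    (N.l2 w (b / 2) ≠ 0 → Vtx.root b (N.l2 w (b / 2)) ∈ S)

/-- Upper bound for the fire at time `i`. -/
def U (S : Set Vtx) (i : ℕ) : Vtx → Prop
  | .src q => q = 0
  | .path σ t => σ < 22 + N.K ∧ 1 ≤ t ∧ t ≤ i ∧ t ≤ N.T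
  | .door _ _ => False
  | .reg _ _ _ _ => False
  | .stem b w j => N.port b w ∧ j < 2 ∧ N.rt b w + j ≤ i + 2
  | .root b w => N.port b w ∧ N.rt b w ≤ i
  | .nod b w => N.port b w ∧ N.wr w (b / 2) = true ∧ N.l2 w (b / 2) ≠ 0 ∧
      ((Vtx.root b w ∈ S ∧ N.rho (N.l2 w (b / 2)) + 1 ≤ i) ∨
        (Vtx.root b w ∉ S ∧ N.rho w + 2 ≤ i))
  | .chain b w c j => N.port b w ∧ c < 2 ∧ 1 ≤ j ∧ j ≤ N.len b w c ∧
      (N.rho w + dl b c + N.len b w c + 1 ≤ i + j ∨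
        (Vtx.root b w ∉ S ∧ (∀ j', 1 ≤ j' → j' ≤ j → Vtx.chain b w c j' ∉ S) ∧
          N.rt b w + j ≤ i))

/-- `i` is not inside a window. -/
def good (i : ℕ) : Prop := ∀ w, w < N.nw → i ≤ N.rho w ∨ N.rho w + 14 ≤ i

/-- The state of the roots. -/
def stS (S : Set Vtx) (b w : ℕ) : Prop := Vtx.root b w ∈ S

/-- The invariant at good times. -/
structure Inv (S : Set Vtx) (i : ℕ) : Prop where
  a : (i : ℕ∞) ≤ (N.H S i).encard
  b : ∀ σ t, σ < 16 + N.K → 1 ≤ t → t ≤ i → Vtx.path σ t ∉ S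
  b' : ∀ b w j, N.port b w → j < 2 → N.rt b w + j ≤ i + 2 → Vtx.stem b w j ∉ S
  c : ∀ σ t, Vtx.door σ t ∉ N.F S i
  d : ∀ w, w < N.nw → N.rho w + 14 ≤ i → N.WD S w
  e : ∀ w, w < N.nw → N.rho w + 14 ≤ i → N.WE S w
  f : ∀ w p, w < N.nw → N.rho w + 14 ≤ i → p < 8 → N.wr w p = true →
    (Vtx.root (2 * p) w ∈ S ↔ Vtx.root (2 * p + 1) w ∉ S)
  g : ∀ w b, w < N.nw → N.rho w ≤ i → b < 16 → N.rd w (b / 2) = true →
    (Vtx.root b w ∈ S ↔ Vtx.root b (N.fr w (b / 2)) ∉ S)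
  h : ∀ w, w < N.nw → N.rho w + 14 ≤ i → N.Ok (stS S) w

/-- A successful strategy. -/
structure Run (S : Set Vtx) (k : ℕ) : Prop where
  src : Vtx.src 0 ∉ S
  th : ∀ i : ℕ, (N.H S i).encard ≤ i
  fr : ∀ i : ℕ, (N.F S i).encard ≤ k

end Net

/-- The frame `a` of the region `σ`. -/
def frame (σ a : ℕ) : Set Vtx := {v | ∃ l q x, v = Vtx.reg σ l q x ∧ (q = a ∨ x % 300 = a)}

/-- The region `σ`. -/
def region (σ : ℕ) : Set Vtx := {v | ∃ l q x, v = Vtx.reg σ l q x}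

/-- Strands with a burning door. -/
noncomputable def Net.leaks (N : Net) (S : Set Vtx) (i : ℕ) : Finset ℕ := by
  classical exact (range (22 + N.K)).filter (fun σ => ∃ t, Vtx.door σ t ∈ N.F S i)

end Pool.Agent.Lib.MP_711ea9_lc.FH
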