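import Pool.Agent.Lib.MP_711ea9_lc.FH.Adj

set_option autoImplicit false

namespace Pool.Agent.Lib.MP_711ea9_lc.FH

open Finset

/-- The hypotheses for the upper bound of the fire up to time `M`. -/
structure Net.Tame (N : Net) (S : Set Vtx) (M : ℕ) : Prop where
  src : Vtx.src 0 ∉ S
  door : ∀ σ t, Vtx.door σ t ∉ N.F S M
  wd : ∀ w, w < N.nw → N.rho w < M → N.WD S w
  we : ∀ w, w < N.nw → N.rho w < M → N.WE S w

/-- TASK E1a. The fire does not leave `U` along an edge `u → v` of `Net.E`.
Proof. `cases u <;> cases v <;> simp only [Net.E] at h` (use `simp [Net.E] at h` and `obtain`), one line per edge type: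
src-path: `t = 1 ≤ i + 1`, `1 ≤ N.T`. path-path, stem-stem, stem-root (`rt + 1 ≤ i + 2` gives `rt ≤ i + 1`): clear. door-reg, reg-reg: `U u` is
False. path-door: `v` is a door, excluded by `hnd`. path-stem: `t + 3 = rt`, `t ≤ i`. root-root: `rt b w ≤ i` gives `N.rho w < M` (`Net.rho_le_rt`, `i < M`),
so by `we` `root b (l1 ..) ∈ S`, against `hv`. root-nod: `rt = rho + 1 ≤ i` (it is a writer) and `root b w ∉ S`: second
alternative. nod-root: alternative 1: `rho l2 + 1 ≤ i`; the target is a reader (`hV.link2`, `hV.excl`), so `rt = rho l2` (and its port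
exists); alternative 2: `rho w < M` and `we` puts the target in `S`, against `hv`. root-chain: second alternative of chain with `j = 1`
(`rt + 1 ≤ i + 1`; `j' = 1` only; `1 ≤ len` by `hV.len_ge`). chain-chain (`j → j+1`): first alternative: `.. ≤ i + j` clear; second: the vertices `1..j` are
not in `S` and `v = chain (j+1) ∉ S`. chain-path (`j = len`): first alternative: `rho + dl + len + 1 ≤ i + len` gives `rho + dl + 1 ≤ i`; second: no vertex
`1..len` of the chain is in `S`, `root b w ∉ S`, `rho w < M`: against `wd`. `σ = b < 16 ≤ 22 + K`, and `t ≤ N.T` because `rho w + dl b c + 1 ≤ rho N.nw ≤ N.T`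
(`dl ≤ 78`, `Net.rho_lt`, `hV.hLam'`, `hV.hT`). -/
theorem U_step {N : Net} {k : ℕ} (hV : N.Valid k) {S : Set Vtx} {M i : ℕ} (hT : N.Tame S M)
    (hi : i < M) {u v : Vtx} (hu : N.U S i u) (huS : u ∉ S) (hv : v ∉ S)
    (hnd : ∀ σ t, v ≠ Vtx.door σ t) (h : N.E u v) : N.U S (i + 1) v := by
  cases u with
  | src q =>
    cases v <;> simp only [Net.E] at h
    obtain ⟨h1, h2, h3⟩ := h
    subst h2
    refine ⟨h3, le_refl _, by omega, ?_⟩
    have := hV.hT
    omega
  | path σ t =>
    obtain ⟨h1, h2, h3, h4⟩ := hu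
    cases v with
    | path σ' t' =>
      obtain ⟨e1, e2, e3, e4, e5⟩ := h
      subst e1
      exact ⟨h1, by omega, by omega, e5⟩
    | door σ' t' => exact absurd rfl (hnd σ' t')
    | stem b w j =>
      obtain ⟨e1, e2, e3, e4⟩ := h
      subst e3
      exact ⟨e2, by omega, by omega⟩
    | _ => exact h.elim
  | door σ t => exact hu.elim
  | reg σ l r x => exact hu.elim
  | stem b w j =>
    obtain ⟨h1, h2, h3⟩ := hu
    cases v with
    | stem b' w' j' =>
      obtain ⟨e1, e2, e3, e4, e5⟩ := h
      subst e1 e2 e4 e5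
      exact ⟨h1, by omega, by omega⟩
    | root b' w' =>
      obtain ⟨e1, e2, e3, e4⟩ := h
      subst e1 e2 e4
      exact ⟨h1, by omega⟩
    | _ => exact h.elim
  | root b w =>
    obtain ⟨h1, h2⟩ := hu
    have hM : N.rho w < M := lt_of_le_of_lt ((Net.rho_le_rt b w).trans h2) hi
    cases v with
    | root b' w' =>
      obtain ⟨e1, e2, e3, e4, e5⟩ := h
      subst e1 e4
      exact absurd (hT.we w h1.2.1 hM b' h1 e3 huS).1 hv
    | nod b' w' =>
      obtain ⟨e1, e2, e3, e4, e5⟩ := h
      subst e1 e2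
      have h6 : N.rt b' w' = N.rho w' + 1 := by
        unfold Net.rt
        rw [if_pos e4]
      exact ⟨h1, e4, e5, Or.inr ⟨huS, by omega⟩⟩
    | chain b' w' c j =>
      obtain ⟨e1, e2, e3, e4, e5⟩ := h
      subst e1 e2 e5
      have h6 := hV.len_ge b' w' c h1 e4
      refine ⟨h1, e4, le_refl _, by omega, Or.inr ⟨huS, fun j' h7 h8 => ?_, by omega⟩⟩
      have h9 : j' = 1 := by omega
      rw [h9]
      exact hv
    | _ => exact h.elim
  | nod b w =>
    obtain ⟨h1, h2, h3, h4⟩ := hu
    cases v with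
    | root b' w' =>
      obtain ⟨e1, e2, e3, e4, e5⟩ := h
      subst e1 e5
      have hb : b' / 2 < 8 := by
        have := h1.1
        omega
      obtain ⟨l1, l2, l3, l4⟩ := hV.link2 w (b' / 2) h1.2.1 hb h2 h3
      rcases h4 with ⟨h5, h6⟩ | ⟨h5, h6⟩
      · have h7 := hV.excl _ _ l2 hb l3
        refine ⟨⟨h1.1, l2, Or.inl l3⟩, ?_⟩
        unfold Net.rt
        rw [h7]
        simp only [Bool.false_eq_true, if_false]
        omega
      · exact absurd ((hT.we w h1.2.1 (by omega) b' h1 h2 h5).2 h3) hv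
    | _ => exact h.elim
  | chain b w c j =>
    obtain ⟨h1, h2, h3, h4, h5⟩ := hu
    cases v with
    | chain b' w' c' j' =>
      obtain ⟨e1, e2, e3, e4, e5, e6, e7, e8⟩ := h
      subst e1 e2 e3 e7
      refine ⟨h1, h2, by omega, e8, ?_⟩
      rcases h5 with h5 | ⟨h5, h6, h7⟩
      · left
        omega
      · right
        refine ⟨h5, fun j'' h8 h9 => ?_, by omega⟩
        rcases Nat.lt_or_ge j'' (j + 1) with h10 | h10
        · exact h6 j'' h8 (by omega)
        · have h11 : j'' = j + 1 := by omega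
          rw [h11]
          exact hv
    | path σ t =>
      obtain ⟨e1, e2, e3, e4, e5⟩ := h
      subst e1 e4
      have hb := h1.1
      have hdl : Net.dl σ c ≤ 78 := by
        unfold Net.dl
        omega
      have hdl' : 16 ≤ Net.dl σ c := by
        unfold Net.dl
        omega
      have hr : N.rho w + N.Lam ≤ N.rho N.nw := Net.rho_lt h1.2.1
      have hL := hV.hLam'
      have hTT := hV.hT
      have h7 : N.rho w + Net.dl σ c + 1 ≤ i := by
        rcases h5 with h5 | ⟨h5, h6, h7⟩
        · omega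
        · exfalso
          have h8 : N.rho w < M := by
            have := Net.rho_le_rt (N := N) σ w
            omega
          obtain ⟨j', g1, g2, g3⟩ := hT.wd w h1.2.1 h8 σ c h1 h5 h2
          exact h6 j' g1 g2 g3
      exact ⟨by omega, by omega, by omega, by omega⟩
    | _ => exact h.elim

end Pool.Agent.Lib.MP_711ea9_lc.FH
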