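import Pool.Agent.Lib.MP_711ea9_lc.Mg.G005

set_option autoImplicit false

namespace Pool.Agent.Lib.MP_711ea9_lc.FH

open Finset

variable {N : Net} {k : ℕ} {S : Set Vtx} {M i : ℕ}

/-- TASK E3a. A due vertex has a neighbour in `U`. Proof: `i = i' + 1` (`H 0` is empty), `Net.mem_H_succ`, `F_subset_U`, `Net.not_mem_of_F`. -/
theorem due_nbr (hV : N.Valid k) (hT : N.Tame S M) (hi : i ≤ M) {v : Vtx} (hv : v ∈ N.H S i) :
    ∃ u, 1 ≤ i ∧ N.U S (i - 1) u ∧ u ∉ S ∧ (N.E u v ∨ N.E v u) := by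
  cases i with
  | zero => exact absurd hv (by simp [Net.H, Th])
  | succ i =>
    obtain ⟨-, u, hu, hadj⟩ := Net.mem_H_succ.1 hv
    exact ⟨u, by omega, F_subset_U hV hT (by omega) hu, Net.not_mem_of_F hT.src hu,
      Net.adj_iff.1 hadj⟩

/-- TASK E3b. Proof: `due_nbr`; neighbours of `path σ t`: src (`t = 1 ≤ i`); path `t - 1 ≤ i - 1`; path `t + 1 ≤ i - 1`; doors are not in `U`; stem 0 with `t + 3 = rt ≤ (i - 1) + 2`;
chain `len` of a window with `t ≤ rho w + dl + 1`: first alternative of `U`: `rho w + dl + len + 1 ≤ (i - 1) + len`; second alternative: no vertex of the chain and not the root is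
in `S`, and `rho w ≤ rt < i ≤ M`, against `hT.wd`. -/
theorem due_path (hV : N.Valid k) (hT : N.Tame S M) (hi : i ≤ M) {σ t : ℕ}
    (hv : Vtx.path σ t ∈ N.H S i) : t ≤ i := by
  obtain ⟨u, h1, hu, huS, h | h⟩ := due_nbr hV hT hi hv
  · cases u with
    | src q => obtain ⟨h2, h3, h4⟩ := h; omega
    | path σ' t' =>
      obtain ⟨h2, h3, h4, h5, h6⟩ := h
      obtain ⟨g1, g2, g3, g4⟩ := hu
      omega
    | door σ' t' => exact absurd h (by simp [Net.E])
    | reg σ' l r x => exact absurd h (by simp [Net.E])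
    | stem b w j => exact absurd h (by simp [Net.E])
    | root b w => exact absurd h (by simp [Net.E])
    | nod b w => exact absurd h (by simp [Net.E])
    | chain b w c j =>
      obtain ⟨h2, h3, h4, h5, h6⟩ := h
      obtain ⟨g1, g2, g3, g4, g5 | ⟨g5, g6, g7⟩⟩ := hu
      · omega
      · exfalso
        have hw : w < N.nw := h3.2.1
        have hr := N.rho_le_rt b w
        obtain ⟨j', a1, a2, a3⟩ := hT.wd w hw (by omega) b c h3 g5 h4
        exact g6 j' a1 (by omega) a3
  · cases u with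
    | src q => exact absurd h (by simp [Net.E])
    | path σ' t' =>
      obtain ⟨h2, h3, h4, h5, h6⟩ := h
      obtain ⟨g1, g2, g3, g4⟩ := hu
      omega
    | door σ' t' => exact hu.elim
    | reg σ' l r x => exact hu.elim
    | stem b w j =>
      obtain ⟨h2, h3, h4, h5⟩ := h
      obtain ⟨g1, g2, g3⟩ := hu
      omega
    | root b w => exact absurd h (by simp [Net.E])
    | nod b w => exact absurd h (by simp [Net.E])
    | chain b w c j => exact absurd h (by simp [Net.E])

/-- TASK E3c. Proof: `due_nbr`; neighbours of a door: `path σ (t-1)` with `t - 1 ≤ i - 1` (`t = t0 + 1` from the edge), regs are not in `U`. -/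
theorem due_door (hV : N.Valid k) (hT : N.Tame S M) (hi : i ≤ M) {σ t : ℕ}
    (hv : Vtx.door σ t ∈ N.H S i) : t ≤ i := by
  obtain ⟨u, h1, hu, huS, h | h⟩ := due_nbr hV hT hi hv
  · cases u with
    | path σ' t' =>
      obtain ⟨h2, h3, h4⟩ := h
      obtain ⟨g1, g2, g3, g4⟩ := hu
      omega
    | _ => exact absurd h (by simp [Net.E])
  · cases u with
    | reg σ' l r x => exact hu.elim
    | _ => exact absurd h (by simp [Net.E])

/-- TASK E3d. Proof: `due_nbr`; all neighbours of a reg are doors or regs, which are not in `U`. -/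
theorem due_reg (hV : N.Valid k) (hT : N.Tame S M) (hi : i ≤ M) {σ : ℕ} {v : Vtx}
    (hv : v ∈ N.H S i) : v ∉ region σ := by
  rintro ⟨l, q, x, rfl⟩
  obtain ⟨u, h1, hu, huS, h | h⟩ := due_nbr hV hT hi hv
  · cases u with
    | door σ' t' => exact hu.elim
    | reg σ' l r x => exact hu.elim
    | _ => exact absurd h (by simp [Net.E])
  · cases u with
    | reg σ' l r x => exact hu.elim
    | _ => exact absurd h (by simp [Net.E])

/-- TASK E3e. Proof: `due_nbr`; `j = 0`: path `t + 3 = rt`, `t ≤ i - 1`, or stem 1: `rt + 1 ≤ (i - 1) + 2`; `j = 1`: stem 0: `rt ≤ (i-1) + 2`, or the root: `rt ≤ i - 1`. -/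
theorem due_stem (hV : N.Valid k) (hT : N.Tame S M) (hi : i ≤ M) {b w j : ℕ}
    (hv : Vtx.stem b w j ∈ N.H S i) : N.rt b w + j ≤ i + 2 := by
  obtain ⟨u, h1, hu, huS, h | h⟩ := due_nbr hV hT hi hv
  · cases u with
    | path σ' t' =>
      obtain ⟨h2, h3, h4, h5⟩ := h
      obtain ⟨g1, g2, g3, g4⟩ := hu
      omega
    | stem b' w' j' =>
      obtain ⟨h2, h3, h4, h5, h6⟩ := h
      obtain ⟨g1, g2, g3⟩ := hu
      subst h2 h3
      omega
    | _ => exact absurd h (by simp [Net.E])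
  · cases u with
    | stem b' w' j' =>
      obtain ⟨h2, h3, h4, h5, h6⟩ := h
      obtain ⟨g1, g2, g3⟩ := hu
      subst h2 h3
      omega
    | root b' w' =>
      obtain ⟨h2, h3, h4, h5⟩ := h
      obtain ⟨g1, g2⟩ := hu
      subst h2 h3
      omega
    | _ => exact absurd h (by simp [Net.E])

/-- TASK E3f. Proof: `due_nbr`; neighbours: `root b w` (a writer: `rt = rho w + 1 ≤ i - 1`) and `root b (l2)` (`rho w + 2 ≤ rho w + Lam ≤ rho l2 ≤ rt ≤ i - 1`; `w < l2` by
`hV.link1`, `hV.link2`, `Net.rho_lt`, `hV.hLam'`). -/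
theorem due_nod (hV : N.Valid k) (hT : N.Tame S M) (hi : i ≤ M) {b w : ℕ}
    (hv : Vtx.nod b w ∈ N.H S i) : N.rho w + 2 ≤ i := by
  have hLam := hV.hLam'
  obtain ⟨u, h1, hu, huS, h | h⟩ := due_nbr hV hT hi hv
  · cases u with
    | root b' w' =>
      obtain ⟨h2, h3, h4, h5, h6⟩ := h
      obtain ⟨g1, g2⟩ := hu
      subst h2 h3
      have hr : N.rt b w = N.rho w + 1 := by unfold Net.rt; rw [if_pos h5]
      omega
    | _ => exact absurd h (by simp [Net.E])
  · cases u with
    | root b' w' =>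
      obtain ⟨h2, h3, h4, h5, h6⟩ := h
      obtain ⟨g1, g2⟩ := hu
      subst h2
      have hb : b' / 2 < 8 := by have := h3.1; omega
      obtain ⟨a1, a2, -, -⟩ := hV.link1 w (b' / 2) h3.2.1 hb h4
      obtain ⟨a3, a4, -, -⟩ := hV.link2 w (b' / 2) h3.2.1 hb h4 h5
      have hl : w < w' := by omega
      have := N.rho_lt hl
      have := N.rho_le_rt b' w'
      omega
    | _ => exact absurd h (by simp [Net.E])

/-- TASK E3g. Proof: `due_nbr`; neighbours: the root (`rt ≤ i - 1`), chain `j ± 1`: first alternative of `U`: `rho w + dl + len + 1 ≤ (i - 1) + (j ± 1)` with `j ± 1 ≤ len`, `dl ≥ 16`; second: `rt + 1 ≤ rt + (j ± 1) ≤ i - 1`;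
path: `t ≥ rho w + 16`, `t ≤ i - 1`. (`rt ≤ rho w + 1`.) -/
theorem due_chain (hV : N.Valid k) (hT : N.Tame S M) (hi : i ≤ M) {b w c j : ℕ}
    (hv : Vtx.chain b w c j ∈ N.H S i) : N.rt b w + 1 ≤ i := by
  have hrt := N.rt_le b w
  obtain ⟨u, h1, hu, huS, h | h⟩ := due_nbr hV hT hi hv
  · cases u with
    | root b' w' =>
      obtain ⟨h2, h3, h4, h5, h6⟩ := h
      obtain ⟨g1, g2⟩ := hu
      subst h2 h3
      omega
    | chain b' w' c' j' =>
      obtain ⟨h2, h3, h3', h4, h5, h6, h7, h8⟩ := h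
      subst h2 h3 h3'
      obtain ⟨g1, g2, g3, g4, g5 | ⟨g5, g6, g7⟩⟩ := hu
      · have : 16 ≤ Net.dl b c := by unfold Net.dl; omega
        omega
      · omega
    | _ => exact absurd h (by simp [Net.E])
  · cases u with
    | path σ' t' =>
      obtain ⟨h2, h3, h4, h5, h6⟩ := h
      obtain ⟨g1, g2, g3, g4⟩ := hu
      have : 16 ≤ Net.dl b c := by unfold Net.dl; omega
      omega
    | chain b' w' c' j' =>
      obtain ⟨h2, h3, h3', h4, h5, h6, h7, h8⟩ := h
      subst h2 h3 h3'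
      obtain ⟨g1, g2, g3, g4, g5 | ⟨g5, g6, g7⟩⟩ := hu
      · have : 16 ≤ Net.dl b' c' := by unfold Net.dl; omega
        omega
      · omega
    | _ => exact absurd h (by simp [Net.E])

end Pool.Agent.Lib.MP_711ea9_lc.FH
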