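import Pool.Agent.Lib.MP_711ea9_lc.Mg.G005

set_option autoImplicit false

namespace Pool.Agent.Lib.MP_711ea9_lc.FH

open Finset

/-- TASK E4. When is a root due?
Proof. `i = i' + 1`, `Net.mem_H_succ`, so there is `u ∈ F i'`, hence `N.U S i' u` (`F_subset_U`) and `u ∉ S` (`Net.not_mem_of_F`), `N.E u v ∨ N.E v u` (`Net.adj_iff`). Neighbours of `root b w`:
stem 1: `rt + 1 ≤ i' + 2`: left. chain 1: first alternative of `U`: `rho w + dl + len + 1 ≤ i' + 1`, `dl ≥ 16`, `rt ≤ rho w + 1`: left; second alternative: `rt + 1 ≤ i'`: left.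
`root b w'` with `w = l1 w'`, a writer: `rt b w' = rho w' + 1 ≤ i'`, `root b w' = u ∉ S`, and `w' = fr w (b/2)`, `rd w (b/2)` by `hV.link1`: right. `root b (l1 w (b/2))` (if `w` is a writer): `rho (l1) ≤ rt ≤ i'` and
`rho w + 1 ≤ rho (l1)`: left. `nod b w` (own, writer): alternative 1: `rho l2 + 1 ≤ i'`, `w < l2`: left; alternative 2: `rho w + 2 ≤ i'`: left. `nod b w'` with `w = l2 w' (b/2)`: `w' = fr w (b/2)`, `rd w (b/2)` by `hV.link2`;
alternative 1: `rho w + 1 ≤ i'`: left (`rt ≤ rho w + 1`); alternative 2: `root b w' ∉ S`, `rho w' + 2 ≤ i'`: right, with `rho w' + 3 ≤ i`. (In the case `w = l1 w'` the last implication is void.) -/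
theorem due_root {N : Net} {k : ℕ} (hV : N.Valid k) {S : Set Vtx} {M i : ℕ} (hT : N.Tame S M)
    (hi : i ≤ M) {b w : ℕ} (hv : Vtx.root b w ∈ N.H S i) :
    N.rt b w ≤ i ∨ (N.rd w (b / 2) = true ∧ Vtx.root b (N.fr w (b / 2)) ∉ S ∧
      N.rho (N.fr w (b / 2)) + 2 ≤ i ∧
      (N.l1 (N.fr w (b / 2)) (b / 2) ≠ w → N.rho (N.fr w (b / 2)) + 3 ≤ i)) := by
  have hLam := hV.hLam'
  have hrt := N.rt_le b w
  obtain _ | i := i
  · exact absurd hv (by simp [Net.H, Th])
  obtain ⟨-, u, hu', hadj⟩ := Net.mem_H_succ.1 hv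
  have hu : N.U S i u := F_subset_U hV hT (by omega) hu'
  have huS : u ∉ S := Net.not_mem_of_F hT.src hu'
  rcases Net.adj_iff.1 hadj with h | h
  · cases u with
    | stem b' w' j' =>
      obtain ⟨h2, h3, h4, h5⟩ := h
      obtain ⟨g1, g2, g3⟩ := hu
      subst h2 h3
      left; omega
    | root b' w' =>
      obtain ⟨h2, h3, h4, h5, h6⟩ := h
      obtain ⟨g1, g2⟩ := hu
      subst h2
      have hb : b / 2 < 8 := by have := h3.1; omega
      obtain ⟨a1, a2, a3, a4⟩ := hV.link1 w' (b / 2) h3.2.1 hb h4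
      rw [← h5] at a3 a4
      have hr : N.rt b w' = N.rho w' + 1 := by unfold Net.rt; rw [if_pos h4]
      right
      rw [a4]
      exact ⟨a3, huS, by omega, fun hne => absurd h5.symm hne⟩
    | nod b' w' =>
      obtain ⟨h2, h3, h4, h5, h6⟩ := h
      obtain ⟨g1, g2, g3, g4⟩ := hu
      subst h2
      have hb : b / 2 < 8 := by have := h3.1; omega
      obtain ⟨a1, a2, a3, a4⟩ := hV.link2 w' (b / 2) h3.2.1 hb h4 h5
      rw [← h6] at a3 a4 g4
      rcases g4 with ⟨g4, g5⟩ | ⟨g4, g5⟩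
      · left; omega
      · right
        rw [a4]
        exact ⟨a3, g4, by omega, fun _ => by omega⟩
    | _ => exact absurd h (by simp [Net.E])
  · cases u with
    | root b' w' =>
      obtain ⟨h2, h3, h4, h5, h6⟩ := h
      obtain ⟨g1, g2⟩ := hu
      subst h2
      have hb : b' / 2 < 8 := by have := h3.1; omega
      have := N.rho_lt h6
      have := N.rho_le_rt b' w'
      left; omega
    | nod b' w' =>
      obtain ⟨h2, h3, h4, h5, h6⟩ := h
      obtain ⟨g1, g2, g3, g4⟩ := hu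
      subst h2 h3
      have hb : b' / 2 < 8 := by have := h4.1; omega
      obtain ⟨a1, a2, -, -⟩ := hV.link1 w' (b' / 2) h4.2.1 hb h5
      obtain ⟨a3, a4, -, -⟩ := hV.link2 w' (b' / 2) h4.2.1 hb h5 h6
      have := N.rho_lt (show w' < N.l2 w' (b' / 2) by omega)
      rcases g4 with ⟨g4, g5⟩ | ⟨g4, g5⟩
      · left; omega
      · left; omega
    | chain b' w' c' j' =>
      obtain ⟨h2, h3, h4, h5, h6⟩ := h
      obtain ⟨g1, g2, g3, g4, g5⟩ := hu
      subst h2 h3
      have : 16 ≤ Net.dl b' c' := by unfold Net.dl; omega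
      rcases g5 with g5 | ⟨g5, g6, g7⟩
      · left; omega
      · left; omega
    | _ => exact absurd h (by simp [Net.E])

end Pool.Agent.Lib.MP_711ea9_lc.FH
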