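import Pool.Agent.Lib.MP_711ea9_lc.FH.E3
import Pool.Agent.Lib.MP_711ea9_lc.FH.E4

set_option autoImplicit false

namespace Pool.Agent.Lib.MP_711ea9_lc.FH

open Finset

variable {N : Net} {k : ℕ} {st : ℕ → ℕ → Prop}

/-- The protected vertices of a solution. -/
def Net.Scan (N : Net) (st : ℕ → ℕ → Prop) : Set Vtx := fun v => match v with
  | .door σ t => N.isDoor σ t
  | .root b w => N.port b w ∧ st b w
  | .chain b w c j => N.port b w ∧ c < 2 ∧ j = N.len b w c ∧ ¬ st b w
  | _ => False

/-- The conditions on a solution. -/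
structure Net.IsSol (N : Net) (st : ℕ → ℕ → Prop) : Prop where
  wr : ∀ w p, w < N.nw → p < 8 → N.wr w p = true → (st (2 * p) w ↔ ¬ st (2 * p + 1) w)
  rd : ∀ w b, w < N.nw → b < 16 → N.rd w (b / 2) = true → (st b w ↔ ¬ st b (N.fr w (b / 2)))
  ok : ∀ w, w < N.nw → N.Ok st w

/-- TASK G2a. No door burns, and the hypotheses of the upper bound hold at all times.
Proof. `src`: clear. `door`: a burning door exists (`Net.isDoor_of_mem`), so it is in `Scan`, against `Net.not_mem_of_F`. `wd`: port and root not in `Scan` give `¬ st b w`; take `j = len b w c` (`≥ 2` by `hV.len_ge`). `we`: `¬ st b w`; `w' = l1 w (b/2)` is a reader with `fr w' (b/2) = w` and `w' < nw` (`hV.link1`), so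
`st b w'` by `hs.rd`; the same for `l2` (`hV.link2`). -/
theorem scan_tame (hV : N.Valid k) (hs : N.IsSol st) (M : ℕ) : N.Tame (N.Scan st) M := by
  have hsrc : Vtx.src 0 ∉ N.Scan st := fun h => h
  refine ⟨hsrc, ?_, ?_, ?_⟩
  · intro σ t h
    exact Net.not_mem_of_F hsrc h (Net.isDoor_of_mem h)
  · intro w hw _ b c hp hr hc
    refine ⟨N.len b w c, ?_, le_rfl, hp, hc, rfl, fun h => hr ⟨hp, h⟩⟩
    have := hV.len_ge b w c hp hc
    omega
  · intro w hw _ b hp hwr hr
    have hst : ¬ st b w := fun h => hr ⟨hp, h⟩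
    have hb : b < 16 := hp.1
    have hb8 : b / 2 < 8 := by omega
    refine ⟨?_, fun h2 => ?_⟩
    · obtain ⟨h3, h4, h5, h6⟩ := hV.link1 w (b / 2) hw hb8 hwr
      refine ⟨⟨hb, h4, Or.inl h5⟩, ?_⟩
      rw [hs.rd _ b h4 hb h5, h6]
      exact hst
    · obtain ⟨h3, h4, h5, h6⟩ := hV.link2 w (b / 2) hw hb8 hwr h2
      refine ⟨⟨hb, h4, Or.inl h5⟩, ?_⟩
      rw [hs.rd _ b h4 hb h5, h6]
      exact hst

/-- TASK G2b. The last vertex of a chain is due at `rt + len` at the earliest (any tame `S`).
Proof. `due_nbr`. Neighbours of `chain b w c len` (`len ≥ 2`): `chain (len - 1)`: first alternative of `U`: `rho w + dl + len + 1 ≤ (i - 1) + (len - 1)`, so `i ≥ rho w + 19`, and `rt + len ≤ rho w + 8` (`rt ≤ rho w + 1`, `len ≤ e w ≤ 7`); second: `rt + (len - 1) ≤ i - 1`. Path: `t ≥ rho w + 16`, `t ≤ i - 1`.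
(The neighbours root (`j = 1`) and `chain (len+1)` do not occur.) -/
theorem due_last (hV : N.Valid k) {S : Set Vtx} {M i : ℕ} (hT : N.Tame S M) (hi : i ≤ M)
    {b w c : ℕ} (hp : N.port b w) (hc : c < 2) (hv : Vtx.chain b w c (N.len b w c) ∈ N.H S i) :
    N.rt b w + N.len b w c ≤ i := by
  have hl2 := hV.len_ge b w c hp hc
  have hl7 : N.len b w c ≤ 7 := by
    obtain ⟨hb, hw, h | h⟩ := hp
    · exact (hV.len_rd b w c hb hw h hc).trans (hV.e_le w)
    · have h1 := hV.len_wr b w c hb hw h hc
      have h2 := hV.e_le w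
      omega
  have hrt : N.rt b w ≤ N.rho w + 1 := Net.rt_le b w
  have hdl : 16 ≤ Net.dl b c := by
    unfold Net.dl
    omega
  obtain ⟨u, h1, hu, huS, h | h⟩ := due_nbr hV hT hi hv
  · cases u with
    | root b' w' =>
      simp [Net.E] at h
      omega
    | chain b' w' c' j' =>
      simp [Net.E] at h
      obtain ⟨rfl, rfl, rfl, -, -, h2, h3⟩ := h
      simp only [Net.U] at hu
      obtain ⟨-, -, -, -, h4 | ⟨-, -, h4⟩⟩ := hu
      · omega
      · omega
    | src q => simp [Net.E] at h
    | path σ t => simp [Net.E] at h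
    | door σ t => simp [Net.E] at h
    | reg σ l r x => simp [Net.E] at h
    | stem b' w' j' => simp [Net.E] at h
    | nod b' w' => simp [Net.E] at h
  · cases u with
    | path σ t =>
      simp [Net.E] at h
      simp only [Net.U] at hu
      omega
    | chain b' w' c' j' =>
      simp [Net.E] at h
      omega
    | src q => simp [Net.E] at h
    | root b' w' => simp [Net.E] at h
    | door σ t => simp [Net.E] at h
    | reg σ l r x => simp [Net.E] at h
    | stem b' w' j' => simp [Net.E] at h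
    | nod b' w' => simp [Net.E] at h

/-- The vertex of a unit in a solution. -/
def Net.uv (N : Net) (w : ℕ) (x : ℕ × ℕ) : Vtx :=
  if x.2 < 2 then Vtx.chain x.1 w x.2 (N.len x.1 w x.2)
  else if x.2 = 2 then Vtx.root x.1 w
  else if x.2 = 3 then Vtx.root x.1 (N.l1 w (x.1 / 2))
  else Vtx.root x.1 (N.l2 w (x.1 / 2))

/-- TASK G2c. Which vertices are due by time `i` in a solution?
Proof. `v ∈ Scan` (`Net.H_subset`), tame by `scan_tame` with `M = i`. `v` a door: `due_door`. `v = chain b w c len`, `¬ st b w`: `due_last`; unit `(b, c)` of window `w` is active, `rho w + due = rt b w + len` (unfold). `v = root b w`, port, `st b w`: if `w` is a writer: `due_root`: `rt b w = rho w + 1 ≤ i` (the second alternative is excluded by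
`hV.excl`): unit `(b, 2)`, `due = 1`. If it is a reader: `w' = fr w (b/2)`: a writer (`hV.source`), `¬ st b w'` (`hs.rd`), `w' < w`. If `l1 w' = w`: unit `(b, 3)` of `w'`, `due = 2`: `rho w' + 2 ≤ i` in both alternatives of `due_root` (`rho w' + 400 ≤ rho w ≤ rt`). Otherwise `l2 w' = w`: unit `(b, 4)`, `due = 3`,
`rho w' + 3 ≤ i` in both alternatives. -/
theorem scan_due (hV : N.Valid k) (hs : N.IsSol st) {i : ℕ} {v : Vtx}
    (hv : v ∈ N.H (N.Scan st) i) :
    (∃ σ t, v = Vtx.door σ t ∧ N.isDoor σ t ∧ t ≤ i) ∨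
    ∃ w x, w < N.nw ∧ x ∈ range 16 ×ˢ range 5 ∧ N.act st w x.1 x.2 ∧
      N.rho w + N.due w x.1 x.2 ≤ i ∧ v = N.uv w x := by
  have hT := scan_tame hV hs i
  have hvS : v ∈ N.Scan st := Net.H_subset i hv
  cases v with
  | src q => exact absurd hvS (fun h => h)
  | path σ t => exact absurd hvS (fun h => h)
  | reg σ l r x => exact absurd hvS (fun h => h)
  | stem b w j => exact absurd hvS (fun h => h)
  | nod b w => exact absurd hvS (fun h => h)
  | door σ t => exact Or.inl ⟨σ, t, rfl, hvS, due_door hV hT le_rfl hv⟩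
  | chain b w c j =>
    obtain ⟨hp, hc, hj, hst⟩ := hvS
    subst hj
    have h1 := due_last hV hT le_rfl hp hc hv
    refine Or.inr ⟨w, (b, c), hp.2.1, ?_, ⟨hp, Or.inl ⟨hc, hst⟩⟩, ?_, ?_⟩
    · have hb := hp.1
      simp only [mem_product, mem_range]
      omega
    · show N.rho w + N.due w b c ≤ i
      unfold Net.due
      unfold Net.rt at h1
      rw [if_pos hc]
      omega
    · unfold Net.uv
      rw [if_pos hc]
  | root b w =>
    obtain ⟨hp, hst⟩ := hvS
    obtain ⟨hb, hw, hrw⟩ := hp
    have hb8 : b / 2 < 8 := by omega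
    have hd := due_root hV hT le_rfl hv
    by_cases hwr : N.wr w (b / 2) = true
    · refine Or.inr ⟨w, (b, 2), hw, ?_, ⟨⟨hb, hw, hrw⟩, Or.inr (Or.inl ⟨rfl, hwr, hst⟩)⟩, ?_, ?_⟩
      · simp only [mem_product, mem_range]
        omega
      · have hrt : N.rt b w = N.rho w + 1 := by
          unfold Net.rt
          rw [if_pos hwr]
        show N.rho w + N.due w b 2 ≤ i
        have hdu : N.due w b 2 = 1 := by
          unfold Net.due
          simp
        rcases hd with h | ⟨h, -⟩
        · omega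
        · have := hV.excl w (b / 2) hw hb8 h
          rw [this] at hwr
          exact absurd hwr (by decide)
      · rfl
    · have hrd : N.rd w (b / 2) = true := by
        rcases hrw with h | h
        · exact h
        · exact absurd h hwr
      obtain ⟨h1, h2, h3⟩ := hV.source w (b / 2) hw hb8 hrd
      have hst' : ¬ st b (N.fr w (b / 2)) := (hs.rd w b hw hb hrd).1 hst
      have hp' : N.port b (N.fr w (b / 2)) := ⟨hb, h1, Or.inr h2⟩
      have hL := hV.hLam'
      obtain ⟨k1, k2, k3, k4⟩ := hV.link1 _ (b / 2) h1 hb8 h2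
      have hrr : N.rho w ≤ N.rt b w := Net.rho_le_rt b w
      by_cases hl : N.l1 (N.fr w (b / 2)) (b / 2) = w
      · rw [hl] at k1
        have h4 : N.rho (N.fr w (b / 2)) + N.Lam ≤ N.rho w := Net.rho_lt k1
        refine Or.inr ⟨N.fr w (b / 2), (b, 3), h1, ?_,
          ⟨hp', Or.inr (Or.inr (Or.inl ⟨rfl, h2, hst'⟩))⟩, ?_, ?_⟩
        · simp only [mem_product, mem_range]
          omega
        · show N.rho (N.fr w (b / 2)) + N.due (N.fr w (b / 2)) b 3 ≤ i
          have hdu : N.due (N.fr w (b / 2)) b 3 = 2 := by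
            unfold Net.due
            simp
          rcases hd with h | ⟨-, -, h, -⟩
          · omega
          · omega
        · show Vtx.root b w = Vtx.root b (N.l1 (N.fr w (b / 2)) (b / 2))
          rw [hl]
      · obtain ⟨h5, h6⟩ : N.l2 (N.fr w (b / 2)) (b / 2) ≠ 0 ∧
            N.l2 (N.fr w (b / 2)) (b / 2) = w := by
          rcases h3 with h3 | h3
          · exact absurd h3 hl
          · exact h3
        obtain ⟨m1, m2, m3, m4⟩ := hV.link2 _ (b / 2) h1 hb8 h2 h5
        rw [h6] at m1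
        have h4 : N.rho (N.fr w (b / 2)) + N.Lam ≤ N.rho w := Net.rho_lt (k1.trans m1)
        refine Or.inr ⟨N.fr w (b / 2), (b, 4), h1, ?_,
          ⟨hp', Or.inr (Or.inr (Or.inr ⟨rfl, h2, hst', h5⟩))⟩, ?_, ?_⟩
        · simp only [mem_product, mem_range]
          omega
        · show N.rho (N.fr w (b / 2)) + N.due (N.fr w (b / 2)) b 4 ≤ i
          have hdu : N.due (N.fr w (b / 2)) b 4 = 3 := by
            unfold Net.due
            simp
          rcases hd with h | ⟨-, -, -, h⟩
          · omega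
          · have := h hl
            omega
        · show Vtx.root b w = Vtx.root b (N.l2 (N.fr w (b / 2)) (b / 2))
          rw [h6]

end Pool.Agent.Lib.MP_711ea9_lc.FH
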