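import Pool.Agent.Lib.MP_711ea9_lc.FH.Tm

set_option autoImplicit false

namespace Pool.Agent.Lib.MP_711ea9_lc.FH

open Finset Cmd

private lemma j2_width_pos {k : ℕ} (t : Tm k) : 1 ≤ t.width := by
  induction t with
  | var i => simp [Tm.width]
  | const c => simp [Tm.width]
  | arr t ih => simpa [Tm.width] using ih
  | add s t ihs iht => simp only [Tm.width]; omega
  | sub s t ihs iht => simp only [Tm.width]; omega
  | mul s t ihs iht => simp only [Tm.width]; omega
  | div s t ihs iht => simp only [Tm.width]; omega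
  | mod s t ihs iht => simp only [Tm.width]; omega
  | cond c s t ihc ihs iht => simp only [Tm.width]; omega
  | sum n b ihn ihb => simp only [Tm.width]; omega

/-- The specification of the program of a term. -/
private def J2Spec {k : ℕ} (t : Tm k) : Prop := ∀ (ρ : Fin k → ℕ) (r : ℕ) (σ : Store),
    (∀ i, ρ i < r) →
    ((t.comp ρ r).exec σ).var r = t.eval (σ.arr 0) (fun i => σ.var (ρ i)) ∧
    (∀ x, x < r ∨ r + t.width ≤ x → ((t.comp ρ r).exec σ).var x = σ.var x) ∧
    ((t.comp ρ r).exec σ).arr = σ.arr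

private lemma j2_bin {k : ℕ} {s t : Tm k} (hs : J2Spec s) (ht : J2Spec t) (ρ : Fin k → ℕ) (r : ℕ)
    (σ : Store) (hρ : ∀ i, ρ i < r) :
    ((t.comp ρ (r + 1)).exec ((s.comp ρ r).exec σ)).var r =
      s.eval (σ.arr 0) (fun i => σ.var (ρ i)) ∧
    ((t.comp ρ (r + 1)).exec ((s.comp ρ r).exec σ)).var (r + 1) =
      t.eval (σ.arr 0) (fun i => σ.var (ρ i)) ∧
    (∀ x, x < r ∨ r + max s.width (t.width + 1) ≤ x →
      ((t.comp ρ (r + 1)).exec ((s.comp ρ r).exec σ)).var x = σ.var x) ∧
    ((t.comp ρ (r + 1)).exec ((s.comp ρ r).exec σ)).arr = σ.arr := by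
  obtain ⟨h1, h2, h3⟩ := hs ρ r σ hρ
  obtain ⟨g1, g2, g3⟩ := ht ρ (r + 1) ((s.comp ρ r).exec σ) (fun i => (hρ i).trans (by omega))
  have e1 : (fun i => ((s.comp ρ r).exec σ).var (ρ i)) = fun i => σ.var (ρ i) := by
    funext i; exact h2 _ (Or.inl (hρ i))
  rw [h3, e1] at g1
  refine ⟨?_, g1, ?_, ?_⟩
  · rw [g2 r (Or.inl (by omega)), h1]
  · intro x hx
    rw [g2 x (by omega), h2 x (by omega)]
  · rw [g3, h3]

private lemma j2_fin {k : ℕ} {s t : Tm k} (hs : J2Spec s) (ht : J2Spec t) (op : Expr) (v : ℕ)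
    (ρ : Fin k → ℕ) (r : ℕ) (σ : Store) (hρ : ∀ i, ρ i < r)
    (hop : ∀ τ : Store, τ.var r = s.eval (σ.arr 0) (fun i => σ.var (ρ i)) →
      τ.var (r + 1) = t.eval (σ.arr 0) (fun i => σ.var (ρ i)) → op.eval τ = v) :
    (((Cmd.seq (s.comp ρ r) (Cmd.seq (t.comp ρ (r + 1)) (Cmd.set r op))).exec σ).var r = v) ∧
    (∀ x, x < r ∨ r + max s.width (t.width + 1) ≤ x →
      ((Cmd.seq (s.comp ρ r) (Cmd.seq (t.comp ρ (r + 1)) (Cmd.set r op))).exec σ).var x =
        σ.var x) ∧
    ((Cmd.seq (s.comp ρ r) (Cmd.seq (t.comp ρ (r + 1)) (Cmd.set r op))).exec σ).arr = σ.arr := by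
  obtain ⟨h1, h2, h3, h4⟩ := j2_bin hs ht ρ r σ hρ
  rw [exec_seq, exec_seq, exec_set]
  refine ⟨?_, ?_, h4⟩
  · dsimp only
    rw [Function.update_self]
    exact hop _ h1 h2
  · intro x hx
    have hne : x ≠ r := by omega
    dsimp only
    rw [Function.update_of_ne hne]
    exact h3 x hx

private lemma j2_ext {k : ℕ} (ρ : Fin k → ℕ) (y : ℕ) (f : ℕ → ℕ) :
    (fun i => f (ext ρ y i)) = ext (fun i => f (ρ i)) (f y) := by
  funext i
  refine Fin.lastCases ?_ (fun j => ?_) i
  · simp [ext]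
  · simp [ext]

private lemma j2_ext_lt {k : ℕ} (ρ : Fin k → ℕ) (y z : ℕ) (h : ∀ i, ρ i < z) (hy : y < z) :
    ∀ i, ext ρ y i < z := by
  intro i
  refine Fin.lastCases ?_ (fun j => ?_) i
  · simpa [ext] using hy
  · simpa [ext] using h j

private lemma j2_mul {k : ℕ} {s t : Tm k} (hs : J2Spec s) (ht : J2Spec t) : J2Spec (s.mul t) := by
  intro ρ r σ hρ
  obtain ⟨h1, h2, h3, h4⟩ := j2_bin hs ht ρ r σ hρ
  simp only [Tm.comp, exec_seq, Tm.eval, Tm.width]
  set σ2 := (t.comp ρ (r + 1)).exec ((s.comp ρ r).exec σ) with hσ2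
  set S := s.eval (σ.arr 0) (fun i => σ.var (ρ i)) with hS
  set T := t.eval (σ.arr 0) (fun i => σ.var (ρ i)) with hT
  set σ3 := (Cmd.set (r + 2) (Expr.const 0)).exec σ2 with hσ3
  have a1 : σ3.var (r + 2) = 0 := by
    rw [hσ3, exec_set]; simp [Expr.eval]
  have a2 : ∀ x, x ≠ r + 2 → σ3.var x = σ2.var x := by
    intro x hx
    rw [hσ3, exec_set]
    simp [Function.update_of_ne hx]
  have a3 : σ3.arr = σ2.arr := rfl
  set body := Cmd.set (r + 2) (Expr.add (Expr.var (r + 2)) (Expr.var (r + 1))) with hbody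
  have hN : (Expr.var r).eval σ3 = S := by
    simp only [Expr.eval]
    rw [a2 r (by omega), h1]
  have hloop := loop_rule (e := Expr.var r) (c := body) (σ := σ3) hN
    (fun i τ => τ.var (r + 2) = i * T) (by simpa using a1) (by
      intro i _ τ hτ _ hI
      have hb : τ.var (r + 1) = T := by
        rw [hτ (r + 1) (by
          simp only [hbody, Cmd.wv]
          exact Bool.eq_false_iff.2 (fun h => absurd (Nat.eq_of_beq_eq_true h) (by omega)))]
        rw [a2 _ (by omega), h2]
      rw [hbody, exec_set]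
      simp only [Function.update_self, Expr.eval]
      rw [hI, hb]; ring)
  set σ4 := (Cmd.loop (Expr.var r) body).exec σ3 with hσ4
  have b2 : ∀ x, x ≠ r + 2 → σ4.var x = σ3.var x := by
    intro x hx
    rw [hσ4]
    apply frame_var
    simp only [Cmd.wv, hbody]
    exact Bool.eq_false_iff.2 (fun h => hx (Nat.eq_of_beq_eq_true h).symm)
  have b3 : σ4.arr = σ3.arr := by
    funext a
    rw [hσ4]
    apply frame_arr
    simp [Cmd.wa, hbody]
  refine ⟨?_, ?_, ?_⟩
  · rw [exec_set]
    simp only [Function.update_self, Expr.eval]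
    exact hloop
  · intro x hx
    rw [exec_set]
    have hne : x ≠ r := by omega
    simp only [Function.update_of_ne hne]
    rw [b2 x (by omega), a2 x (by omega), h3 x (by omega)]
  · rw [exec_set]
    simp only
    rw [b3, a3, h4]

private lemma j2_sum {k : ℕ} {n : Tm k} {b : Tm (k + 1)} (hn : J2Spec n) (hb : J2Spec b) :
    J2Spec (n.sum b) := by
  intro ρ r σ hρ
  obtain ⟨h1, h2, h3⟩ := hn ρ r σ hρ
  simp only [Tm.comp, exec_seq, Tm.eval, Tm.width]
  set σ1 := (n.comp ρ r).exec σ with hσ1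
  set A := σ.arr 0 with hA
  set e : Fin k → ℕ := (fun i => σ.var (ρ i)) with he
  set σ3 := (Cmd.set (r + 2) (Expr.const 0)).exec ((Cmd.set (r + 1) (Expr.const 0)).exec σ1)
    with hσ3
  have a1 : σ3.var (r + 1) = 0 := by
    rw [hσ3, exec_set, exec_set]; simp [Expr.eval, Function.update]
  have a1' : σ3.var (r + 2) = 0 := by
    rw [hσ3, exec_set, exec_set]; simp [Expr.eval, Function.update]
  have a2 : ∀ x, x ≠ r + 1 → x ≠ r + 2 → σ3.var x = σ1.var x := by
    intro x hx hx'
    rw [hσ3, exec_set, exec_set]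
    simp [Function.update_of_ne hx, Function.update_of_ne hx']
  have a3 : σ3.arr = σ.arr := by rw [← h3]; rfl
  have hN : (Expr.var r).eval σ3 = n.eval A e := by
    simp only [Expr.eval]
    rw [a2 r (by omega) (by omega), h1]
  have hloop := loop_rule (e := Expr.var r)
    (c := Cmd.seq (b.comp (ext ρ (r + 1)) (r + 3))
            (Cmd.seq (Cmd.set (r + 2) (Expr.add (Expr.var (r + 2)) (Expr.var (r + 3))))
              (Cmd.set (r + 1) (Expr.add (Expr.var (r + 1)) (Expr.const 1))))) (σ := σ3) hN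
    (fun i τ => τ.var (r + 1) = i ∧ τ.var (r + 2) = ∑ j ∈ range i, b.eval A (ext e j) ∧
      (∀ x, x ≤ r ∨ r + 3 + b.width ≤ x → τ.var x = σ3.var x) ∧ τ.arr = σ3.arr)
    ⟨a1, by simpa using a1', fun _ _ => rfl, rfl⟩ (by
      rintro i _ τ - - ⟨i1, i2, i3, i4⟩
      obtain ⟨c1, c2, c3⟩ := hb (ext ρ (r + 1)) (r + 3) τ
        (j2_ext_lt ρ (r + 1) (r + 3) (fun i => (hρ i).trans (by omega)) (by omega))
      have hev : (fun i => τ.var (ext ρ (r + 1) i)) = ext e i := by
        rw [j2_ext, i1]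
        congr 1
        funext j
        rw [he]
        have hj := hρ j
        rw [i3 _ (Or.inl hj.le), a2 _ (by omega) (by omega), h2 _ (Or.inl hj)]
      rw [hev, i4, a3] at c1
      simp only [exec_seq]
      set τ1 := (b.comp (ext ρ (r + 1)) (r + 3)).exec τ with hτ1
      have d1 : τ1.var (r + 1) = i := by rw [c2 _ (Or.inl (by omega)), i1]
      have d2 : τ1.var (r + 2) = ∑ j ∈ range i, b.eval A (ext e j) := by
        rw [c2 _ (Or.inl (by omega)), i2]
      rw [exec_set, exec_set]
      have n1 : r + 1 ≠ r + 2 := by omega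
      have n2 : r + 2 ≠ r + 1 := by omega
      refine ⟨?_, ?_, ?_, ?_⟩
      · dsimp only [Expr.eval]
        rw [Function.update_self, Function.update_of_ne n1, d1]
      · dsimp only [Expr.eval]
        rw [Function.update_of_ne n2, Function.update_self]
        rw [Finset.sum_range_succ, d2, c1]
      · intro x hx
        have n3 : x ≠ r + 1 := by omega
        have n4 : x ≠ r + 2 := by omega
        dsimp only [Expr.eval]
        rw [Function.update_of_ne n3, Function.update_of_ne n4]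
        rw [c2 _ (by omega), i3 x hx]
      · show τ1.arr = _
        rw [c3, i4])
  obtain ⟨l1, l2, l3, l4⟩ := hloop
  refine ⟨?_, ?_, ?_⟩
  · rw [exec_set]
    simp only [Function.update_self, Expr.eval]
    exact l2
  · intro x hx
    rw [exec_set]
    have hne : x ≠ r := by
      have := j2_width_pos n
      omega
    simp only [Function.update_of_ne hne]
    rw [l3 x (by omega), a2 x (by omega) (by omega), h2 x (by omega)]
  · rw [exec_set]
    simp only
    rw [l4, a3]

/-- TASK J2. The program of a term is correct.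
Proof. Induction on the term, generalizing `ρ r σ`; `Cmd.exec_seq`, `Cmd.exec_set`, `Function.update`. For binary operations: after `s.comp ρ r` the registers `ρ i < r` and `arr 0` are unchanged, register `r` holds the value of `s`; `t.comp ρ (r + 1)` does not change register `r` (frame).
`mul`: `loop_rule` (LangLemmas) with the invariant `τ.var (r+2) = i * (value of t)`, all other registers as before the loop. `sum`: `loop_rule` with the invariant: `τ.var (r+1) = i`, `τ.var (r+2) = ∑ j ∈ range i, b.eval A (ext e j)`, registers `x < r` and `x = r` unchanged, registers `x ≥ r + width` unchanged, arrays unchanged; for the body use the induction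
hypothesis with the register map `ext ρ (r+1)` (all values `< r + 3`) and `fun i => τ.var (ext ρ (r+1) i) = ext e (τ.var (r+1))`. Registers changed: only in `[r, r + width)` (`width` covers `r+1`, `r+2` in `mul`, `sum`). -/
theorem comp_spec {k : ℕ} (t : Tm k) : ∀ (ρ : Fin k → ℕ) (r : ℕ) (σ : Store), (∀ i, ρ i < r) →
    ((t.comp ρ r).exec σ).var r = t.eval (σ.arr 0) (fun i => σ.var (ρ i)) ∧
    (∀ x, x < r ∨ r + t.width ≤ x → ((t.comp ρ r).exec σ).var x = σ.var x) ∧
    ((t.comp ρ r).exec σ).arr = σ.arr := by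
  change J2Spec t
  induction t with
  | var i =>
    intro ρ r σ hρ
    simp only [Tm.comp, exec_set, Tm.eval, Tm.width, Expr.eval]
    refine ⟨by simp, fun x hx => ?_, trivial⟩
    rw [Function.update_of_ne (by omega)]
  | const c =>
    intro ρ r σ hρ
    simp only [Tm.comp, exec_set, Tm.eval, Tm.width, Expr.eval]
    refine ⟨by simp, fun x hx => ?_, trivial⟩
    rw [Function.update_of_ne (by omega)]
  | arr t ih =>
    intro ρ r σ hρ
    obtain ⟨h1, h2, h3⟩ := ih ρ r σ hρ
    have hw := j2_width_pos t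
    simp only [Tm.comp, exec_seq, exec_set, Tm.eval, Tm.width, Expr.eval]
    refine ⟨?_, fun x hx => ?_, h3⟩
    · rw [Function.update_self, h1, h3]
    · rw [Function.update_of_ne (by omega), h2 x hx]
  | add s t ihs iht =>
    intro ρ r σ hρ
    exact j2_fin ihs iht _ _ ρ r σ hρ (by intro τ h1 h2; simp only [Expr.eval, h1, h2]; rfl)
  | sub s t ihs iht =>
    intro ρ r σ hρ
    exact j2_fin ihs iht _ _ ρ r σ hρ (by intro τ h1 h2; simp only [Expr.eval, h1, h2]; rfl)
  | mul s t ihs iht => exact j2_mul ihs iht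
  | div s t ihs iht =>
    intro ρ r σ hρ
    exact j2_fin ihs iht _ _ ρ r σ hρ (by intro τ h1 h2; simp only [Expr.eval, h1, h2]; rfl)
  | mod s t ihs iht =>
    intro ρ r σ hρ
    exact j2_fin ihs iht _ _ ρ r σ hρ (by intro τ h1 h2; simp only [Expr.eval, h1, h2]; rfl)
  | cond c s t ihc ihs iht =>
    intro ρ r σ hρ
    obtain ⟨h1, h2, h3⟩ := ihc ρ r σ hρ
    have e1 : (fun i => ((c.comp ρ r).exec σ).var (ρ i)) = fun i => σ.var (ρ i) := by
      funext i; exact h2 _ (Or.inl (hρ i))
    simp only [Tm.comp, exec_seq, Tm.eval, Tm.width]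
    by_cases hc : c.eval (σ.arr 0) (fun i => σ.var (ρ i)) = 0
    · obtain ⟨g1, g2, g3⟩ := iht ρ r ((c.comp ρ r).exec σ) hρ
      rw [exec_ite_neg (by simp only [Expr.eval, h1, hc])]
      rw [h3, e1] at g1
      refine ⟨?_, fun x hx => ?_, by rw [g3, h3]⟩
      · rw [g1, if_neg (by simpa using hc)]
      · rw [g2 x (by omega), h2 x (by omega)]
    · obtain ⟨g1, g2, g3⟩ := ihs ρ r ((c.comp ρ r).exec σ) hρ
      rw [exec_ite_pos (by simp only [Expr.eval, h1]; exact hc)]
      rw [h3, e1] at g1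
      refine ⟨?_, fun x hx => ?_, by rw [g3, h3]⟩
      · rw [g1, if_pos hc]
      · rw [g2 x (by omega), h2 x (by omega)]
  | sum n b ihn ihb => exact j2_sum ihn ihb

end Pool.Agent.Lib.MP_711ea9_lc.FH
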