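import Pool.Agent.Lib.MP_711ea9_lc.FH.Prog
import Pool.Agent.Lib.MP_711ea9_lc.FH.J2

set_option autoImplicit false

namespace Pool.Agent.Lib.MP_711ea9_lc.FH

open Finset Cmd

variable {tn tk tq : Tm 1} {tb : Tm 3} {M n k q w : ℕ} {A B : ℕ → ℕ} {σ : Store}

private theorem J9_clr (w : ℕ) : ∀ σ : Store, ((clr w).exec σ).arr = σ.arr ∧
    ∀ x, ((clr w).exec σ).var x = if 3 ≤ x ∧ x < w + 3 then 0 else σ.var x := by
  induction w with
  | zero =>
    intro σ
    refine ⟨rfl, fun x => ?_⟩
    rw [if_neg (by omega)]
    rfl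
  | succ w ih =>
    intro σ
    obtain ⟨h1, h2⟩ := ih σ
    refine ⟨h1, fun x => ?_⟩
    change Function.update ((clr w).exec σ).var (w + 3) 0 x = _
    by_cases hx : x = w + 3
    · rw [hx, Function.update_self, if_pos (by omega)]
    · rw [Function.update_of_ne hx, h2]
      by_cases h3 : 3 ≤ x ∧ x < w + 3
      · rw [if_pos h3, if_pos (by omega)]
      · rw [if_neg h3, if_neg (by omega)]

private theorem J9_set4 (h : PSt σ M n k q w A B) (hw : 5 ≤ w) (c : ℕ) :
    PSt (⟨Function.update σ.var 4 c, σ.arr⟩ : Store) M n k q w A B where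
  v0 := by
    change Function.update σ.var 4 c 0 = M
    rw [Function.update_of_ne (by norm_num)]
    exact h.v0
  v1 := by
    change Function.update σ.var 4 c 1 = n
    rw [Function.update_of_ne (by norm_num)]
    exact h.v1
  v2 := by
    change Function.update σ.var 4 c 2 = k
    rw [Function.update_of_ne (by norm_num)]
    exact h.v2
  v3 := by
    change Function.update σ.var 4 c 3 = q
    rw [Function.update_of_ne (by norm_num)]
    exact h.v3
  vw := fun x hx => by
    change Function.update σ.var 4 c x = 0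
    rw [Function.update_of_ne (by omega)]
    exact h.vw x hx
  a0 := h.a0
  a1 := h.a1
  a2 := h.a2

/-- TASK J9a. The head. Proof: `comp_spec` three times (`ρ = fun _ => 0 < 3`), `Cmd.exec_seq`, `Cmd.exec_set`, `Function.update`. The result of each term is in register 3, the registers 0, 1, 2 are not changed by `comp _ 3`. -/
theorem head_spec (h0 : σ.var 0 = M) (h1 : ∀ x, 1 ≤ x → σ.var x = 0) (ha : σ.arr 0 = A)
    (ha' : ∀ a, 1 ≤ a → σ.arr a = fun _ => 0)
    (hw : tn.width + tk.width + tq.width + 5 ≤ w) :
    PSt ((prHead tn tk tq).exec σ) M (tn.eval A (fun _ => M)) (tk.eval A (fun _ => M))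
      (tq.eval A (fun _ => M)) w A (fun _ => 0) := by
  obtain ⟨a1, a2, a3⟩ := comp_spec tn (fun _ => 0) 3 σ (fun _ => by norm_num)
  obtain ⟨σ1, hσ1⟩ : ∃ τ, τ = (tn.comp (fun _ => 0) 3).exec σ := ⟨_, rfl⟩
  rw [← hσ1] at a1 a2 a3
  obtain ⟨σ2, hσ2⟩ : ∃ τ : Store, τ = ⟨Function.update σ1.var 1 (σ1.var 3), σ1.arr⟩ := ⟨_, rfl⟩
  obtain ⟨b1, b2, b3⟩ := comp_spec tk (fun _ => 0) 3 σ2 (fun _ => by norm_num)
  obtain ⟨σ3, hσ3⟩ : ∃ τ, τ = (tk.comp (fun _ => 0) 3).exec σ2 := ⟨_, rfl⟩
  rw [← hσ3] at b1 b2 b3
  obtain ⟨σ4, hσ4⟩ : ∃ τ : Store, τ = ⟨Function.update σ3.var 2 (σ3.var 3), σ3.arr⟩ := ⟨_, rfl⟩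
  obtain ⟨c1, c2, c3⟩ := comp_spec tq (fun _ => 0) 3 σ4 (fun _ => by norm_num)
  obtain ⟨σ5, hσ5⟩ : ∃ τ, τ = (tq.comp (fun _ => 0) 3).exec σ4 := ⟨_, rfl⟩
  rw [← hσ5] at c1 c2 c3
  have hex : (prHead tn tk tq).exec σ = σ5 := by
    rw [hσ5, hσ4, hσ3, hσ2, hσ1]
    rfl
  rw [hex]
  have v2 : ∀ x, x ≠ 1 → σ2.var x = σ1.var x := fun x hx => by
    rw [hσ2]
    change Function.update σ1.var 1 (σ1.var 3) x = _
    rw [Function.update_of_ne hx]
  have v2' : σ2.var 1 = σ1.var 3 := by
    rw [hσ2]
    change Function.update σ1.var 1 (σ1.var 3) 1 = _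
    rw [Function.update_self]
  have v4 : ∀ x, x ≠ 2 → σ4.var x = σ3.var x := fun x hx => by
    rw [hσ4]
    change Function.update σ3.var 2 (σ3.var 3) x = _
    rw [Function.update_of_ne hx]
  have v4' : σ4.var 2 = σ3.var 3 := by
    rw [hσ4]
    change Function.update σ3.var 2 (σ3.var 3) 2 = _
    rw [Function.update_self]
  have r2 : σ2.arr = σ.arr := by
    rw [← a3, hσ2]
  have r4 : σ4.arr = σ.arr := by
    rw [← r2, ← b3, hσ4]
  have r5 : σ5.arr = σ.arr := by rw [c3, r4]
  have m1 : σ1.var 0 = M := by rw [a2 0 (by omega), h0]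
  have m2 : σ2.var 0 = M := by rw [v2 0 (by norm_num), m1]
  have m3 : σ3.var 0 = M := by rw [b2 0 (by omega), m2]
  have m4 : σ4.var 0 = M := by rw [v4 0 (by norm_num), m3]
  constructor
  · rw [c2 0 (by omega), m4]
  · rw [c2 1 (by omega), v4 1 (by norm_num), b2 1 (by omega), v2', a1, ha, h0]
  · rw [c2 2 (by omega), v4', b1, r2, ha, m2]
  · rw [c1, r4, ha, m4]
  · intro x hx
    rw [c2 x (by omega), v4 x (by omega), b2 x (by omega), v2 x (by omega), a2 x (by omega),
      h1 x (by omega)]
  · rw [r5, ha]
  · rw [r5, ha' 1 le_rfl]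
  · intro a h2
    rw [r5, ha' a (by omega)]

/-- TASK J9b. One pass of the first loop. Proof: `comp_spec` with `ρ = ![0, 1, 4]` (all `< 5`: `Fin.forall_fin_succ` or `fin_cases`), the environment `fun j => σ.var (![0, 1, 4] j)` is `![M, n, i]`. -/
theorem body_spec (h : PSt σ M n k q w A B) (hw : tb.width + 5 ≤ w) {i : ℕ} (hi : σ.var 4 = i) :
    PSt ((prBody tb).exec σ) M n k q w A
      (fun j => if j = i then tb.eval A ![M, n, i] else B j) ∧
    ((prBody tb).exec σ).var 4 = i + 1 := by
  obtain ⟨a1, a2, a3⟩ := comp_spec tb ![0, 1, 4] 5 σ (fun i => by fin_cases i <;> norm_num)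
  obtain ⟨σ1, hσ1⟩ : ∃ τ, τ = (tb.comp ![0, 1, 4] 5).exec σ := ⟨_, rfl⟩
  rw [← hσ1] at a1 a2 a3
  have henv : (fun i => σ.var ((![0, 1, 4] : Fin 3 → ℕ) i)) = ![M, n, i] := by
    funext j
    fin_cases j
    · exact h.v0
    · exact h.v1
    · exact hi
  rw [henv, h.a0] at a1
  have h4 : σ1.var 4 = i := by rw [a2 4 (by omega), hi]
  obtain ⟨σ2, hσ2⟩ : ∃ τ : Store, τ = ⟨σ1.var, Function.update σ1.arr 1
    (Function.update (σ1.arr 1) (σ1.var 4) (σ1.var 5))⟩ := ⟨_, rfl⟩
  have hex : (prBody tb).exec σ = ⟨Function.update σ2.var 4 (σ2.var 4 + 1), σ2.arr⟩ := by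
    rw [hσ2, hσ1]
    rfl
  have hv2 : σ2.var = σ1.var := by rw [hσ2]
  have hP : PSt σ2 M n k q w A (fun j => if j = i then tb.eval A ![M, n, i] else B j) := by
    constructor
    · rw [hv2, a2 0 (by omega), h.v0]
    · rw [hv2, a2 1 (by omega), h.v1]
    · rw [hv2, a2 2 (by omega), h.v2]
    · rw [hv2, a2 3 (by omega), h.v3]
    · intro x hx
      rw [hv2, a2 x (by omega), h.vw x hx]
    · rw [hσ2]
      change Function.update σ1.arr 1
        (Function.update (σ1.arr 1) (σ1.var 4) (σ1.var 5)) 0 = A
      rw [Function.update_of_ne (by norm_num), a3, h.a0]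
    · rw [hσ2]
      change Function.update σ1.arr 1
        (Function.update (σ1.arr 1) (σ1.var 4) (σ1.var 5)) 1 = _
      rw [Function.update_self, a1, h4, a3, h.a1]
      funext j
      by_cases hj : j = i
      · rw [hj, Function.update_self, if_pos rfl]
      · rw [Function.update_of_ne hj, if_neg hj]
    · intro a ha
      rw [hσ2]
      change Function.update σ1.arr 1
        (Function.update (σ1.arr 1) (σ1.var 4) (σ1.var 5)) a = _
      rw [Function.update_of_ne (by omega), a3, h.a2 a ha]
  rw [hex]
  refine ⟨J9_set4 hP (by omega) _, ?_⟩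
  change Function.update σ2.var 4 (σ2.var 4 + 1) 4 = _
  rw [Function.update_self, hv2, h4]

/-- TASK J9c. The iterates of the first loop. Proof: induction on `i`, `Function.iterate_succ_apply'`, `body_spec` (`funext j`, cases `j < i`, `j = i`, `j > i`). -/
theorem iter_spec (h : PSt σ M n k q w A (fun _ => 0)) (hw : tb.width + 5 ≤ w)
    (h4 : σ.var 4 = 0) (i : ℕ) :
    PSt (((prBody tb).exec)^[i] σ) M n k q w A
      (fun j => if j < i then tb.eval A ![M, n, j] else 0) ∧
    (((prBody tb).exec)^[i] σ).var 4 = i := by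
  induction i with
  | zero =>
    refine ⟨?_, h4⟩
    have : (fun j => if j < 0 then tb.eval A ![M, n, j] else 0) = fun _ => 0 := by
      funext j
      rw [if_neg (by omega)]
    rw [this]
    exact h
  | succ i ih =>
    obtain ⟨ih1, ih2⟩ := ih
    rw [Function.iterate_succ_apply']
    obtain ⟨h5, h6⟩ := body_spec (tb := tb) ih1 hw ih2
    refine ⟨?_, h6⟩
    have : (fun j => if j = i then tb.eval A ![M, n, i] else
        if j < i then tb.eval A ![M, n, j] else 0) =
        fun j => if j < i + 1 then tb.eval A ![M, n, j] else 0 := by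
      funext j
      by_cases hj : j = i
      · rw [if_pos hj, if_pos (by omega), hj]
      · rw [if_neg hj]
        by_cases hj' : j < i
        · rw [if_pos hj', if_pos (by omega)]
        · rw [if_neg hj', if_neg (by omega)]
    rw [← this]
    exact h5

/-- TASK J9d. The first loop. Proof: `prFill` sets register 4 to 0, then J9c with `i = q`. -/
theorem fill_spec (h : PSt σ M n k q w A (fun _ => 0)) (hw : tb.width + 5 ≤ w) :
    PSt ((prFill tb).exec σ) M n k q w A
      (fun j => if j < q then tb.eval A ![M, n, j] else 0) := by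
  have h' := J9_set4 h (by omega) 0
  have h4 : (⟨Function.update σ.var 4 0, σ.arr⟩ : Store).var 4 = 0 := by
    change Function.update σ.var 4 0 4 = 0
    rw [Function.update_self]
  have h5 := (iter_spec (tb := tb) h' hw h4 q).1
  have hex : (prFill tb).exec σ = ((prBody tb).exec)^[q] ⟨Function.update σ.var 4 0, σ.arr⟩ := by
    change ((prBody tb).exec)^[(⟨Function.update σ.var 4 0, σ.arr⟩ : Store).var 3]
      ⟨Function.update σ.var 4 0, σ.arr⟩ = _
    rw [h'.v3]
  rw [hex]
  exact h5

/-- TASK J9e. The second loop. Proof: the iterates: array 0 is `B` below `i` and `A` from `i` on, array 1 is `0` below `i` and `B` from `i` on. -/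
theorem copy_spec (h : PSt σ M n k q w A B) (hw : 5 ≤ w) (hA : ∀ j, q ≤ j → A j = 0)
    (hB : ∀ j, q ≤ j → B j = 0) :
    PSt (prCopy.exec σ) M n k q w B (fun _ => 0) := by
  have h' := J9_set4 h hw 0
  have h4 : (⟨Function.update σ.var 4 0, σ.arr⟩ : Store).var 4 = 0 := by
    change Function.update σ.var 4 0 4 = 0
    rw [Function.update_self]
  have key : ∀ i, PSt ((cpBody.exec)^[i] ⟨Function.update σ.var 4 0, σ.arr⟩) M n k q w
      (fun j => if j < i then B j else A j) (fun j => if j < i then 0 else B j) ∧
      ((cpBody.exec)^[i] ⟨Function.update σ.var 4 0, σ.arr⟩).var 4 = i := by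
    intro i
    induction i with
    | zero =>
      refine ⟨?_, h4⟩
      have e1 : (fun j => if j < 0 then B j else A j) = A := by
        funext j
        rw [if_neg (by omega)]
      have e2 : (fun j => if j < 0 then 0 else B j) = B := by
        funext j
        rw [if_neg (by omega)]
      rw [e1, e2]
      exact h'
    | succ i ih =>
      obtain ⟨ih1, ih2⟩ := ih
      rw [Function.iterate_succ_apply']
      generalize (cpBody.exec)^[i] ⟨Function.update σ.var 4 0, σ.arr⟩ = τ at ih1 ih2 ⊢
      have hP : PSt (⟨τ.var, Function.update (Function.update τ.arr 0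
          (Function.update (τ.arr 0) i (τ.arr 1 i))) 1
          (Function.update (Function.update τ.arr 0
          (Function.update (τ.arr 0) i (τ.arr 1 i)) 1) i 0)⟩ : Store) M n k q w
          (fun j => if j < i + 1 then B j else A j) (fun j => if j < i + 1 then 0 else B j) := by
        constructor
        · exact ih1.v0
        · exact ih1.v1
        · exact ih1.v2
        · exact ih1.v3
        · exact ih1.vw
        · change (Function.update (Function.update τ.arr 0 (Function.update (τ.arr 0) i (τ.arr 1 i))) 1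
            (Function.update (Function.update τ.arr 0
            (Function.update (τ.arr 0) i (τ.arr 1 i)) 1) i 0)) 0 = _
          rw [Function.update_of_ne (by norm_num), Function.update_self, ih1.a0, ih1.a1]
          funext j
          by_cases hj : j = i
          · rw [hj, Function.update_self, if_pos (by omega : i < i + 1)]
            exact if_neg (by omega)
          · rw [Function.update_of_ne hj]
            by_cases hj' : j < i
            · rw [if_pos hj', if_pos (by omega)]
            · rw [if_neg hj', if_neg (by omega)]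
        · change (Function.update (Function.update τ.arr 0 (Function.update (τ.arr 0) i (τ.arr 1 i))) 1
            (Function.update (Function.update τ.arr 0
            (Function.update (τ.arr 0) i (τ.arr 1 i)) 1) i 0)) 1 = _
          rw [Function.update_self, Function.update_of_ne (by norm_num), ih1.a1]
          funext j
          by_cases hj : j = i
          · rw [hj, Function.update_self, if_pos (by omega)]
          · rw [Function.update_of_ne hj]
            by_cases hj' : j < i
            · rw [if_pos hj', if_pos (by omega)]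
            · rw [if_neg hj', if_neg (by omega)]
        · intro a ha
          change (Function.update (Function.update τ.arr 0 (Function.update (τ.arr 0) i (τ.arr 1 i))) 1
            (Function.update (Function.update τ.arr 0
            (Function.update (τ.arr 0) i (τ.arr 1 i)) 1) i 0)) a = _
          rw [Function.update_of_ne (by omega), Function.update_of_ne (by omega), ih1.a2 a ha]
      have hex : cpBody.exec τ = ⟨Function.update τ.var 4 (τ.var 4 + 1),
          Function.update (Function.update τ.arr 0
          (Function.update (τ.arr 0) i (τ.arr 1 i))) 1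
          (Function.update (Function.update τ.arr 0
          (Function.update (τ.arr 0) i (τ.arr 1 i)) 1) i 0)⟩ := by
        rw [← ih2]
        rfl
      rw [hex]
      refine ⟨J9_set4 hP hw _, ?_⟩
      change Function.update τ.var 4 (τ.var 4 + 1) 4 = _
      rw [Function.update_self, ih2]
  have hex : prCopy.exec σ = (cpBody.exec)^[q] ⟨Function.update σ.var 4 0, σ.arr⟩ := by
    change (cpBody.exec)^[(⟨Function.update σ.var 4 0, σ.arr⟩ : Store).var 3]
      ⟨Function.update σ.var 4 0, σ.arr⟩ = _
    rw [h'.v3]
  rw [hex]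
  have e1 : (fun j => if j < q then B j else A j) = B := by
    funext j
    by_cases hj : j < q
    · rw [if_pos hj]
    · rw [if_neg hj, hA j (by omega), hB j (by omega)]
  have e2 : (fun j => if j < q then 0 else B j) = fun _ => 0 := by
    funext j
    by_cases hj : j < q
    · rw [if_pos hj]
    · rw [if_neg hj, hB j (by omega)]
  have := (key q).1
  rw [e1, e2] at this
  exact this

/-- TASK J9f. The end. Proof: induction on `w` for `clr` (registers `3, ..., w + 2` are cleared, nothing else changes). -/
theorem tail_spec (h : PSt σ M n k q w A (fun _ => 0)) :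
    ((prTail w).exec σ).var = (fun x => if x = 0 then n else if x = 2 then k else 0) ∧
    ((prTail w).exec σ).arr = (fun a j => if a = 0 then A j else 0) := by
  obtain ⟨h1, h2⟩ := J9_clr w
    (⟨Function.update (Function.update σ.var 0 (σ.var 1)) 1 0, σ.arr⟩ : Store)
  have hex : (prTail w).exec σ = (clr w).exec
    (⟨Function.update (Function.update σ.var 0 (σ.var 1)) 1 0, σ.arr⟩ : Store) := rfl
  rw [hex]
  constructor
  · funext x
    rw [h2 x]
    change (if 3 ≤ x ∧ x < w + 3 then 0 else
      Function.update (Function.update σ.var 0 (σ.var 1)) 1 0 x) = _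
    by_cases hx0 : x = 0
    · subst hx0
      rw [if_neg (by omega), if_pos rfl, Function.update_of_ne (by norm_num),
        Function.update_self, h.v1]
    · rw [if_neg hx0]
      by_cases hx2 : x = 2
      · subst hx2
        rw [if_neg (by omega), if_pos rfl, Function.update_of_ne (by norm_num),
          Function.update_of_ne (by norm_num), h.v2]
      · rw [if_neg hx2]
        by_cases hx1 : x = 1
        · subst hx1
          rw [if_neg (by omega), Function.update_self]
        · by_cases hx3 : x < w + 3
          · rw [if_pos (by omega)]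
          · rw [if_neg (by omega), Function.update_of_ne hx1, Function.update_of_ne hx0,
              h.vw x (by omega)]
  · rw [h1]
    funext a j
    change σ.arr a j = _
    by_cases ha0 : a = 0
    · rw [if_pos ha0, ha0, h.a0]
    · rw [if_neg ha0]
      by_cases ha1 : a = 1
      · rw [ha1, h.a1]
      · rw [h.a2 a (by omega)]

/-- TASK J9g. The program is correct. Proof: the pieces one after the other. -/
theorem prog_spec (h0 : σ.var 0 = M) (h1 : ∀ x, 1 ≤ x → σ.var x = 0) (ha : σ.arr 0 = A)
    (ha' : ∀ a, 1 ≤ a → σ.arr a = fun _ => 0) (hn : tn.eval A (fun _ => M) = n)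
    (hk : tk.eval A (fun _ => M) = k) (hq : tq.eval A (fun _ => M) = q)
    (hA : ∀ j, q ≤ j → A j = 0) :
    (prog tn tk tq tb).exec σ =
      ⟨fun x => if x = 0 then n else if x = 2 then k else 0,
       fun a j => if a = 0 then (if j < q then tb.eval A ![M, n, j] else 0) else 0⟩ := by
  obtain ⟨w, hw⟩ : ∃ w, w = tn.width + tk.width + tq.width + tb.width + 5 := ⟨_, rfl⟩
  have s1 := head_spec (tn := tn) (tk := tk) (tq := tq) (w := w) h0 h1 ha ha' (by omega)
  rw [hn, hk, hq] at s1
  have s2 := fill_spec (tb := tb) s1 (by omega)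
  have s3 := copy_spec s2 (by omega) hA (fun j hj => if_neg (by omega))
  obtain ⟨e1, e2⟩ := tail_spec s3
  have hex : (prog tn tk tq tb).exec σ =
      (prTail w).exec (prCopy.exec ((prFill tb).exec ((prHead tn tk tq).exec σ))) := by
    rw [hw]
    rfl
  rw [hex]
  generalize (prTail w).exec (prCopy.exec ((prFill tb).exec ((prHead tn tk tq).exec σ))) = τ
    at e1 e2 ⊢
  cases τ
  rw [Store.mk.injEq]
  exact ⟨e1, e2⟩

end Pool.Agent.Lib.MP_711ea9_lc.FH
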