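import Pool.Agent.Lib.MP_711ea9_lc.Mg.G005
import Pool.Agent.Lib.MP_711ea9_lc.FH.Code

set_option autoImplicit false

namespace Pool.Agent.Lib.MP_711ea9_lc.FH

namespace Sn

variable {M l : ℕ}

/-- TASK K3a. Bounds, with `l = log M + 1`. Proof: `log (3 M) ≤ log (4 M) = log M + 2 = l + 1` (`Nat.log_mono_right`, `Nat.log_mul_base`), so `aa ≤ 2 l + 3`. The others by the definitions, `l ≥ 1` (`nlinarith`, or `Nat.mul_le_mul`): `tau = 1800 (4 aa + 61) ≤ 1800 * 81 l`, `k0 ≤ 35 l`, `K ≤ 14 + 35 * 145800 l ^ 2`. -/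
theorem aa_le (hM : 1 ≤ M) (hl : l = Nat.log 2 M + 1) : aa M ≤ 5 * l := by
  have h1 : Nat.log 2 (3 * M) ≤ Nat.log 2 M + 2 := by
    have h2 : Nat.log 2 (3 * M) ≤ Nat.log 2 (M * 2 * 2) := Nat.log_mono_right (by omega)
    rw [Nat.log_mul_base (by norm_num) (by omega), Nat.log_mul_base (by norm_num) (by omega)] at h2
    exact h2
  unfold aa
  omega

theorem K_le (hM : 1 ≤ M) (hl : l = Nat.log 2 M + 1) : K M ≤ 6000000 * l ^ 2 := by
  have h1 := aa_le hM hl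
  have hl1 : 1 ≤ l := by omega
  have h2 : k0 M ≤ 35 * l := by unfold k0; omega
  have h3 : tau M ≤ 145800 * l := by unfold tau hm; omega
  have h4 : k0 M * tau M ≤ (35 * l) * (145800 * l) := Nat.mul_le_mul h2 h3
  have h5 : 1 ≤ l ^ 2 := Nat.one_le_pow _ _ (by omega)
  have h6 : (35 * l) * (145800 * l) = 5103000 * l ^ 2 := by ring
  unfold K
  omega

/-- `nw = (aa + 2) (3 M + 1) + M ≤ 7 l * (4 M) + M` -/
theorem nw_le (hM : 1 ≤ M) (hl : l = Nat.log 2 M + 1) : nw M ≤ 29 * l * M := by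
  have h1 := aa_le hM hl
  have hl1 : 1 ≤ l := by omega
  have h2 : (aa M + 2) * (3 * M + 1) ≤ (7 * l) * (4 * M) :=
    Nat.mul_le_mul (by omega) (by omega)
  have h3 : M ≤ l * M := Nat.le_mul_of_pos_left M (by omega)
  have h4 : (7 * l) * (4 * M) = 28 * (l * M) := by ring
  have h5 : 29 * l * M = 29 * (l * M) := by ring
  unfold nw c0
  omega

/-- `kk = (K + 24) (Lam (nw + 2) + 1)`, `Lam = K + 400` -/
theorem kk_le (hM : 1 ≤ M) (hl : l = Nat.log 2 M + 1) : kk M ≤ 2000000000000000 * l ^ 5 * M := by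
  have hK := K_le hM hl
  have hn := nw_le hM hl
  have hl1 : 1 ≤ l := by omega
  have h1 : 1 ≤ l ^ 2 := Nat.one_le_pow _ _ (by omega)
  have h2 : 1 ≤ l * M := Nat.mul_pos (by omega) (by omega)
  have h3 : nw M + 2 ≤ 31 * (l * M) := by
    have : 29 * l * M = 29 * (l * M) := by ring
    omega
  have h4 : Lam M ≤ 6000400 * l ^ 2 := by unfold Lam; omega
  have h5 : T M ≤ (6000400 * l ^ 2) * (31 * (l * M)) := by
    unfold T; exact Nat.mul_le_mul h4 h3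
  have h6 : 1 ≤ l ^ 2 * (l * M) := Nat.mul_pos (by omega) (by omega)
  have h7 : T M + 1 ≤ 186012401 * (l ^ 2 * (l * M)) := by
    have : (6000400 * l ^ 2) * (31 * (l * M)) = 186012400 * (l ^ 2 * (l * M)) := by ring
    omega
  have h8 : K M + 24 ≤ 6000024 * l ^ 2 := by omega
  have h9 : (K M + 24) * (T M + 1) ≤ (6000024 * l ^ 2) * (186012401 * (l ^ 2 * (l * M))) :=
    Nat.mul_le_mul h8 h7
  have h10 : (6000024 * l ^ 2) * (186012401 * (l ^ 2 * (l * M))) =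
      1116078870297624 * (l ^ 5 * M) := by ring
  have h11 : 2000000000000000 * l ^ 5 * M = 2000000000000000 * (l ^ 5 * M) := by ring
  unfold kk
  omega

/-- `h = log kk + 1`, `2 ^ log kk ≤ kk` (`Nat.pow_log_le_self`, `kk ≠ 0`) -/
theorem two_pow_h_le (hM : 1 ≤ M) : 2 ^ h M ≤ 2 * kk M := by
  have h0 : kk M ≠ 0 := by
    unfold kk
    exact Nat.mul_ne_zero (by omega) (by omega)
  have h1 : 2 ^ Nat.log 2 (kk M) ≤ kk M := Nat.pow_log_le_self 2 h0
  have h2 : 2 ^ h M = 2 ^ Nat.log 2 (kk M) * 2 := by unfold h; rw [pow_succ]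
  omega

/-- `h ≤ hm` follows from `Sn.htau` (`1800 (h + 1) ≤ tau = 1800 (hm + 1)`), `hm = 4 aa + 60` -/
theorem h_le (hM : 1 ≤ M) (hl : l = Nat.log 2 M + 1) : h M ≤ 80 * l := by
  have h1 := aa_le hM hl
  have h2 := htau hM
  have h3 : tau M = 1800 * (hm M + 1) := rfl
  have h4 : hm M = 4 * aa M + 60 := rfl
  omega

end Sn

/-- TASK K3b. The size of the graph. Proof: `Y = (22 + K) (h + 1) * 300 * (600 * 2 ^ h)`; all the bounds above. -/
theorem size_le : ∃ C : ℕ, ∀ (A : ℕ → ℕ) (M : ℕ), 1 ≤ M →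
    8 * (satNet A M).Y ≤ C * M * (Nat.log 2 M + 1) ^ 8 ∧
    Sn.K M + 400 ≤ C * (Nat.log 2 M + 1) ^ 2 := by
  refine ⟨8 * 6000022 * 81 * 300 * 600 * 4000000000000000, fun A M hM => ?_⟩
  obtain ⟨l, hl⟩ : ∃ l, l = Nat.log 2 M + 1 := ⟨_, rfl⟩
  rw [← hl]
  have hK := Sn.K_le hM hl
  have hkk := Sn.kk_le hM hl
  have hh := Sn.h_le hM hl
  have h2 := Sn.two_pow_h_le hM
  have hl1 : 1 ≤ l := by omega
  have h1 : 1 ≤ l ^ 2 := Nat.one_le_pow _ _ (by omega)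
  have e : (satNet A M).Y = (22 + Sn.K M) * (Sn.h M + 1) * 300 * (600 * 2 ^ Sn.h M) := rfl
  constructor
  · rw [e]
    calc 8 * ((22 + Sn.K M) * (Sn.h M + 1) * 300 * (600 * 2 ^ Sn.h M))
        ≤ 8 * ((6000022 * l ^ 2) * (81 * l) * 300 *
            (600 * (2 * (2000000000000000 * l ^ 5 * M)))) := by
          refine Nat.mul_le_mul_left _ (Nat.mul_le_mul (Nat.mul_le_mul_right _
            (Nat.mul_le_mul (by omega) (by omega))) (Nat.mul_le_mul_left _ ?_))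
          exact h2.trans (Nat.mul_le_mul_left _ hkk)
      _ = _ := by ring
  · have : Sn.K M + 400 ≤ 6000400 * l ^ 2 := by omega
    refine this.trans (Nat.mul_le_mul_right _ (by norm_num))

/-- TASK K3c. Lower bounds. Proof: `Y ≥ 2 ^ h > kk` (`Sn.kk_lt_h`) and `kk ≥ T ≥ nw ≥ M`. -/
theorem le_size (A : ℕ → ℕ) (M : ℕ) :
    M ≤ 8 * (satNet A M).Y ∧ Sn.kk M ≤ 8 * (satNet A M).Y ∧ 3 * M ≤ 8 * (satNet A M).Y := by
  have e : (satNet A M).Y = (22 + Sn.K M) * (Sn.h M + 1) * 300 * (600 * 2 ^ Sn.h M) := rfl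
  have h1 : 2 ^ Sn.h M ≤ (satNet A M).Y := by
    rw [e]
    calc 2 ^ Sn.h M = 1 * 1 * 1 * (1 * 2 ^ Sn.h M) := by ring
      _ ≤ _ := by
        refine Nat.mul_le_mul (Nat.mul_le_mul (Nat.mul_le_mul (by omega) (by omega))
          (by norm_num)) (Nat.mul_le_mul_right _ (by norm_num))
  have h2 : Sn.kk M < 2 ^ Sn.h M := Sn.kk_lt_h
  have h3 : Sn.T M + 1 ≤ Sn.kk M := by
    unfold Sn.kk
    exact Nat.le_mul_of_pos_left _ (by omega)
  have h4 : Sn.nw M + 2 ≤ Sn.T M := by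
    unfold Sn.T
    refine Nat.le_mul_of_pos_left _ ?_
    unfold Sn.Lam
    omega
  have h5 : 3 * M + 1 ≤ Sn.nw M := by
    unfold Sn.nw Sn.c0
    have : 3 * M + 1 ≤ (Sn.aa M + 2) * (3 * M + 1) := Nat.le_mul_of_pos_left _ (by omega)
    omega
  omega

end Pool.Agent.Lib.MP_711ea9_lc.FH
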