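import Mathlib

set_option autoImplicit false

namespace Pool.Agent.Lib.MP_711ea9_lc.FH

open Filter

/-- TASK K4a. Proof. `f (n m) / m = (f (n m) * log (n m) ^ 8 / n m) * (n m / (m * log (n m) ^ 8))` for `m ≥ 3` (`n m ≥ m ≥ 3`, so `log (n m) ≥ log m ≥ 1 > 0`: `Real.exp_one_lt_d9`, `Real.le_log_iff_exp_le`). The first factor tends to 0: `hf.comp` with `n m → ∞` (`tendsto_atTop_mono'`).
The second factor is between 0 and `C * ((log2 m + 1) / log m) ^ 8 ≤ C * 3 ^ 8`: `(Nat.log 2 m : ℝ) ≤ log m / log 2` (`Real.natLog_le_logb` or from `2 ^ Nat.log 2 m ≤ m` by `Real.log_le_log`, `Real.log_pow`), `Real.log_two_gt_d9`: `log2 m + 1 ≤ (3 / 2) log m + 1 ≤ 3 log m`. Conclude by `squeeze_zero'` (`(first factor) * (C * 3 ^ 8)` tends to 0). -/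
theorem asym {f n : ℕ → ℕ} {C : ℕ}
    (hf : Tendsto (fun n : ℕ => (f n : ℝ) * Real.log n ^ 8 / n) atTop (nhds 0))
    (hn : ∀ m, 1 ≤ m → m ≤ n m ∧ n m ≤ C * m * (Nat.log 2 m + 1) ^ 8) :
    Tendsto (fun m : ℕ => (f (n m) : ℝ) / m) atTop (nhds 0) := by
  have h3 : ∀ᶠ m : ℕ in atTop, 3 ≤ m := eventually_ge_atTop 3
  have hn1 : Tendsto n atTop atTop := by
    refine tendsto_atTop_mono' atTop ?_ tendsto_id
    filter_upwards [h3] with m hm
    exact (hn m (by omega)).1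
  have h1 := hf.comp hn1
  have h2 : Tendsto (fun m : ℕ => ((f (n m) : ℝ) * Real.log (n m) ^ 8 / (n m)) * (C * 3 ^ 8))
      atTop (nhds 0) := by
    have := h1.mul_const ((C : ℝ) * 3 ^ 8)
    simpa [Function.comp_def] using this
  refine squeeze_zero' ?_ ?_ h2
  · exact Eventually.of_forall fun m => by positivity
  · filter_upwards [h3] with m hm
    obtain ⟨ha, hb⟩ := hn m (by omega)
    have hm3 : (3 : ℝ) ≤ m := by exact_mod_cast hm
    have hm0 : (0 : ℝ) < m := by linarith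
    have hN : (m : ℝ) ≤ n m := by exact_mod_cast ha
    have hN0 : (0 : ℝ) < n m := by linarith
    have hlm : 1 ≤ Real.log m := by
      rw [Real.le_log_iff_exp_le hm0]
      have := Real.exp_one_lt_d9
      linarith
    have hlN : Real.log m ≤ Real.log (n m) := Real.log_le_log hm0 hN
    have hlog : (Nat.log 2 m : ℝ) ≤ 3 / 2 * Real.log m := by
      have h4 : ((2 : ℝ) ^ Nat.log 2 m) ≤ m := by
        exact_mod_cast Nat.pow_log_le_self 2 (by omega)
      have h5 := Real.log_le_log (by positivity) h4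
      rw [Real.log_pow] at h5
      have h6 := Real.log_two_gt_d9
      have h7 : (0 : ℝ) ≤ (Nat.log 2 m : ℝ) := by positivity
      nlinarith
    have hb' : (n m : ℝ) ≤ C * m * ((Nat.log 2 m : ℝ) + 1) ^ 8 := by exact_mod_cast hb
    have h8 : ((Nat.log 2 m : ℝ) + 1) ^ 8 ≤ (3 * Real.log (n m)) ^ 8 := by
      refine pow_le_pow_left₀ (by positivity) ?_ 8
      linarith
    have h9 : (n m : ℝ) ≤ C * m * (3 * Real.log (n m)) ^ 8 := by
      refine hb'.trans ?_
      exact mul_le_mul_of_nonneg_left h8 (by positivity)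
    rw [div_le_iff₀ hm0]
    have h10 : (f (n m) : ℝ) * Real.log (n m) ^ 8 / (n m) * (C * 3 ^ 8) * m =
        (f (n m) : ℝ) * ((C * m * (3 * Real.log (n m)) ^ 8) / (n m)) := by ring
    rw [h10]
    have h11 : (1 : ℝ) ≤ (C * m * (3 * Real.log (n m)) ^ 8) / (n m) := by
      rw [le_div_iff₀ hN0]; linarith
    have h12 : (0 : ℝ) ≤ (f (n m) : ℝ) := by positivity
    nlinarith

/-- TASK K4b. Proof. `Nat.log 2 (m + 2) ≤ log (m + 2) / log 2 ≤ 2 log (m + 2)`; `log (m + 2) / m → 0`: e.g. `Real.isLittleO_log_id_atTop` composed with `m ↦ (m : ℝ) + 2`, and `(m + 2) / m ≤ 3`. Or elementary: `Nat.log 2 (m + 2) ≤ 2 * Nat.sqrt (m + 2)` and `sqrt (m + 2) / m → 0`. -/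
theorem log_small (c : ℕ) :
    Tendsto (fun m : ℕ => ((c * (Nat.log 2 (m + 2) + 1) : ℕ) : ℝ) / m) atTop (nhds 0) := by
  have h1 : Tendsto (fun m : ℕ => Real.log ((m : ℝ) + 2) ^ 1 / (1 * ((m : ℝ) + 2) + (-2)))
      atTop (nhds 0) :=
    (Real.tendsto_pow_log_div_mul_add_atTop 1 (-2) 1 one_ne_zero).comp
      (tendsto_atTop_add_const_right atTop (2 : ℝ) tendsto_natCast_atTop_atTop)
  have h2 : Tendsto (fun m : ℕ => ((1 : ℝ)) / m) atTop (nhds 0) :=
    tendsto_const_div_atTop_nhds_zero_nat 1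
  have h3 : Tendsto (fun m : ℕ => (c : ℝ) * (2 * (Real.log ((m : ℝ) + 2) ^ 1 /
      (1 * ((m : ℝ) + 2) + (-2))) + 1 / m)) atTop (nhds 0) := by
    have := ((h1.const_mul 2).add h2).const_mul (c : ℝ)
    simpa using this
  refine squeeze_zero' ?_ ?_ h3
  · exact Eventually.of_forall fun m => by positivity
  · filter_upwards [eventually_ge_atTop 1] with m hm
    have hm0 : (0 : ℝ) < m := by exact_mod_cast hm
    have hlog : (Nat.log 2 (m + 2) : ℝ) ≤ 2 * Real.log ((m : ℝ) + 2) := by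
      have h4 : ((2 : ℝ) ^ Nat.log 2 (m + 2)) ≤ ((m + 2 : ℕ) : ℝ) := by
        exact_mod_cast Nat.pow_log_le_self 2 (by omega)
      have h5 := Real.log_le_log (by positivity) h4
      rw [Real.log_pow] at h5
      push_cast at h5
      have h6 := Real.log_two_gt_d9
      have h7 : (0 : ℝ) ≤ (Nat.log 2 (m + 2) : ℝ) := by positivity
      nlinarith
    have h8 : (1 * ((m : ℝ) + 2) + (-2)) = m := by ring
    rw [h8, pow_one]
    have h9 : (2 * (Real.log ((m : ℝ) + 2) / m) + 1 / m) = (2 * Real.log ((m : ℝ) + 2) + 1) / m := by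
      ring
    rw [h9, ← mul_div_assoc]
    push_cast
    refine div_le_div_of_nonneg_right ?_ hm0.le
    refine mul_le_mul_of_nonneg_left ?_ (by positivity)
    linarith

/-- TASK K4c. Proof. `g m = c * (log (m + 2) + 1) + f (n m) + 1`; sum of the limits of K4a, K4b and `1 / m → 0` (`tendsto_const_div_atTop_nhds_zero_nat`). Second part: `(m + 2) ^ c ≤ 2 ^ (c * (log (m + 2) + 1))` (`Nat.lt_pow_succ_log_self`), and `2 ^ a + 2 ^ b ≤ 2 ^ (a + b + 1)`. -/
theorem asym_sum {f n : ℕ → ℕ} {C c : ℕ}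
    (hf : Tendsto (fun n : ℕ => (f n : ℝ) * Real.log n ^ 8 / n) atTop (nhds 0))
    (hn : ∀ m, 1 ≤ m → m ≤ n m ∧ n m ≤ C * m * (Nat.log 2 m + 1) ^ 8) :
    ∃ g : ℕ → ℕ, Tendsto (fun m : ℕ => (g m : ℝ) / m) atTop (nhds 0) ∧
      ∀ m, (m + 2) ^ c + 2 ^ f (n m) ≤ 2 ^ g m := by
  refine ⟨fun m => c * (Nat.log 2 (m + 2) + 1) + f (n m) + 1, ?_, ?_⟩
  · have h1 := asym hf hn
    have h2 := log_small c
    have h3 : Tendsto (fun m : ℕ => ((1 : ℝ)) / m) atTop (nhds 0) :=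
      tendsto_const_div_atTop_nhds_zero_nat 1
    have h4 := (h2.add h1).add h3
    rw [add_zero, add_zero] at h4
    refine h4.congr fun m => ?_
    push_cast
    ring
  · intro m
    have h1 : m + 2 < 2 ^ (Nat.log 2 (m + 2) + 1) := Nat.lt_pow_succ_log_self (by norm_num) _
    have h2 : (m + 2) ^ c ≤ 2 ^ (c * (Nat.log 2 (m + 2) + 1)) := by
      rw [mul_comm, pow_mul]
      exact Nat.pow_le_pow_left h1.le c
    set a := c * (Nat.log 2 (m + 2) + 1)
    set b := f (n m)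
    have h3 : 2 ^ a ≤ 2 ^ (a + b) := Nat.pow_le_pow_right (by norm_num) (by omega)
    have h4 : 2 ^ b ≤ 2 ^ (a + b) := Nat.pow_le_pow_right (by norm_num) (by omega)
    have h5 : 2 ^ (a + b + 1) = 2 ^ (a + b) + 2 ^ (a + b) := by rw [pow_succ]; ring
    show (m + 2) ^ c + 2 ^ b ≤ 2 ^ (a + b + 1)
    omega

end Pool.Agent.Lib.MP_711ea9_lc.FH
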