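import Pool.Agent.Lib.MP_711ea9_lc.FH.Lay

set_option autoImplicit false

namespace Pool.Agent.Lib.MP_711ea9_lc.FH

variable {N : Net} {k : ℕ}

/-- What a non-isolated vertex looks like. -/
def Net.Ex (N : Net) : Vtx → Prop
  | .src q => q = 0
  | .path σ t => σ < 22 + N.K ∧ 1 ≤ t ∧ t ≤ N.T
  | .door σ t => σ < 22 + N.K ∧ 6 ≤ t ∧ t ≤ N.T
  | .reg σ l r x => σ < 22 + N.K ∧ l ≤ N.h ∧ r < 300 ∧ x < 600 * 2 ^ N.h
  | .stem b w j => N.port b w ∧ j < 2
  | .root b w => N.port b w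
  | .nod b w => N.port b w ∧ N.wr w (b / 2) = true ∧ N.l2 w (b / 2) ≠ 0
  | .chain b w c j => N.port b w ∧ c < 2 ∧ 1 ≤ j ∧ j ≤ N.len b w c ∧ N.len b w c ≤ 7

private theorem L1_rho (hV : N.Valid k) {w : ℕ} (hw : w < N.nw) : N.rho w + 400 ≤ N.T := by
  have h1 := hV.hT
  have h2 := Net.rho_lt (N := N) hw
  have h3 := hV.hLam'
  omega

private theorem L1_T (hV : N.Valid k) : 30 ≤ N.T := by
  have h1 := hV.hT
  have h2 : 16 ≤ N.rho N.nw := by
    unfold Net.rho
    omega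
  omega

private theorem L1_rho16 (w : ℕ) : 16 ≤ N.rho w := by
  unfold Net.rho
  omega

private theorem L1_door (hV : N.Valid k) {σ t : ℕ} (h : N.isDoor σ t) :
    σ < 22 + N.K ∧ 6 ≤ t ∧ t ≤ N.T := by
  have hT := L1_T hV
  have hK := hV.hK
  rcases h with ⟨h1, h2, h3⟩ | ⟨h1, h2, -, h3⟩
  · omega
  · have := Net.own_lt (N := N) t (by omega)
    omega

private theorem L1_len (hV : N.Valid k) {b w c : ℕ} (hp : N.port b w) (hc : c < 2) :
    2 ≤ N.len b w c ∧ N.len b w c ≤ 7 := by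
  refine ⟨hV.len_ge b w c hp hc, ?_⟩
  obtain ⟨hb, hw, h | h⟩ := hp
  · have h1 := hV.len_rd b w c hb hw h hc
    have h2 := hV.e_le w
    omega
  · have h1 := hV.len_wr b w c hb hw h hc
    have h2 := hV.e_le w
    omega

private theorem L1_port1 (hV : N.Valid k) {b w : ℕ} (hp : N.port b w)
    (hw : N.wr w (b / 2) = true) : N.port b (N.l1 w (b / 2)) := by
  obtain ⟨hb, h1, -⟩ := hp
  obtain ⟨h2, h3, h4, h5⟩ := hV.link1 w (b / 2) h1 (by omega) hw
  exact ⟨hb, h3, Or.inl h4⟩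

private theorem L1_port2 (hV : N.Valid k) {b w : ℕ} (hp : N.port b w)
    (hw : N.wr w (b / 2) = true) (h0 : N.l2 w (b / 2) ≠ 0) : N.port b (N.l2 w (b / 2)) := by
  obtain ⟨hb, h1, -⟩ := hp
  obtain ⟨h2, h3, h4, h5⟩ := hV.link2 w (b / 2) h1 (by omega) hw h0
  exact ⟨hb, h3, Or.inl h4⟩

/-- TASK L1a. Both ends of an edge exist. Proof. `cases u <;> cases v <;> simp [Net.E] at h`; for each edge type check both ends. src-path: `1 ≤ N.T` (`hV.hT`, `rho ≥ 16`). path-door: `t' = t + 1`, `isDoor σ t'` gives `6 ≤ t' ≤ T` and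
`σ < 22 + K` (first alternative: `t' = 6 ≤ T`; second: `Net.own_lt`, `K > 0`). door-reg: `x = 600 t + x % 600 < 600 (t + 1) ≤ 600 * 2 ^ h` because `t ≤ T < 2 ^ h`. path-stem: `t = rt - 3 ≥ 13`, `t ≤ rho w ≤ T`. root-root: the target `l1` is a reader (`hV.link1`), so its port exists. nod-root: `hV.link2`.
root-chain, chain-chain: `1 ≤ len` (`hV.len_ge`), `len ≤ 7` (`hV.len_rd` or `hV.len_wr` with `hV.e_le`). chain-path: `t ≤ rho w + dl b c + 1 ≤ rho w + 79 ≤ T` (`Net.rho_mono`, `hV.hT`: `rho w + Lam ≤ rho nw`). -/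
theorem ex_of_E (hV : N.Valid k) {u v : Vtx} (h : N.E u v) : N.Ex u ∧ N.Ex v := by
  have hT := L1_T hV
  have hh := hV.hh
  match u, v, h with
  | .src q, .path σ t, h =>
    obtain ⟨h1, h2, h3⟩ := h
    exact ⟨h1, h3, by omega, by omega⟩
  | .path σ t, .path σ' t', h =>
    obtain ⟨h1, h2, h3, h4, h5⟩ := h
    exact ⟨⟨h2, h3, by omega⟩, ⟨by omega, by omega, h5⟩⟩
  | .path σ t, .door σ' t', h =>
    obtain ⟨h1, h2, h3⟩ := h
    obtain ⟨h4, h5, h6⟩ := L1_door hV h3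
    exact ⟨⟨h4, by omega, by omega⟩, ⟨by omega, by omega, h6⟩⟩
  | .door σ t, .reg σ' l r x, h =>
    obtain ⟨h1, h2, h3, h4, h5, h6⟩ := h
    obtain ⟨h7, h8, h9⟩ := L1_door hV h2
    exact ⟨⟨h7, h8, h9⟩, ⟨by omega, by omega, by omega, by omega⟩⟩
  | .reg σ l r x, .reg σ' l' r' x', h =>
    obtain ⟨h1, h2, h3, h4, h5, h6, h7, h8, -⟩ := h
    exact ⟨⟨h2, h3, h5, h7⟩, ⟨by omega, h4, h6, h8⟩⟩
  | .path σ t, .stem b w j, h =>
    obtain ⟨h1, h2, h3, h4⟩ := h
    have h5 := Net.rt_le (N := N) b w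
    have h6 := Net.rho_le_rt (N := N) b w
    have h7 := L1_rho16 (N := N) w
    have h8 := L1_rho hV h2.2.1
    have h9 := h2.1
    exact ⟨⟨by omega, by omega, by omega⟩, ⟨h2, by omega⟩⟩
  | .stem b w j, .stem b' w' j', h =>
    obtain ⟨h1, h2, h3, h4, h5⟩ := h
    subst h1 h2
    exact ⟨⟨h3, by omega⟩, ⟨h3, by omega⟩⟩
  | .stem b w j, .root b' w', h =>
    obtain ⟨h1, h2, h3, h4⟩ := h
    subst h1 h2
    exact ⟨⟨h3, by omega⟩, h3⟩
  | .root b w, .root b' w', h =>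
    obtain ⟨h1, h2, h3, h4, h5⟩ := h
    subst h1
    refine ⟨h2, ?_⟩
    rw [h4]
    exact L1_port1 hV h2 h3
  | .root b w, .nod b' w', h =>
    obtain ⟨h1, h2, h3, h4, h5⟩ := h
    subst h1 h2
    exact ⟨h3, h3, h4, h5⟩
  | .nod b w, .root b' w', h =>
    obtain ⟨h1, h2, h3, h4, h5⟩ := h
    subst h1
    refine ⟨⟨h2, h3, h4⟩, ?_⟩
    rw [h5]
    exact L1_port2 hV h2 h3 h4
  | .root b w, .chain b' w' c j, h =>
    obtain ⟨h1, h2, h3, h4, h5⟩ := h
    subst h1 h2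
    have h6 := L1_len hV h3 h4
    exact ⟨h3, h3, h4, by omega, by omega, h6.2⟩
  | .chain b w c j, .chain b' w' c' j', h =>
    obtain ⟨h1, h2, h3, h4, h5, h6, h7, h8⟩ := h
    subst h1 h2 h3
    have h9 := L1_len hV h4 h5
    exact ⟨⟨h4, h5, h6, by omega, h9.2⟩, ⟨h4, h5, by omega, h8, h9.2⟩⟩
  | .chain b w c j, .path σ t, h =>
    obtain ⟨h1, h2, h3, h4, h5⟩ := h
    have h6 := L1_len hV h2 h3
    have h7 := L1_rho hV h2.2.1
    have h8 := h2.1
    have h9 : Net.dl b c ≤ 78 := by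
      unfold Net.dl
      omega
    have h10 := L1_rho16 (N := N) w
    exact ⟨⟨h2, h3, by omega, by omega, h6.2⟩, ⟨by omega, by omega, by omega⟩⟩

/-- TASK L1b. A non-isolated vertex exists. Proof: `Net.adj_iff` and L1a. -/
theorem ex_of_liv (hV : N.Valid k) {v : Vtx} (h : Liv N.G v) : N.Ex v := by
  obtain ⟨u, hu⟩ := h
  rcases Net.adj_iff.1 hu with h | h
  · exact (ex_of_E hV h).1
  · exact (ex_of_E hV h).2

/-- TASK L1c. Rows are bounded. Proof: cases; `5 + 300 l + r ≤ 5 + 300 h + 299`. -/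
theorem row_lt {v : Vtx} (h : N.Ex v) : N.row v < 305 + 300 * N.h := by
  cases v with
  | src q => simp [Net.row]
  | path σ t => simp only [Net.row]; omega
  | door σ t => simp only [Net.row]; omega
  | reg σ l r x =>
    obtain ⟨h1, h2, h3, h4⟩ := h
    simp only [Net.row]
    omega
  | stem b w j => simp only [Net.row]; split_ifs <;> omega
  | root b w => simp [Net.row]
  | nod b w => simp [Net.row]
  | chain b w c j => simp only [Net.row]; split_ifs <;> omega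

/-- TASK L1d. The columns of a strand. Proof: cases (`v` is not src). path, door: `32 t ≤ 32 T < 600 * 2 ^ h` (`hV.hh`). reg: clear. Windows: `bs b w + 23 ≤ wid b + 1 + 32 (rho w)` and `rho w ≤ T` (`Net.rho_mono`, `hV.hT`); for the chain `1 + 15 c + j ≤ 23`. -/
theorem col_strand (hV : N.Valid k) {v : Vtx} (h : N.Ex v) (hs : v ≠ Vtx.src 0) :
    N.wid * Net.strand v + 1 ≤ N.col v ∧ N.col v ≤ N.wid * Net.strand v + N.wid := by
  have hh := hV.hh
  have hbs : ∀ b w, N.port b w → N.wid * b + 1 ≤ N.bs b w ∧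
      N.bs b w + 300 ≤ N.wid * b + N.wid := by
    intro b w hp
    have h1 := L1_rho hV hp.2.1
    have h2 := L1_rho16 (N := N) w
    have h3 : N.wid = 600 * 2 ^ N.h + 100 := rfl
    unfold Net.bs
    omega
  have h3 : N.wid = 600 * 2 ^ N.h + 100 := rfl
  cases v with
  | src q =>
    have h1 : q = 0 := h
    exact absurd (by rw [h1]) hs
  | path σ t =>
    obtain ⟨h4, h5, h6⟩ := h
    simp only [Net.col, Net.strand]
    omega
  | door σ t =>
    obtain ⟨h4, h5, h6⟩ := h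
    simp only [Net.col, Net.strand]
    omega
  | reg σ l r x =>
    obtain ⟨h4, h5, h6, h7⟩ := h
    simp only [Net.col, Net.strand]
    omega
  | stem b w j =>
    have h4 := hbs b w h.1
    simp only [Net.col, Net.strand]
    omega
  | root b w =>
    have h4 := hbs b w h
    simp only [Net.col, Net.strand]
    omega
  | nod b w =>
    have h4 := hbs b w h.1
    simp only [Net.col, Net.strand]
    omega
  | chain b w c j =>
    obtain ⟨h5, h6, h7, h8, h9⟩ := h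
    have h4 := hbs b w h5
    simp only [Net.col, Net.strand]
    omega

/-- TASK L1e. Smaller strand, smaller column. Proof: `wid * σ + wid ≤ wid * σ'` for `σ < σ'` (`Nat.mul_le_mul_left`). If `u = src 0`, then `col u = 0`. -/
theorem col_lt_of_strand (hV : N.Valid k) {u v : Vtx} (hu : N.Ex u) (hv : N.Ex v)
    (hs : v ≠ Vtx.src 0) (h : Net.strand u < Net.strand v) : N.col u < N.col v := by
  have h1 := col_strand hV hv hs
  by_cases hu0 : u = Vtx.src 0
  · rw [hu0]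
    show 0 < N.col v
    omega
  · have h2 := col_strand hV hu hu0
    have h3 := Nat.mul_le_mul_left N.wid (show Net.strand u + 1 ≤ Net.strand v from h)
    rw [Nat.mul_succ] at h3
    omega

end Pool.Agent.Lib.MP_711ea9_lc.FH
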