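import Pool.Agent.Lib.MP_711ea9_lc.FH.Lay

set_option autoImplicit false

/-!
# The net of a 3CNF

The formula is given by `M` clauses and an array `A`: the literal `i < 3` of the clause `c < M` is
`A (3 c + i) = 2 v + s` (variable `v`, sign `s`, `s = 1` for the variable itself).
-/

namespace Pool.Agent.Lib.MP_711ea9_lc.FH

open Finset

/-- The formula is satisfiable. -/
def Sat3 (A : ℕ → ℕ) (M : ℕ) : Prop :=
  ∃ x : ℕ → Bool, ∀ c < M, ∃ i < 3, (x (A (3 * c + i) / 2) = true ↔ A (3 * c + i) % 2 = 1)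

/-- The number of `κ' < n` with `f κ' < f κ`. -/
def rkn (f : ℕ → ℕ) (n κ : ℕ) : ℕ := ∑ κ' ∈ range n, if f κ' < f κ then 1 else 0

namespace Sn

variable (A : ℕ → ℕ) (M : ℕ)

/-- Number of literals. -/
def mm : ℕ := 3 * M

/-- Number of bits (an odd number with `3 M ≤ 2 ^ a`). -/
def aa : ℕ := 2 * Nat.log 2 (3 * M) + 1

/-- First key: by variable, then by number. -/
def ky0 (κ : ℕ) : ℕ := A κ / 2 * (3 * M) + κ

/-- Key of layer `t`. -/
def ky (t κ : ℕ) : ℕ :=
  if t = 0 then ky0 A M κ else κ % 2 ^ (t - 1) * (3 * M) + rkn (ky0 A M) (3 * M) κ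

/-- Rank in layer `t`. -/
def rk (t κ : ℕ) : ℕ := rkn (ky A M t) (3 * M) κ

/-- Position in layer `t`. -/
def ps (t κ : ℕ) : ℕ := if t % 2 = 1 then 3 * M - 1 - rk A M t κ else rk A M t κ

/-- The literal at position `x` of layer `t`. -/
def el (t x : ℕ) : ℕ := ∑ κ ∈ range (3 * M), if ps A M t κ = x then κ else 0

/-- The window of the literal `κ` in layer `t`. -/
def wn (t κ : ℕ) : ℕ := t * (3 * M + 1) + ps A M t κ

/-- The first clause window. -/
def c0 : ℕ := (aa M + 2) * (3 * M + 1)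

/-- Layer of a window. -/
def tt (w : ℕ) : ℕ := w / (3 * M + 1)

/-- Position of a window. -/
def xx (w : ℕ) : ℕ := w % (3 * M + 1)

/-- The literal of a window. -/
def kap (w : ℕ) : ℕ := el A M (tt M w) (xx M w)

/-- The kind of a window: 0 empty, 1 source, 2 copy, 3 free, 4 sink, 5 pass, 6 clause. -/
def gate (w : ℕ) : ℕ :=
  if c0 M ≤ w then (if w < c0 M + M then 6 else 0)
  else if xx M w = 3 * M then (if tt M w = 0 then 4 else 0)
  else if tt M w = 0 then
    (if xx M w = 0 then 1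
     else if A (el A M 0 (xx M w)) / 2 = A (el A M 0 (xx M w - 1)) / 2 then 2 else 3)
  else 5

/-- The page read by a window of kind 2, 3, 4, 5. -/
def rpg (w : ℕ) : ℕ :=
  if tt M w = 0 then (xx M w + 1) % 2
  else if tt M w = 1 then ps A M 0 (kap A M w) % 2
  else 2 * ((tt M w - 1) % 2) + kap A M w / 2 ^ (tt M w - 2) % 2

/-- The page written by a window of kind 1, 2, 3, 5. -/
def wpg (w : ℕ) : ℕ :=
  if tt M w = 0 then xx M w % 2
  else if tt M w ≤ aa M then 2 * (tt M w % 2) + kap A M w / 2 ^ (tt M w - 1) % 2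
  else 4 + kap A M w % 3

/-- Reads page `p`. -/
def rd (w p : ℕ) : Bool :=
  decide ((2 ≤ gate A M w ∧ gate A M w ≤ 5 ∧ p = rpg A M w) ∨
    (gate A M w = 6 ∧ 4 ≤ p ∧ p ≤ 6))

/-- Writes page `p`. -/
def wr (w p : ℕ) : Bool :=
  decide ((gate A M w = 1 ∨ gate A M w = 2 ∨ gate A M w = 3 ∨ gate A M w = 5) ∧ p = wpg A M w)

/-- First target. -/
def l1 (w _p : ℕ) : ℕ :=
  if tt M w = 0 then w + 1
  else if tt M w ≤ aa M then wn A M (tt M w + 1) (kap A M w)
  else c0 M + (M - 1 - kap A M w / 3)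

/-- Second target. -/
def l2 (w _p : ℕ) : ℕ := if tt M w = 0 then wn A M 1 (kap A M w) else 0

/-- The literal whose wire is read by the reader `(w, p)`. -/
def rel (w p : ℕ) : ℕ :=
  if gate A M w = 6 then 3 * (M - 1 - (w - c0 M)) + (p - 4)
  else if tt M w = 0 then el A M 0 (xx M w - 1)
  else kap A M w

/-- Source of the wire read by the reader `(w, p)`. -/
def fr (w p : ℕ) : ℕ :=
  if gate A M w = 6 then wn A M (aa M + 1) (rel A M w p)
  else if tt M w = 0 then w - 1
  else wn A M (tt M w - 1) (kap A M w)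

/-- Chain lengths `x, x + 3` on rail 0 and `x + 1, x + 2` on rail 1. -/
def ab (x b c : ℕ) : ℕ := if b % 2 = 0 then x + 3 * c else x + 1 + c

/-- Length of a chain. -/
def len (b w c : ℕ) : ℕ :=
  if gate A M w = 1 then 3 + c
  else if gate A M w = 2 then (if b / 2 = rpg A M w then ab 4 b c else ab 3 b c)
  else if gate A M w = 3 then (if b / 2 = rpg A M w then 4 + c else 5 + c)
  else if gate A M w = 4 then 2
  else if gate A M w = 5 then (if b / 2 = rpg A M w then ab 3 b c else ab 2 b c)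
  else if (b + A (rel A M w (b / 2))) % 2 = 1 then 5 + c else 5

/-- Number of slots. -/
def e (w : ℕ) : ℕ :=
  if gate A M w = 1 then 5
  else if gate A M w = 2 then 7
  else if gate A M w = 3 then 7
  else if gate A M w = 4 then 2
  else if gate A M w = 5 then 6
  else if gate A M w = 6 then 6
  else 0

/-- Number of windows. -/
def nw : ℕ := c0 M + M

/-- A priori bound for the height of the regions. -/
def hm : ℕ := 4 * aa M + 60

/-- The parameter `tau`. -/
def tau : ℕ := 1800 * (hm M + 1)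

/-- The parameter `k0`. -/
def k0 : ℕ := aa M + 30

/-- The number of clock strands. -/
def K : ℕ := 14 + k0 M * tau M

/-- The length of a window. -/
def Lam : ℕ := K M + 400

/-- The number of rounds. -/
def T : ℕ := Lam M * (nw M + 2)

/-- The bound on the number of burnt vertices. -/
def kk : ℕ := (K M + 24) * (T M + 1)

/-- The height of the regions. -/
def h : ℕ := Nat.log 2 (kk M) + 1

end Sn

/-- The net of a 3CNF. -/
def satNet (A : ℕ → ℕ) (M : ℕ) : Net where
  nw := Sn.nw M
  K := Sn.K M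
  Lam := Sn.Lam M
  T := Sn.T M
  h := Sn.h M
  tau := Sn.tau M
  k0 := Sn.k0 M
  rd := Sn.rd A M
  wr := Sn.wr A M
  l1 := Sn.l1 A M
  l2 := Sn.l2 A M
  fr := Sn.fr A M
  len := Sn.len A M
  e := Sn.e A M

end Pool.Agent.Lib.MP_711ea9_lc.FH
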