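import Pool.Agent.Lib.MP_711ea9_lc.Mg.G009
import Pool.Agent.Lib.MP_711ea9_lc.FH.K3
import Pool.Agent.Lib.MP_711ea9_lc.FH.K4
import Pool.Agent.Lib.MP_711ea9_lc.Mg.G001
import Pool.Agent.Lib.MP_711ea9_lc.Mg.G002

set_option autoImplicit false

namespace Pool.Agent.Lib.MP_711ea9_lc.FH

open Finset Filter

/-- The number of vertices. -/
def nV (m : ℕ) : ℕ := 8 * (satNet (fun _ => 0) m).Y

private lemma log_le_self' (m : ℕ) : Nat.log 2 m + 1 ≤ m + 2 := by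
  have : Nat.log 2 m ≤ m := Nat.log_le_self 2 m
  omega

private lemma nV_poly {C m : ℕ} (h : nV m ≤ C * m * (Nat.log 2 m + 1) ^ 8) :
    nV m * nV m + 6 * m + 2 ≤ (m + 2) ^ (2 * C + 21) := by
  have hC : C ≤ (m + 2) ^ C :=
    (Nat.lt_two_pow_self).le.trans (Nat.pow_le_pow_left (by omega) C)
  have h1 : nV m ≤ (m + 2) ^ (C + 9) := by
    calc nV m ≤ C * m * (Nat.log 2 m + 1) ^ 8 := h
      _ ≤ (m + 2) ^ C * (m + 2) * (m + 2) ^ 8 := by
          have h5 := log_le_self' m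
          exact Nat.mul_le_mul (Nat.mul_le_mul hC (by omega)) (Nat.pow_le_pow_left h5 8)
      _ = (m + 2) ^ (C + 9) := by ring
  have h2 : nV m * nV m ≤ (m + 2) ^ (2 * C + 18) := by
    calc nV m * nV m ≤ (m + 2) ^ (C + 9) * (m + 2) ^ (C + 9) := Nat.mul_le_mul h1 h1
      _ = (m + 2) ^ (2 * C + 18) := by ring
  have h3 : m + 2 ≤ (m + 2) ^ (2 * C + 18) := by
    calc m + 2 = (m + 2) ^ 1 := (pow_one _).symm
      _ ≤ _ := Nat.pow_le_pow_right (by omega) (by omega)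
  have h4 : 8 * (m + 2) ^ (2 * C + 18) ≤ (m + 2) ^ (2 * C + 21) := by
    calc 8 * (m + 2) ^ (2 * C + 18) = 2 ^ 3 * (m + 2) ^ (2 * C + 18) := by norm_num
      _ ≤ (m + 2) ^ 3 * (m + 2) ^ (2 * C + 18) :=
          Nat.mul_le_mul_right _ (Nat.pow_le_pow_left (by omega) 3)
      _ = (m + 2) ^ (2 * C + 21) := by ring
  omega

/-- The number of vertices does not depend on the literals. -/
theorem nV_eq (A : ℕ → ℕ) (m : ℕ) : nV m = 8 * (satNet A m).Y := by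
  simp only [nV, Net.Y, Net.X, satNet]

private lemma ffInput_zero {n : ℕ} (G : SimpleGraph (Fin n)) (h0 : 0 < n) (k : ℕ) (B : ℕ → ℕ)
    (hB : ∀ i, B i = (ffInput G ⟨0, h0⟩ k).arr 0 i) :
    (⟨fun x => if x = 0 then n else if x = 2 then k else 0,
      fun a j => if a = 0 then B j else 0⟩ : Store) = ffInput G ⟨0, h0⟩ k := by
  have h1 : (fun x => if x = 0 then n else if x = 2 then k else 0) =
      (ffInput G ⟨0, h0⟩ k).var := by
    funext x
    simp only [ffInput]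
    by_cases h : x = 0
    · simp [h]
    · by_cases h' : x = 1
      · simp [h']
      · simp [h, h']
  have h2 : (fun a j => if a = 0 then B j else 0) = (ffInput G ⟨0, h0⟩ k).arr := by
    funext a j
    by_cases ha : a = 0
    · subst ha
      simpa using hB j
    · simp [ffInput, ha]
  rw [h1, h2]

private lemma input_facts {m : ℕ} (φ : CNF3 m) : φ.input.var 0 = m ∧
    (∀ x, 1 ≤ x → φ.input.var x = 0) ∧ φ.input.arr 0 = φ.code ∧
    ∀ a, 1 ≤ a → φ.input.arr a = fun _ => 0 := by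
  refine ⟨rfl, ?_, ?_, ?_⟩
  · intro x hx
    simp [CNF3.input, show x ≠ 0 by omega]
  · funext j
    simp [CNF3.input]
  · intro a ha
    funext j
    simp [CNF3.input, show a ≠ 0 by omega]

private lemma pack {m n k : ℕ} (l1 : m ≤ n) (l2 : k ≤ n) (hq : n ≤ n * n) :
    m ≤ n * n + 6 * m ∧ n ≤ n * n + 6 * m ∧ k ≤ n * n + 6 * m ∧ n * n ≤ n * n + 6 * m ∧
    6 * m ≤ n * n + 6 * m :=
  ⟨by omega, by omega, by omega, by omega, by omega⟩

open scoped Classical in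
private lemma tb_eval {tb : Tm 3}
    (htb : ∀ A e, tb.eval A e = if adjB A (e 0) (e 2 / e 1) (e 2 % e 1) then 1 else 0)
    (A : ℕ → ℕ) (m n i : ℕ) :
    tb.eval A ![m, n, i] = if adjB A m (i / n) (i % n) then 1 else 0 := by
  have h0 : (![m, n, i] : Fin 3 → ℕ) 0 = m := rfl
  have h1 : (![m, n, i] : Fin 3 → ℕ) 1 = n := rfl
  have h2 : (![m, n, i] : Fin 3 → ℕ) 2 = i := rfl
  rw [htb, h0, h1, h2]

open scoped Classical in
private lemma matrix_step {tb : Tm 3}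
    (htb : ∀ A e, tb.eval A e = if adjB A (e 0) (e 2 / e 1) (e 2 % e 1) then 1 else 0)
    {A : ℕ → ℕ} {m n k : ℕ} (G : SimpleGraph (Fin n)) (h0 : 0 < n)
    (hmat : ∀ i, (if i < n * n then (if adjB A m (i / n) (i % n) then 1 else 0) else 0) =
      (if ∃ u v : Fin n, G.Adj u v ∧ i = u * n + v then 1 else 0)) (i : ℕ) :
    (if i < n * n then tb.eval A ![m, n, i] else 0) = (ffInput G ⟨0, h0⟩ k).arr 0 i := by
  rw [tb_eval htb, hmat i]
  simp only [ffInput]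
  exact if_congr ⟨fun h => ⟨trivial, h⟩, fun h => h.2⟩ rfl rfl

/-- The reduction. -/
theorem reduction : ∃ (red : Cmd) (C : ℕ),
    (∀ m, 1 ≤ m → m ≤ nV m ∧ nV m ≤ C * m * (Nat.log 2 m + 1) ^ 8) ∧
    ∀ (m : ℕ) (φ : CNF3 m), 1 ≤ m → ∃ (G : SimpleGraph (Fin (nV m))) (s : Fin (nV m)) (k : ℕ),
      k ≤ nV m ∧ Planar G ∧
      (∀ v, (G.neighborSet v).ncard ≤ C * (Nat.log 2 m + 1) ^ 2) ∧
      (Firefighter G s k ↔ φ.Sat) ∧
      red.exec φ.input = ffInput G s k ∧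
      red.cost φ.input ≤ (m + 2) ^ C := by
  classical
  obtain ⟨tn, tk, tq, tb, htn, htk, htq, htb⟩ := sat_terms
  obtain ⟨C₁, hC₁⟩ := size_le
  obtain ⟨C₂, hC₂⟩ := prog_cost tn tk tq tb
  have hsz : ∀ m, 1 ≤ m → nV m ≤ C₁ * m * (Nat.log 2 m + 1) ^ 8 :=
    fun m hm => (hC₁ (fun _ => 0) m hm).1
  have hle : C₁ ≤ C₁ + (2 * C₁ + 21) * C₂ := Nat.le_add_right _ _
  refine ⟨prog tn tk tq tb, C₁ + (2 * C₁ + 21) * C₂, fun m hm => ⟨(le_size _ m).1, ?_⟩, ?_⟩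
  · exact (hsz m hm).trans (Nat.mul_le_mul_right _ (Nat.mul_le_mul_right _ hle))
  intro m φ hm
  have hp := nV_poly (hsz m hm)
  rw [nV_eq φ.code m] at hp ⊢
  obtain ⟨e0, e1, e2, e3⟩ := input_facts φ
  obtain ⟨l1, l2, l3⟩ := le_size φ.code m
  have hV := sat_valid φ.code hm
  have hdeg := (hC₁ φ.code m hm).2
  have h0 : 0 < 8 * (satNet φ.code m).Y := Nat.mul_pos (by norm_num) (Y_pos _)
  have en : tn.eval φ.code (fun _ => m) = 8 * (satNet φ.code m).Y := htn _ _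
  have ek : tk.eval φ.code (fun _ => m) = Sn.kk m := htk _ _
  have eq : tq.eval φ.code (fun _ => m) =
    (8 * (satNet φ.code m).Y) * (8 * (satNet φ.code m).Y) := htq _ _
  have hmat := fun i => matrix_eq (A := φ.code) (M := m) rfl i
  have hff := satG_ff φ.code hm h0
  have hpl := satG_planar φ.code hm
  have hdg := deg_bound hV
  change ∀ u : Fin (8 * (satNet φ.code m).Y), ((satG φ.code m).neighborSet u).ncard ≤ _ at hdg
  generalize satG φ.code m = G at *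
  generalize 8 * (satNet φ.code m).Y = n at *
  have hq : n ≤ n * n := Nat.le_mul_of_pos_left _ h0
  refine ⟨G, ⟨0, h0⟩, Sn.kk m, l2, hpl, ?_, ?_, ?_, ?_⟩
  · intro v
    exact (hdg v).trans (hdeg.trans (Nat.mul_le_mul_right _ hle))
  · exact hff.trans (sat3_code φ)
  · rw [prog_spec e0 e1 e2 e3 en ek eq (fun j hj => (code_le φ j).2 (l3.trans (hq.trans hj)))]
    exact ffInput_zero G h0 _ _ (matrix_step htb G h0 hmat)
  · obtain ⟨q1, q2, q3, q4, q5⟩ := pack l1 l2 hq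
    have hb := hC₂ (n * n + 6 * m) m n (Sn.kk m) (n * n) φ.code φ.input
      (fun i => (code_le φ i).1.trans q5) q1 q2 q3 q4 e0 e1 e2 e3 en ek eq
    refine hb.trans ?_
    calc (n * n + 6 * m + 2) ^ C₂ ≤ ((m + 2) ^ (2 * C₁ + 21)) ^ C₂ :=
          Nat.pow_le_pow_left hp _
      _ = (m + 2) ^ ((2 * C₁ + 21) * C₂) := (pow_mul _ _ _).symm
      _ ≤ _ := Nat.pow_le_pow_right (by omega) (by omega)

/-- The reduction and its consequence for fast algorithms. -/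
theorem lower_bound : ∃ (red : Cmd) (C : ℕ) (n : ℕ → ℕ),
    (∀ m, 1 ≤ m → m ≤ n m ∧ n m ≤ C * m * (Nat.log 2 m + 1) ^ 8) ∧
    (∀ (m : ℕ) (φ : CNF3 m), 1 ≤ m → ∃ (G : SimpleGraph (Fin (n m))) (s : Fin (n m)) (k : ℕ),
      Planar G ∧ (∀ v, (G.neighborSet v).ncard ≤ C * (Nat.log 2 m + 1) ^ 2) ∧ k ≤ n m ∧
      (Firefighter G s k ↔ φ.Sat) ∧
      red.exec φ.input = ffInput G s k ∧ red.cost φ.input ≤ (m + 2) ^ C) ∧
    ∀ (p : Cmd) (f : ℕ → ℕ),
      Tendsto (fun n : ℕ => (f n : ℝ) * Real.log n ^ 8 / n) atTop (nhds 0) →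
      DecidesPlanar p f →
      ∃ g : ℕ → ℕ, Tendsto (fun m : ℕ => (g m : ℝ) / m) atTop (nhds 0) ∧
        DecidesSat (Cmd.seq red p) g := by
  obtain ⟨red, C, h1, h2⟩ := reduction
  refine ⟨red, C, nV, h1, ?_, ?_⟩
  · intro m φ hm
    obtain ⟨G, s, k, hk, hpl, hdeg, hff, hex, hc⟩ := h2 m φ hm
    exact ⟨G, s, k, hpl, hdeg, hk, hff, hex, hc⟩
  · intro p f hf hp
    obtain ⟨g, hg, hg'⟩ := asym_sum (c := C) hf h1
    refine ⟨g, hg, ?_⟩
    intro m φ hm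
    obtain ⟨G, s, k, hk, hpl, -, hff, hex, hc⟩ := h2 m φ hm
    obtain ⟨h3, h4⟩ := hp _ G s k hpl hk
    constructor
    · show red.cost φ.input + p.cost (red.exec φ.input) ≤ _
      rw [hex]
      exact (Nat.add_le_add hc h3).trans (hg' m)
    · show (p.exec (red.exec φ.input)).var 0 = 1 ↔ _
      rw [hex, h4, hff]

end Pool.Agent.Lib.MP_711ea9_lc.FH
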