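import Pool.Agent.Lib.MP_711ea9_lc.FH.Adj
import Pool.Agent.Lib.MP_711ea9_lc.FH.Plane

set_option autoImplicit false

/-!
# Rows and columns for the graph of a net
-/

namespace Pool.Agent.Lib.MP_711ea9_lc.FH

namespace Net

variable (N : Net)

/-- The row of a vertex. -/
def row : Vtx → ℕ
  | .src _ => 0
  | .path _ t => min (t - 1) 3
  | .door _ _ => 4
  | .reg _ l r _ => 5 + 300 * l + r
  | .stem _ _ j => if j = 0 then 2 else 1
  | .root _ _ => 0
  | .nod _ _ => 0
  | .chain b w c j => if c = 0 then (if j = 1 then 1 else 2)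
      else (if j < N.len b w c then 1 else 2)

/-- The width of a strand. -/
def wid : ℕ := 600 * 2 ^ N.h + 100

/-- The start of the window `w` of strand `b`. -/
def bs (b w : ℕ) : ℕ := N.wid * b + 1 + 32 * (N.rho w - 8)

/-- The column of a vertex. -/
def col : Vtx → ℕ
  | .src _ => 0
  | .path σ t => N.wid * σ + 1 + 32 * t
  | .door σ t => N.wid * σ + 1 + 32 * t
  | .reg σ _ _ x => N.wid * σ + 1 + x
  | .stem b w _ => N.bs b w
  | .root b w => N.bs b w + 1
  | .nod b w => N.bs b w
  | .chain b w c j => N.bs b w + 1 + 15 * c + j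

/-- The strand of a vertex. -/
def strand : Vtx → ℕ
  | .src _ => 0
  | .path σ _ => σ
  | .door σ _ => σ
  | .reg σ _ _ _ => σ
  | .stem b _ _ => b
  | .root b _ => b
  | .nod b _ => b
  | .chain b _ _ _ => b

/-- The links of every page are laminar. -/
def Laminar : Prop :=
  ∀ p w w' t t', p < 8 → w < w' → w' < N.nw → N.wr w p = true → N.wr w' p = true →
    (t = N.l1 w p ∨ (N.l2 w p ≠ 0 ∧ t = N.l2 w p)) →
    (t' = N.l1 w' p ∨ (N.l2 w' p ≠ 0 ∧ t' = N.l2 w' p)) → t < w' ∨ t' < t

end Net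

end Pool.Agent.Lib.MP_711ea9_lc.FH
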