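import Pool.Agent.Lib.MP_711ea9_lc.FH.Tm

set_option autoImplicit false

/-!
# The program of the reduction
-/

namespace Pool.Agent.Lib.MP_711ea9_lc.FH

open Finset

/-- Clear the registers `3, …, n + 2`. -/
def clr : ℕ → Cmd
  | 0 => .skip
  | n + 1 => .seq (clr n) (.set (n + 3) (.const 0))

/-- The body of the first loop: entry `i` of array 1 becomes the value of the term `tb` for the
values `M`, `n`, `i`, which are in the registers 0, 1, 4. -/
def prBody (tb : Tm 3) : Cmd :=
  .seq (tb.comp ![0, 1, 4] 5) (.seq (.put 1 (.var 4) (.var 5)) (.set 4 (.add (.var 4) (.const 1))))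

/-- The body of the second loop. -/
def cpBody : Cmd :=
  .seq (.put 0 (.var 4) (.get 1 (.var 4)))
    (.seq (.put 1 (.var 4) (.const 0)) (.set 4 (.add (.var 4) (.const 1))))

/-- The values of `tn`, `tk`, `tq` are put into the registers 1, 2, 3. -/
def prHead (tn tk tq : Tm 1) : Cmd :=
  .seq (tn.comp (fun _ => 0) 3) (.seq (.set 1 (.var 3)) (.seq (tk.comp (fun _ => 0) 3)
    (.seq (.set 2 (.var 3)) (tq.comp (fun _ => 0) 3))))

/-- The first loop. -/
def prFill (tb : Tm 3) : Cmd := .seq (.set 4 (.const 0)) (.loop (.var 3) (prBody tb))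

/-- The second loop. -/
def prCopy : Cmd := .seq (.set 4 (.const 0)) (.loop (.var 3) cpBody)

/-- The end of the program. -/
def prTail (w : ℕ) : Cmd := .seq (.set 0 (.var 1)) (.seq (.set 1 (.const 0)) (clr w))

/-- The program. -/
def prog (tn tk tq : Tm 1) (tb : Tm 3) : Cmd :=
  .seq (prHead tn tk tq) (.seq (prFill tb) (.seq prCopy
    (prTail (tn.width + tk.width + tq.width + tb.width + 5))))

/-- The memory holds `M`, `n`, `k`, `q` in the registers 0, 1, 2, 3; only registers below `w` are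
in use; the arrays 0 and 1 are `A` and `B`, the others are empty. -/
structure PSt (σ : Store) (M n k q w : ℕ) (A B : ℕ → ℕ) : Prop where
  v0 : σ.var 0 = M
  v1 : σ.var 1 = n
  v2 : σ.var 2 = k
  v3 : σ.var 3 = q
  vw : ∀ x, w ≤ x → σ.var x = 0
  a0 : σ.arr 0 = A
  a1 : σ.arr 1 = B
  a2 : ∀ a, 2 ≤ a → σ.arr a = fun _ => 0

end Pool.Agent.Lib.MP_711ea9_lc.FH
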