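import Pool.Agent.Lib.MP_711ea9_lc.FH.Adj

set_option autoImplicit false

namespace Pool.Agent.Lib.MP_711ea9_lc.FH

open Finset

/-- Two chains with delays `x`, `y`, counted at time `τ`. -/
def two (x y τ : ℕ) : ℕ := (if x ≤ τ then 1 else 0) + (if y ≤ τ then 1 else 0)

/-- The units of a page which is read, `b` the strand whose root burns. -/
def Net.rcnt (N : Net) (b w τ : ℕ) : ℕ := two (N.len b w 0) (N.len b w 1) τ

/-- The units of a page which is written, `b` the strand whose root burns. -/
def Net.wcnt (N : Net) (b w τ : ℕ) : ℕ :=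
  (if 1 ≤ τ then 1 else 0) + (if 2 ≤ τ then 1 else 0) +
    (if N.l2 w (b / 2) ≠ 0 ∧ 3 ≤ τ then 1 else 0) + two (N.len b w 0 + 1) (N.len b w 1 + 1) τ

open scoped Classical in
private noncomputable def S1_g (N : Net) (st : ℕ → ℕ → Prop) (w τ b : ℕ) : ℕ :=
  ∑ j ∈ range 5, if N.act st w b j ∧ N.due w b j ≤ τ then 1 else 0

private theorem S1_pair (f : ℕ → ℕ) (n : ℕ) :
    ∑ b ∈ range (2 * n), f b = ∑ p ∈ range n, (f (2 * p) + f (2 * p + 1)) := by
  induction n with
  | zero => simp
  | succ n ih =>
    rw [Finset.sum_range_succ, ← ih]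
    have h1 : 2 * (n + 1) = 2 * n + 1 + 1 := by ring
    rw [h1, Finset.sum_range_succ, Finset.sum_range_succ]
    ring

private theorem S1_cnt (N : Net) (st : ℕ → ℕ → Prop) (w τ : ℕ) :
    N.cnt st w τ = ∑ p ∈ range 8, (S1_g N st w τ (2 * p) + S1_g N st w τ (2 * p + 1)) := by
  classical
  rw [← S1_pair (S1_g N st w τ) 8]
  unfold Net.cnt S1_g
  rw [Finset.card_filter, Finset.sum_product]

private theorem S1_none {N : Net} {st : ℕ → ℕ → Prop} {w τ b : ℕ}
    (h1 : N.rd w (b / 2) = false) (h2 : N.wr w (b / 2) = false) : S1_g N st w τ b = 0 := by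
  unfold S1_g
  apply Finset.sum_eq_zero
  intro j _
  rw [if_neg]
  rintro ⟨⟨⟨_, _, h3⟩, _⟩, _⟩
  rw [h1, h2] at h3
  simp at h3

open scoped Classical in
private theorem S1_rd {N : Net} {st : ℕ → ℕ → Prop} {w τ b : ℕ} (hb : b < 16) (hw : w < N.nw)
    (h1 : N.rd w (b / 2) = true) (h2 : N.wr w (b / 2) = false) :
    S1_g N st w τ b = if st b w then 0 else N.rcnt b w τ := by
  have hp : N.port b w := ⟨hb, hw, Or.inl h1⟩
  unfold S1_g
  rw [Finset.sum_range_succ, Finset.sum_range_succ, Finset.sum_range_succ,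
    Finset.sum_range_succ, Finset.sum_range_succ, Finset.sum_range_zero]
  by_cases hs : st b w
  · simp [Net.act, Net.due, hp, h2, hs]
  · simp [Net.act, Net.due, hp, h2, hs, Net.rcnt, two]

open scoped Classical in
private theorem S1_wr {N : Net} {st : ℕ → ℕ → Prop} {w τ b : ℕ} (hb : b < 16) (hw : w < N.nw)
    (h2 : N.wr w (b / 2) = true) :
    S1_g N st w τ b = if st b w then (if 1 ≤ τ then 1 else 0) else
      two (N.len b w 0 + 1) (N.len b w 1 + 1) τ + (if 2 ≤ τ then 1 else 0) +
        (if N.l2 w (b / 2) ≠ 0 ∧ 3 ≤ τ then 1 else 0) := by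
  have hp : N.port b w := ⟨hb, hw, Or.inr h2⟩
  unfold S1_g
  rw [Finset.sum_range_succ, Finset.sum_range_succ, Finset.sum_range_succ,
    Finset.sum_range_succ, Finset.sum_range_succ, Finset.sum_range_zero]
  by_cases hs : st b w
  · simp [Net.act, Net.due, hp, h2, hs]
  · simp [Net.act, Net.due, hp, h2, hs, two]

open scoped Classical in
/-- TASK S1. The number of due units, page by page, if on every active page exactly one rail is in the state `st`; the burning strand of page `p` is `2 p` if `¬ st (2p) w` and `2 p + 1` otherwise.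
Proof. `Net.cnt` is a card over `range 16 ×ˢ range 5`: `∑ b ∈ range 16, ∑ j ∈ range 5, if act ∧ due ≤ τ then 1 else 0` (`Finset.card_filter`, `Finset.sum_product`). `∑ b ∈ range 16, f b = ∑ p ∈ range 8, (f (2 p) + f (2 p + 1))` (expand both by `Finset.sum_range_succ`). Fix `p < 8`; `(2p)/2 = (2p+1)/2 = p`.
No port: `0`. `rd` (not `wr`): the strand `b` with `¬ st b w` has `j = 0, 1` active with `due = len`; the other strand nothing. `wr`: the strand in the state `st` has only `j = 2` (`due = 1`); the other one `j = 0, 1` (`due = len + 1`), `j = 3` (`due = 2`), `j = 4` if `l2 ≠ 0` (`due = 3`). Expand `∑ j ∈ range 5` with `Finset.sum_range_succ` and `simp [Net.act, Net.due, Net.port, ..]`. -/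
theorem cnt_pages {N : Net} {k : ℕ} (hV : N.Valid k) {st : ℕ → ℕ → Prop} {w : ℕ} (hw : w < N.nw)
    (h : ∀ p, p < 8 → N.rd w p = true ∨ N.wr w p = true → (st (2 * p) w ↔ ¬ st (2 * p + 1) w))
    (τ : ℕ) :
    N.cnt st w τ = ∑ p ∈ range 8,
      ((if N.rd w p = true then N.rcnt (if st (2 * p) w then 2 * p + 1 else 2 * p) w τ else 0) +
       (if N.wr w p = true then N.wcnt (if st (2 * p) w then 2 * p + 1 else 2 * p) w τ else 0)) := by
  rw [S1_cnt]
  refine Finset.sum_congr rfl fun p hp => ?_
  have hp8 : p < 8 := Finset.mem_range.mp hp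
  have e1 : 2 * p / 2 = p := by omega
  have e2 : (2 * p + 1) / 2 = p := by omega
  have hb1 : 2 * p < 16 := by omega
  have hb2 : 2 * p + 1 < 16 := by omega
  by_cases hr : N.rd w p = true
  · have hwr : N.wr w p = false := hV.excl w p hw hp8 hr
    have hs := h p hp8 (Or.inl hr)
    rw [S1_rd hb1 hw (by rw [e1]; exact hr) (by rw [e1]; exact hwr),
      S1_rd hb2 hw (by rw [e2]; exact hr) (by rw [e2]; exact hwr)]
    rw [if_pos hr, hwr]
    by_cases hst : st (2 * p) w
    · have h3 : ¬ st (2 * p + 1) w := hs.mp hst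
      simp [hst, h3]
    · have h3 : st (2 * p + 1) w := by
        by_contra h4
        exact hst (hs.mpr h4)
      simp [hst, h3]
  · have hr' : N.rd w p = false := by
      rcases Bool.eq_false_or_eq_true (N.rd w p) with h5 | h5
      · exact absurd h5 hr
      · exact h5
    by_cases hwr : N.wr w p = true
    · have hs := h p hp8 (Or.inr hwr)
      rw [S1_wr hb1 hw (by rw [e1]; exact hwr), S1_wr hb2 hw (by rw [e2]; exact hwr)]
      rw [if_neg hr, if_pos hwr, e1, e2]
      by_cases hst : st (2 * p) w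
      · have h3 : ¬ st (2 * p + 1) w := hs.mp hst
        rw [if_pos hst, if_neg h3, if_pos hst, Net.wcnt, e2]
        ring
      · have h3 : st (2 * p + 1) w := by
          by_contra h4
          exact hst (hs.mpr h4)
        rw [if_neg hst, if_pos h3, if_neg hst, Net.wcnt, e1]
        ring
    · have hwr' : N.wr w p = false := by
        rcases Bool.eq_false_or_eq_true (N.wr w p) with h5 | h5
        · exact absurd h5 hwr
        · exact h5
      rw [S1_none (by rw [e1]; exact hr') (by rw [e1]; exact hwr'),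
        S1_none (by rw [e2]; exact hr') (by rw [e2]; exact hwr'), if_neg hr, if_neg hwr]

end Pool.Agent.Lib.MP_711ea9_lc.FH
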