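import Pool.Agent.Lib.MP_711ea9_lc.FH.Adj

set_option autoImplicit false

/-!
# The classes of the vertices relative to a window
-/

namespace Pool.Agent.Lib.MP_711ea9_lc.FH

namespace Net

variable (N : Net)

/-- Class of the path vertex `(b, t)` relative to window `w`. -/
def zj (w b t : ℕ) : ℕ :=
  if t / N.Lam = w then (t % N.Lam - (32 + 4 * b)) / 2
  else if t / N.Lam = N.l1 w (b / 2) then 3 else 4

/-- Class of a vertex relative to window `w`: strand and number of the unit. -/
def zone (w : ℕ) : Vtx → ℕ × ℕ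
  | .src _ => (0, 5)
  | .path b t => (b, N.zj w b t)
  | .door b t => (b, N.zj w b (t - 1))
  | .reg b _ _ _ => (b, 5)
  | .stem b _ _ => (b, 5)
  | .root b w' => (b, if w' = w then 2 else if w' = N.l1 w (b / 2) then 3 else 4)
  | .nod b _ => (b, 4)
  | .chain b w' c _ => (b, if w' = w then c else if w' = N.l1 w (b / 2) then 3 else 4)

/-- Neither a path vertex nor a door. -/
def dat : Vtx → Prop
  | .path _ _ => False
  | .door _ _ => False
  | _ => True

/-- The unit `(b, j)` of window `w` is met in the cheapest way. -/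
def Can (S : Set Vtx) (w b j : ℕ) : Prop :=
  (j < 2 → ∃ i, 1 ≤ i ∧ i ≤ N.len b w j ∧ Vtx.chain b w j i ∈ S) ∧
  (j = 3 → Vtx.root b (N.l1 w (b / 2)) ∈ S) ∧
  (j = 4 → Vtx.nod b w ∉ S ∧ Vtx.root b (N.l2 w (b / 2)) ∈ S)

/-- The situation at the start of window `w`. -/
structure Win (S : Set Vtx) (k w : ℕ) : Prop where
  valid : N.Valid k
  run : N.Run S k
  hw : w < N.nw
  inv : N.Inv S (N.rho w)
  nodoor : ∀ σ t, Vtx.door σ t ∉ N.F S (N.rho w + 14)

end Net

end Pool.Agent.Lib.MP_711ea9_lc.FH
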