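import Pool.Agent.Lib.MP_711ea9_lc.FH.Zone
import Pool.Agent.Lib.MP_711ea9_lc.Mg.G005
import Pool.Agent.Lib.MP_711ea9_lc.Mg.G006
import Pool.Agent.Lib.MP_711ea9_lc.FH.E4

set_option autoImplicit false

namespace Pool.Agent.Lib.MP_711ea9_lc.FH

open Finset

variable {N : Net} {k : ℕ} {S : Set Vtx} {w : ℕ}

/-- TASK W2a. `rho w` is a good time. Proof: for `w' < w`: `rho w' + Lam ≤ rho w` (`Net.rho_lt`, `hV.hLam'`); for `w ≤ w'`: `Net.rho_mono`. -/
theorem good_rho (hV : N.Valid k) (w : ℕ) : N.good (N.rho w) := by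
  have hL := hV.hLam'
  intro w' _
  rcases lt_or_ge w' w with h | h
  · have := Net.rho_lt (N := N) h
    exact Or.inr (by omega)
  · exact Or.inl (Net.rho_mono h)

/-- TASK W2b. `rho w + 14` is a good time (same proof; `rho w + 14 ≤ rho w'` for `w < w'`). -/
theorem good_rho14 (hV : N.Valid k) (w : ℕ) : N.good (N.rho w + 14) := by
  have hL := hV.hLam'
  intro w' _
  rcases le_or_gt w' w with h | h
  · have := Net.rho_mono (N := N) h
    exact Or.inr (by omega)
  · have := Net.rho_lt (N := N) h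
    exact Or.inl (by omega)

/-- TASK W2c. Path vertices and doors after the start of the window are not due yet. Proof: `tame_of_inv` at `rho w` (`good_rho`), `due_path`, `due_door`. -/
theorem fresh_pd (hW : N.Win S k w) {σ t : ℕ} (ht : N.rho w < t) :
    Vtx.path σ t ∉ N.H S (N.rho w) ∧ Vtx.door σ t ∉ N.H S (N.rho w) := by
  have hT := tame_of_inv hW.run (good_rho hW.valid w) hW.inv
  refine ⟨fun h => ?_, fun h => ?_⟩
  · have := due_path hW.valid hT le_rfl h
    omega
  · have := due_door hW.valid hT le_rfl h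
    omega

/-- TASK W2d. Chains of the windows from `w` on, and `nod b w`, are not due yet. Proof: `tame_of_inv`, `due_chain` (`rt b w' ≥ rho w' ≥ rho w`), `due_nod`. -/
theorem fresh_cn (hW : N.Win S k w) {b w' c j : ℕ} (hw' : w ≤ w') :
    Vtx.chain b w' c j ∉ N.H S (N.rho w) ∧ Vtx.nod b w ∉ N.H S (N.rho w) := by
  have hT := tame_of_inv hW.run (good_rho hW.valid w) hW.inv
  refine ⟨fun h => ?_, fun h => ?_⟩
  · have h1 := due_chain hW.valid hT le_rfl h
    have h2 := N.rho_le_rt b w'
    have h3 := Net.rho_mono (N := N) hw'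
    omega
  · have := due_nod hW.valid hT le_rfl h
    omega

/-- TASK W2e. The roots of a writer of window `w` and of its targets are not due yet.
Proof: `tame_of_inv`, `due_root`. For `w' = w` (a writer): `rt b w = rho w + 1 > rho w`, and it is no reader (`hV.excl`). For `w' = l1` or `l2`: `w < w'`, so `rt b w' ≥ rho w' > rho w`;
and `fr w' (b/2) = w` by `hV.link1`/`link2`, so the second alternative says `rho w + 2 ≤ rho w`. -/
theorem fresh_root (hW : N.Win S k w) {b w' : ℕ} (hp : N.port b w)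
    (hwr : N.wr w (b / 2) = true)
    (hw' : w' = w ∨ w' = N.l1 w (b / 2) ∨ (N.l2 w (b / 2) ≠ 0 ∧ w' = N.l2 w (b / 2))) :
    Vtx.root b w' ∉ N.H S (N.rho w) := by
  have hT := tame_of_inv hW.run (good_rho hW.valid w) hW.inv
  have hV := hW.valid
  have hL := hV.hLam'
  have hb : b / 2 < 8 := by have := hp.1; omega
  intro h
  have h1 := due_root hV hT le_rfl h
  rcases hw' with rfl | rfl | ⟨h0, rfl⟩
  · have h2 : N.rt b w' = N.rho w' + 1 := by
      unfold Net.rt
      rw [if_pos hwr]
    rcases h1 with h1 | ⟨h1, -⟩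
    · omega
    · have := hV.excl w' (b / 2) hp.2.1 hb h1
      rw [this] at hwr
      exact absurd hwr (by decide)
  · obtain ⟨g1, g2, g3, g4⟩ := hV.link1 w (b / 2) hp.2.1 hb hwr
    have g5 := Net.rho_lt (N := N) g1
    have g6 := N.rho_le_rt b (N.l1 w (b / 2))
    rcases h1 with h1 | ⟨-, -, h1, -⟩
    · omega
    · rw [g4] at h1
      omega
  · obtain ⟨g0, -⟩ := hV.link1 w (b / 2) hp.2.1 hb hwr
    obtain ⟨g1, g2, g3, g4⟩ := hV.link2 w (b / 2) hp.2.1 hb hwr h0
    have g5 := Net.rho_lt (N := N) (lt_trans g0 g1)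
    have g6 := N.rho_le_rt b (N.l2 w (b / 2))
    rcases h1 with h1 | ⟨-, -, h1, -⟩
    · omega
    · rw [g4] at h1
      omega

end Pool.Agent.Lib.MP_711ea9_lc.FH
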