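import Pool.Agent.Lib.MP_711ea9_lc.FH.W2

set_option autoImplicit false

namespace Pool.Agent.Lib.MP_711ea9_lc.FH

open Finset

variable {N : Net} {k : ℕ} {S : Set Vtx} {w : ℕ}

/-- A vertex which witnesses the unit `x` at time `i`. -/
def Net.Wit (N : Net) (S : Set Vtx) (w i : ℕ) (x : ℕ × ℕ) (v : Vtx) : Prop :=
  v ∈ N.H S i ∧ v ∉ N.H S (N.rho w) ∧ N.zone w v = x

private theorem W3_rho_le_T (hW : N.Win S k w) : N.rho w ≤ N.T := by
  have h1 := hW.valid.hT
  have h2 := Net.rho_mono (N := N) hW.hw.le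
  omega

private theorem W3_len_le (hV : N.Valid k) {b w' c : ℕ} (hp : N.port b w') (hc : c < 2) :
    N.len b w' c ≤ 7 := by
  obtain ⟨hb, hw, h | h⟩ := hp
  · have h1 := hV.len_rd b w' c hb hw h hc
    have h2 := hV.e_le w'
    omega
  · have h1 := hV.len_wr b w' c hb hw h hc
    have h2 := hV.e_le w'
    omega

private theorem W3_zone (hV : N.Valid k) {b w' c ε : ℕ} (hb : b < 16) (hc : c < 2) (he : ε < 2) :
    N.zj w b (N.rho w' + Net.dl b c + ε) =
      if w' = w then c else if w' = N.l1 w (b / 2) then 3 else 4 := by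
  obtain ⟨h1, h2⟩ := end_div (N := N) (w' := w') hV hb hc (show ε < 3 by omega)
  unfold Net.zj
  rw [h1, h2]
  by_cases h : w' = w
  · rw [if_pos h, if_pos h]
    omega
  · rw [if_neg h, if_neg h]

/-- TASK W3a. Roots at the start of the window: `root b w` burns at `rt b w` if it is not in `S`. Proof: `root_burn` with `i = rho w` (`hW.inv.b`, `hW.inv.b'`; `rho w ≤ T` by `hV.hT`, `Net.rho_mono`; `rt ≤ rho w + 1`: `Net.rt_le`). -/
theorem win_root (hW : N.Win S k w) {b : ℕ} (hp : N.port b w) (hS : Vtx.root b w ∉ S) :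
    Vtx.root b w ∈ N.F S (N.rt b w) := by
  exact root_burn hW.inv.b (W3_rho_le_T hW) hW.inv.b' hp (Net.rt_le b w) hS

/-- TASK W3b. The two chains of a burning port `(b, w')`, `w ≤ w'`, root burning at `y ≤ rho w + 3`: each chain costs a vertex of class `zone w (chain b w' c 1)`; a chain without vertex of `S` costs two different ones.
Proof: `chain_cost` with `M = rho w + 14`: `y + len + 2 ≤ rho w + 3 + 7 + 2` (`len ≤ e w' ≤ 7` for readers (`hV.len_rd`) and `len + 1 ≤ e` for writers; `hV.e_le`). First alternative: the chain vertex; it is in `H (y + len) ⊆ H (rho w + 14)`, not in `H (rho w)`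
by `fresh_cn`. Second alternative, for `ε = 0, 1`: a path vertex or door, at time `> rho w` (`fresh_pd`); class by `end_div` (for the door `(b, t + 1)` the class of `(b, t)` is used, `t = rho w' + dl b c + ε`): if `w' = w`: `(b, (2 c + ε) / 2) = (b, c)`; if `w' ≠ w`: 3 or 4 as for the chain.
The vertices for `ε = 0` and `ε = 1` are different (times). -/
theorem win_chain (hW : N.Win S k w) {b w' c y : ℕ} (hp : N.port b w') (hw' : w ≤ w') (hc : c < 2)
    (hr : Vtx.root b w' ∈ N.F S y) (hy : y ≤ N.rho w + 3) :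
    (∃ j, 1 ≤ j ∧ j ≤ N.len b w' c ∧ Vtx.chain b w' c j ∈ N.H S (y + N.len b w' c) ∧
      N.Wit S w (N.rho w + 14) (N.zone w (Vtx.chain b w' c 1)) (Vtx.chain b w' c j)) ∨
    ((∀ j, 1 ≤ j → j ≤ N.len b w' c → Vtx.chain b w' c j ∉ S) ∧ ∃ v v', v ≠ v' ∧
      (∀ u, u = v ∨ u = v' → N.Wit S w (N.rho w + 14) (N.zone w (Vtx.chain b w' c 1)) u ∧
        (u = Vtx.path b (N.rho w' + Net.dl b c) ∨ u = Vtx.door b (N.rho w' + Net.dl b c + 1) ∨
         u = Vtx.path b (N.rho w' + Net.dl b c + 1) ∨ u = Vtx.door b (N.rho w' + Net.dl b c + 2)))) := by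
  have hV := hW.valid
  have hb : b < 16 := hp.1
  have hl := W3_len_le hV hp hc
  have hcn := fun j => (fresh_cn hW (b := b) (c := c) (j := j) hw').1
  have hrho := Net.rho_mono (N := N) hw'
  have hdl : 16 ≤ Net.dl b c := by
    unfold Net.dl
    omega
  rcases chain_cost hV hW.nodoor hp hc hr (by omega) with ⟨j, h1, h2, h3⟩ | ⟨h1, h2⟩
  · left
    exact ⟨j, h1, h2, h3, Net.H_mono (by omega) h3, hcn j, rfl⟩
  · right
    refine ⟨h1, ?_⟩
    have key : ∀ ε < 2, ∃ v, N.Wit S w (N.rho w + 14) (N.zone w (Vtx.chain b w' c 1)) v ∧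
        (v = Vtx.path b (N.rho w' + Net.dl b c + ε) ∨
          v = Vtx.door b (N.rho w' + Net.dl b c + ε + 1)) := by
      intro ε hε
      rcases h2 ε hε with h | h
      · refine ⟨_, ⟨h, (fresh_pd hW (by omega)).1, ?_⟩, Or.inl rfl⟩
        show (b, N.zj w b (N.rho w' + Net.dl b c + ε)) = _
        rw [W3_zone hV hb hc hε]
        rfl
      · refine ⟨_, ⟨h, (fresh_pd hW (by omega)).2, ?_⟩, Or.inr (by congr 1; omega)⟩
        show (b, N.zj w b (N.rho w' + Net.dl b c + 1 + ε - 1)) = _
        rw [show N.rho w' + Net.dl b c + 1 + ε - 1 = N.rho w' + Net.dl b c + ε by omega,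
          W3_zone hV hb hc hε]
        rfl
    obtain ⟨v, hv, hv'⟩ := key 0 (by omega)
    obtain ⟨u, hu, hu'⟩ := key 1 (by omega)
    refine ⟨v, u, ?_, ?_⟩
    · rcases hv' with rfl | rfl <;> rcases hu' with rfl | rfl <;> simp
    · rintro x (rfl | rfl)
      · refine ⟨hv, ?_⟩
        rcases hv' with h | h
        · exact Or.inl (by simpa using h)
        · exact Or.inr (Or.inl (by simpa using h))
      · refine ⟨hu, ?_⟩
        rcases hu' with h | h
        · exact Or.inr (Or.inr (Or.inl h))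
        · exact Or.inr (Or.inr (Or.inr (by rw [h])))

/-- TASK W3c. If the root of a target `(b, w')`, `w < w'`, burns at `y ≤ rho w + 3`, there are two different witnesses of its class.
Proof: `win_chain` for `c = 0` and `c = 1`; if one of them has the second alternative, it gives two vertices. Otherwise the two chain vertices (different `c`). The class `zone w (chain b w' c 1)` is `(b, if w' = l1 then 3 else 4)` for both `c` since `w' ≠ w`. -/
theorem win_target (hW : N.Win S k w) {b w' y : ℕ} (hp : N.port b w') (hw' : w < w')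
    (hr : Vtx.root b w' ∈ N.F S y) (hy : y ≤ N.rho w + 3) :
    ∃ v v', v ≠ v' ∧ N.Wit S w (N.rho w + 14) (b, if w' = N.l1 w (b / 2) then 3 else 4) v ∧
      N.Wit S w (N.rho w + 14) (b, if w' = N.l1 w (b / 2) then 3 else 4) v' := by
  have hz : ∀ c, N.zone w (Vtx.chain b w' c 1) =
      (b, if w' = N.l1 w (b / 2) then 3 else 4) := by
    intro c
    show (b, if w' = w then c else if w' = N.l1 w (b / 2) then 3 else 4) = _
    rw [if_neg (by omega)]
  rcases win_chain hW hp hw'.le (show 0 < 2 by omega) hr hy with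
    ⟨j, -, -, -, h0⟩ | ⟨-, v, v', hne, h0⟩
  · rcases win_chain hW hp hw'.le (show 1 < 2 by omega) hr hy with
      ⟨j', -, -, -, h1⟩ | ⟨-, v, v', hne, h1⟩
    · rw [hz] at h0 h1
      exact ⟨_, _, by simp, h0, h1⟩
    · rw [hz] at h1
      exact ⟨v, v', hne, (h1 v (Or.inl rfl)).1, (h1 v' (Or.inr rfl)).1⟩
  · rw [hz] at h0
    exact ⟨v, v', hne, (h0 v (Or.inl rfl)).1, (h0 v' (Or.inr rfl)).1⟩

end Pool.Agent.Lib.MP_711ea9_lc.FH
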