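import Pool.Agent.Lib.MP_711ea9_lc.FH.Adj

set_option autoImplicit false

namespace Pool.Agent.Lib.MP_711ea9_lc.FH

open Finset

variable {N : Net} {k : ℕ} {w : ℕ}

/-- The number of active units of the strand `b`. -/
def Net.nact (N : Net) (w b : ℕ) (s : Bool) : ℕ :=
  (if N.rd w (b / 2) = true ∧ s = false then 2 else 0) +
  (if N.wr w (b / 2) = true then
    (if s = true then 1 else 3 + (if N.l2 w (b / 2) ≠ 0 then 1 else 0)) else 0)

open scoped Classical in
/-- TASK W6a. The number of active units, strand by strand.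
Proof. `(range 16 ×ˢ range 5).filter` has card `∑ b ∈ range 16, ((range 5).filter (act st w b)).card` (`Finset.card_filter`, `Finset.sum_product`). For fixed `b < 16`, `w < nw`: if neither `rd` nor `wr`: no port, 0. `rd` (then not `wr`, `hV.excl`): `j = 0, 1` active iff
`¬ st b w`: 2 or 0. `wr`: `st`: only `j = 2`; `¬ st`: `j = 0, 1, 3` and `4` iff `l2 ≠ 0`. (`Finset.filter` over `range 5`: `simp [Finset.sum_range_succ, Net.act]` after `Finset.card_filter`.) -/
theorem act_card (hV : N.Valid k) (hw : w < N.nw) (st : ℕ → ℕ → Prop) :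
    ((range 16 ×ˢ range 5).filter (fun x => N.act st w x.1 x.2)).card =
      ∑ b ∈ range 16, N.nact w b (decide (st b w)) := by
  rw [Finset.card_filter, Finset.sum_product]
  refine Finset.sum_congr rfl fun b hb => ?_
  have hb' : b < 16 := Finset.mem_range.1 hb
  have hp : b / 2 < 8 := by omega
  have hex := hV.excl w (b / 2) hw hp
  simp only [Finset.sum_range_succ, Finset.sum_range_zero]
  by_cases hr : N.rd w (b / 2) = true
  · have hwr := hex hr
    by_cases hs : st b w <;>
      simp [Net.act, Net.port, Net.nact, hr, hwr, hs, hb', hw]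
  · by_cases hwr : N.wr w (b / 2) = true
    · by_cases hs : st b w <;> by_cases hl : N.l2 w (b / 2) = 0 <;>
        simp [Net.act, Net.port, Net.nact, hr, hwr, hs, hb', hw, hl]
    · simp [Net.act, Net.port, Net.nact, hr, hwr]

private lemma W6_sum_pairs (f : ℕ → ℕ) (n : ℕ) :
    ∑ b ∈ range (2 * n), f b = ∑ p ∈ range n, (f (2 * p) + f (2 * p + 1)) := by
  induction n with
  | zero => simp
  | succ n ih =>
    rw [show 2 * (n + 1) = 2 * n + 1 + 1 by ring, Finset.sum_range_succ, Finset.sum_range_succ,
      Finset.sum_range_succ, ih]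
    ring

private lemma W6_sum16 (f : ℕ → ℕ) :
    ∑ b ∈ range 16, f b = ∑ p ∈ range 8, (f (2 * p) + f (2 * p + 1)) :=
  W6_sum_pairs f 8

private lemma W6_pair (hV : N.Valid k) (hw : w < N.nw) (st : ℕ → ℕ → Prop)
    [∀ a b, Decidable (st a b)] {p : ℕ} (hp : p < 8)
    (h : N.rd w p = true ∨ N.wr w p = true → (st (2 * p) w ↔ ¬ st (2 * p + 1) w)) :
    N.nact w (2 * p) (decide (st (2 * p) w)) + N.nact w (2 * p + 1) (decide (st (2 * p + 1) w)) =
      ((if N.rd w p = true then 2 else 0) +
        (if N.wr w p = true then 4 + (if N.l2 w p ≠ 0 then 1 else 0) else 0)) := by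
  have e1 : 2 * p / 2 = p := by omega
  have e2 : (2 * p + 1) / 2 = p := by omega
  have hex := hV.excl w p hw hp
  unfold Net.nact
  rw [e1, e2]
  by_cases hr : N.rd w p = true
  · have hwr := hex hr
    have hh := h (Or.inl hr)
    by_cases hs : st (2 * p) w
    · have hs' : ¬ st (2 * p + 1) w := hh.1 hs
      simp [hr, hwr, hs, hs']
    · have hs' : st (2 * p + 1) w := by
        by_contra hc
        exact hs (hh.2 hc)
      simp [hr, hwr, hs, hs']
  · by_cases hwr : N.wr w p = true
    · have hh := h (Or.inr hwr)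
      by_cases hs : st (2 * p) w
      · have hs' : ¬ st (2 * p + 1) w := hh.1 hs
        by_cases hl : N.l2 w p = 0 <;> simp [hr, hwr, hs, hs', hl]
      · have hs' : st (2 * p + 1) w := by
          by_contra hc
          exact hs (hh.2 hc)
        by_cases hl : N.l2 w p = 0 <;> simp [hr, hwr, hs, hs', hl]
    · simp [hr, hwr]

open scoped Classical in
/-- TASK W6b. If on every page read or written exactly one rail is in the state `st`, there are `e w` active units.
Proof. `act_card`; `∑ b ∈ range 16, f b = ∑ p ∈ range 8, (f (2p) + f (2p+1))` (`simp [Finset.sum_range_succ]` or `decide`-style rewriting), `(2p)/2 = (2p+1)/2 = p`. Page read (not written): `2 + 0`; page written: `1 + (3 + [l2 ≠ 0]) = 4 + [l2 ≠ 0]`; other: 0.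
Compare with `hV.e_eq`. -/
theorem act_card_eq (hV : N.Valid k) (hw : w < N.nw) (st : ℕ → ℕ → Prop)
    (h : ∀ p, p < 8 → N.rd w p = true ∨ N.wr w p = true → (st (2 * p) w ↔ ¬ st (2 * p + 1) w)) :
    ((range 16 ×ˢ range 5).filter (fun x => N.act st w x.1 x.2)).card = N.e w := by
  rw [act_card hV hw, W6_sum16, hV.e_eq w hw]
  refine Finset.sum_congr rfl fun p hp => ?_
  exact W6_pair hV hw st (Finset.mem_range.1 hp) (h p (Finset.mem_range.1 hp))

open scoped Classical in
/-- TASK W6c. If the read pages are as in W6b and both rails of the written page `q` are not in the state `st`, there are more than `e w` active units.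
Proof. As W6b; by `hV.one` `q` is the only written page; its contribution is `2 * (3 + [l2 ≠ 0])`, which is more than `4 + [l2 ≠ 0]`. (`Finset.sum_lt_sum`.) -/
theorem act_card_gt (hV : N.Valid k) (hw : w < N.nw) (st : ℕ → ℕ → Prop)
    (h : ∀ p, p < 8 → N.rd w p = true → (st (2 * p) w ↔ ¬ st (2 * p + 1) w))
    {q : ℕ} (hq : q < 8) (hwr : N.wr w q = true) (h0 : ¬ st (2 * q) w) (h1 : ¬ st (2 * q + 1) w) :
    N.e w < ((range 16 ×ˢ range 5).filter (fun x => N.act st w x.1 x.2)).card := by
  have key : N.nact w (2 * q) (decide (st (2 * q) w)) +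
      N.nact w (2 * q + 1) (decide (st (2 * q + 1) w)) >
      ((if N.rd w q = true then 2 else 0) +
        (if N.wr w q = true then 4 + (if N.l2 w q ≠ 0 then 1 else 0) else 0)) := by
    have e1 : 2 * q / 2 = q := by omega
    have e2 : (2 * q + 1) / 2 = q := by omega
    have hr : ¬ N.rd w q = true := by
      intro hr
      have := hV.excl w q hw hq hr
      rw [hwr] at this
      exact absurd this (by decide)
    unfold Net.nact
    rw [e1, e2]
    by_cases hl : N.l2 w q = 0 <;> simp [hr, hwr, h0, h1, hl]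
  rw [act_card hV hw, W6_sum16, hV.e_eq w hw]
  refine Finset.sum_lt_sum (fun p hp => ?_) ⟨q, Finset.mem_range.2 hq, key⟩
  by_cases hpq : p = q
  · subst hpq
    exact key.le
  · have hp8 := Finset.mem_range.1 hp
    refine (W6_pair hV hw st hp8 ?_).ge
    rintro (hr | hwp)
    · exact h p hp8 hr
    · exact absurd (hV.one w p q hw hp8 hq hwp hwr) hpq

end Pool.Agent.Lib.MP_711ea9_lc.FH
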